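import Pool.Agent.Lib.TwLI.Defs

/-!
# VFree : free groups are locally indicable

A subgroup `H` of a free group is free (`subgroupIsFreeOfIsFree`); if it is not trivial it has a free
generator `a`, and the homomorphism which sends `a` to `Multiplicative.ofAdd 1` and the other free generators to
`1` (`IsFreeGroup.lift`) is onto.
-/

/-!
# VFree : free groups are locally indicable

A subgroup `H` of a free group is free (`subgroupIsFreeOfIsFree`); if it is not trivial it has a free
generator `a`, and the homomorphism which sends `a` to `Multiplicative.ofAdd 1` and the other free generators to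
`1` (`IsFreeGroup.lift`) is onto.
-/

set_option autoImplicit false

open scoped Classical

namespace Pool.Agent.LIA

universe u

theorem li_freeGroup (α : Type u) : LocallyIndicable (FreeGroup α) := by
  intro H _ hH
  obtain ⟨ι, ⟨b⟩⟩ := (inferInstance : IsFreeGroup H).nonempty_basis
  have hne : Nonempty ι := by
    by_contra hι
    rw [not_nonempty_iff] at hι
    apply hH
    rw [Subgroup.eq_bot_iff_forall]
    intro x hx
    have h1 : (⟨x, hx⟩ : H) = 1 := b.repr.injective (Subsingleton.elim _ _)
    exact congrArg Subtype.val h1
  obtain ⟨i⟩ := hne
  refine ⟨b.lift (fun j => if j = i then Multiplicative.ofAdd (1 : ℤ) else 1), ?_⟩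
  intro z
  refine ⟨b i ^ z.toAdd, ?_⟩
  have h2 : b.lift (fun j => if j = i then Multiplicative.ofAdd (1 : ℤ) else 1) (b i) =
      Multiplicative.ofAdd (1 : ℤ) := by
    simp
  rw [map_zpow, h2]
  apply Multiplicative.toAdd.injective
  simp

end Pool.Agent.LIA
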