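import Pool.Agent.Lib.TwLI.VInd

/-!
# VPot : cochains with values in a locally indicable group

`W` is finite, `Γ : LG W S`, `θ` has values in the locally indicable group `Q`. Suppose that every rational
cochain induced by `θ` (`Ind`) is a coboundary. Then `θ` has a potential.
Proof. For every `x` let `r x` be a vertex of the component of `x` which depends only on the component
(`Γ.comp x` is a nonempty finset, `comp_eq_iff`), choose a walk from `r x` to `x` with value `g x` (`exists_wv`;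
for `x = r x` no special choice is needed). For a vertex `o` let `D o` be the subgroup of the values `q` with
`Γ.Wv θ o L o q`. It suffices to show that for every vertex `o = r o` (or every `o`) `D o = ⊥`: then the value of a walk from
`o` to `x` does not depend on the walk, and `h x = g x` is a potential: for an edge `(u, s, v)`, the walks for
`v` and the walk for `u` followed by the edge are two walks from `r u = r v` to `v`, so
`g u * θ (u, s, v) * (g v)⁻¹ ∈ D (r u)`, which is trivial.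
`D = D o` is finitely generated: by the elements `g u * θ (u, s, v) * (g v)⁻¹`, `(u, s, v) ∈ Γ.F`, `u` in the
component of `o` (and `g o`, if `g o ≠ 1`; one can take the walk `[]` for the base points, or conjugate). If `D ≠ ⊥` there is a
surjective homomorphism `D → Multiplicative ℤ`, compose with the inclusion of `ℤ` into `ℚ`: `ψ`, not
trivial. Let `c (u, s, v) = ψ (g u * θ * (g v)⁻¹)` on the edges of the component `C` of `o` and zero on
the others. `Γ.Ind θ c`, so `c = dk`. Then `ψ` of the value of a closed walk at `o` is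
`Γ.trSum c o L = k o - k o = 0` (`trSum_coboundary`; the sum is the value of `ψ` on the product, as
`g o = 1`). So `ψ` is trivial, a contradiction.
`acy_pot`: an induced cochain has sum zero along the closed relator walks (`Ind.trSum_eq_zero`).
-/

set_option autoImplicit false

open scoped Classical

namespace Pool.Agent.LIA

universe u

namespace LG

/-- `a` is in `D` and `ψ` has the value `t` at `a` -/
private def KV {Q : Type*} [Group Q] {D : Subgroup Q} (ψ : D →* Multiplicative ℚ) (a : Q) (t : ℚ) :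
    Prop := ∃ h : a ∈ D, (ψ ⟨a, h⟩).toAdd = t

private theorem KV.one {Q : Type*} [Group Q] {D : Subgroup Q} (ψ : D →* Multiplicative ℚ) :
    KV ψ 1 0 := by
  refine ⟨D.one_mem, ?_⟩
  have : (⟨1, D.one_mem⟩ : D) = 1 := rfl
  rw [this, map_one]
  rfl

private theorem KV.mul {Q : Type*} [Group Q] {D : Subgroup Q} {ψ : D →* Multiplicative ℚ}
    {a b : Q} {s t : ℚ} (ha : KV ψ a s) (hb : KV ψ b t) : KV ψ (a * b) (s + t) := by
  obtain ⟨ha, rfl⟩ := ha
  obtain ⟨hb, rfl⟩ := hb
  refine ⟨D.mul_mem ha hb, ?_⟩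
  have : (⟨a * b, D.mul_mem ha hb⟩ : D) = ⟨a, ha⟩ * ⟨b, hb⟩ := rfl
  rw [this, map_mul, toAdd_mul]

private theorem KV.inv {Q : Type*} [Group Q] {D : Subgroup Q} {ψ : D →* Multiplicative ℚ}
    {a : Q} {s : ℚ} (ha : KV ψ a s) : KV ψ a⁻¹ (-s) := by
  obtain ⟨ha, rfl⟩ := ha
  refine ⟨D.inv_mem ha, ?_⟩
  have : (⟨a⁻¹, D.inv_mem ha⟩ : D) = (⟨a, ha⟩)⁻¹ := rfl
  rw [this, map_inv, toAdd_inv]

private theorem kv_walk {W S Q : Type*} [Group Q] (Γ : LG W S) (θ : W × S × W → Q) (o : W)
    (D : Subgroup Q) (ψ : D →* Multiplicative ℚ) (g : W → Q) (k : W → ℚ)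
    (hE : ∀ u s v, (u, s, v) ∈ Γ.F → Γ.Conn o u → KV ψ (g u * θ (u, s, v) * (g v)⁻¹) (k v - k u))
    {v : W} {L : List (S × Bool)} : ∀ {u : W} {q : Q}, Γ.Conn o u → Γ.Wv θ u L v q →
      KV ψ (g u * q * (g v)⁻¹) (k v - k u) := by
  induction L with
  | nil =>
    rintro u q - ⟨rfl, rfl⟩
    rw [mul_one, mul_inv_cancel, sub_self]
    exact KV.one ψ
  | cons l L ih =>
    rintro u q hu ⟨x, q', hs, hw, rfl⟩
    have hx : Γ.Conn o x := hu.trans hs.conn
    have h2 := ih hx hw
    obtain ⟨s, b⟩ := l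
    have h1 : KV ψ (g u * (if b then θ (u, s, x) else (θ (x, s, u))⁻¹) * (g x)⁻¹) (k x - k u) := by
      cases b
      · rw [step_false] at hs
        have h3 := (hE _ _ _ hs hx).inv
        have e1 : (g x * θ (x, s, u) * (g u)⁻¹)⁻¹ = g u * (θ (x, s, u))⁻¹ * (g x)⁻¹ := by group
        rw [e1, neg_sub] at h3
        exact h3
      · rw [step_true] at hs
        exact hE _ _ _ hs hu
    have h3 := h1.mul h2
    have e1 : g u * (if b then θ (u, s, x) else (θ (x, s, u))⁻¹) * (g x)⁻¹ * (g x * q' * (g v)⁻¹) =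
        g u * ((if b then θ (u, s, x) else (θ (x, s, u))⁻¹) * q') * (g v)⁻¹ := by group
    have e2 : k x - k u + (k v - k x) = k v - k u := by ring
    rw [e1, e2] at h3
    exact h3

/-- a potential on one component -/
private theorem pot_comp {W S Q : Type*} [Group Q] (hQ : LocallyIndicable Q) (Γ : LG W S)
    (θ : W × S × W → Q)
    (H : ∀ c, Γ.Ind θ c → ∃ h : W → ℚ, ∀ u s v, (u, s, v) ∈ Γ.F → c (u, s, v) = h v - h u)
    (o : W) : ∃ g : W → Q, ∀ u s v, (u, s, v) ∈ Γ.F → Γ.Conn o u → g v = g u * θ (u, s, v) := by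
  -- values of walks from `o`
  have hg : ∀ x, ∃ q : Q, Γ.Conn o x → ∃ L, Γ.Wv θ o L x q ∧ (x = o → q = 1) := by
    intro x
    by_cases hx : Γ.Conn o x
    · by_cases hxo : x = o
      · subst hxo
        exact ⟨1, fun _ => ⟨[], ⟨rfl, rfl⟩, fun _ => rfl⟩⟩
      · obtain ⟨L, hL⟩ := hx
        obtain ⟨q, hq⟩ := exists_wv (θ := θ) hL
        exact ⟨q, fun _ => ⟨L, hq, fun h => (hxo h).elim⟩⟩
    · exact ⟨1, fun h => (hx h).elim⟩
  choose g hg using hg
  have hgo : g o = 1 := by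
    obtain ⟨L, -, h⟩ := hg o (conn_refl o)
    exact h rfl
  -- the subgroup
  let gen : W × S × W → Q := fun e => g e.1 * θ e * (g e.2.2)⁻¹
  let E : Finset (W × S × W) := Γ.F.filter fun e => Γ.Conn o e.1
  let D : Subgroup Q := Subgroup.closure (gen '' (E : Set (W × S × W)))
  have hmem : ∀ u s v, (u, s, v) ∈ Γ.F → Γ.Conn o u → g u * θ (u, s, v) * (g v)⁻¹ ∈ D := by
    intro u s v h hu
    exact Subgroup.subset_closure ⟨(u, s, v), Finset.mem_coe.2 (Finset.mem_filter.2 ⟨h, hu⟩), rfl⟩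
  have hFG : D.FG := ⟨(E.image gen), by rw [Finset.coe_image]⟩
  by_cases hD : D = ⊥
  · refine ⟨g, fun u s v h hu => ?_⟩
    have h1 := hmem u s v h hu
    rw [hD, Subgroup.mem_bot, mul_inv_eq_one] at h1
    exact h1.symm
  exfalso
  obtain ⟨f, hf⟩ := hQ D hFG hD
  let ι : Multiplicative ℤ →* Multiplicative ℚ := AddMonoidHom.toMultiplicative (Int.castAddHom ℚ)
  let ψ : D →* Multiplicative ℚ := ι.comp f
  let C : Set W := {x | Γ.Conn o x}
  let c : W × S × W → ℚ := fun e =>
    if h : e ∈ Γ.F ∧ Γ.Conn o e.1 then (ψ ⟨g e.1 * θ e * (g e.2.2)⁻¹, hmem e.1 e.2.1 e.2.2 h.1 h.2⟩).toAdd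
    else 0
  have hc : ∀ u s v (h : (u, s, v) ∈ Γ.F) (hu : Γ.Conn o u),
      c (u, s, v) = (ψ ⟨g u * θ (u, s, v) * (g v)⁻¹, hmem u s v h hu⟩).toAdd := by
    intro u s v h hu
    exact dif_pos (⟨h, hu⟩ : (u, s, v) ∈ Γ.F ∧ Γ.Conn o u)
  have hInd : Γ.Ind θ c := by
    refine ⟨C, D, ψ, g, ?_, ?_, ?_⟩
    · intro u s v h
      exact ⟨fun hu => Conn.trans hu (conn_of_mem h), fun hv => Conn.trans hv (conn_of_mem h).symm⟩
    · intro u s v h hu
      exact ⟨hmem u s v h hu, hc u s v h hu⟩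
    · intro u s v h hu
      exact dif_neg fun h' => hu h'.2
  obtain ⟨k, hk⟩ := H c hInd
  have hE : ∀ u s v, (u, s, v) ∈ Γ.F → Γ.Conn o u →
      KV ψ (g u * θ (u, s, v) * (g v)⁻¹) (k v - k u) := by
    intro u s v h hu
    refine ⟨hmem u s v h hu, ?_⟩
    rw [← hk u s v h]
    exact (hc u s v h hu).symm
  have hk0 : ∀ x, Γ.Conn o x → k x = k o := by
    intro x hx
    obtain ⟨L, hL, -⟩ := hg x hx
    have h1 := kv_walk Γ θ o D ψ g k hE (conn_refl o) hL
    rw [hgo, one_mul, mul_inv_cancel] at h1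
    obtain ⟨h2, h3⟩ := h1
    obtain ⟨h4, h5⟩ := KV.one ψ
    have h6 : k x - k o = 0 := h3.symm.trans h5
    linarith
  -- `f` is trivial
  have hψ : ∀ d : D, (f d) = 1 := by
    have h1 : ∀ a, a ∈ D → KV ψ a 0 := by
      intro a ha
      refine Subgroup.closure_induction (p := fun a _ => KV ψ a 0) ?_ (KV.one ψ) ?_ ?_ ha
      · rintro _ ⟨⟨u, s, v⟩, he, rfl⟩
        obtain ⟨h, hu⟩ := Finset.mem_filter.1 (Finset.mem_coe.1 he)
        have h2 := hE u s v h hu
        rw [hk0 u hu, hk0 v (Conn.trans hu (conn_of_mem h)), sub_self] at h2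
        exact h2
      · intro a b _ _ ha hb
        have := ha.mul hb
        rwa [add_zero] at this
      · intro a _ ha
        have := ha.inv
        rwa [neg_zero] at this
    rintro ⟨a, ha⟩
    obtain ⟨h2, h3⟩ := h1 a ha
    have h4 : ((f ⟨a, ha⟩).toAdd : ℚ) = 0 := h3
    have h5 : (f ⟨a, ha⟩).toAdd = 0 := by exact_mod_cast h4
    exact h5
  obtain ⟨d, hd⟩ := hf (Multiplicative.ofAdd 1)
  rw [hψ d] at hd
  have : (0 : ℤ) = 1 := hd
  omega

theorem li_pot {W S Q : Type*} [Fintype W] [Group Q] (hQ : LocallyIndicable Q) (Γ : LG W S)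
    (θ : W × S × W → Q)
    (H : ∀ c, Γ.Ind θ c → ∃ h : W → ℚ, ∀ u s v, (u, s, v) ∈ Γ.F → c (u, s, v) = h v - h u) :
    ∃ h : W → Q, Γ.IsPot θ h := by
  choose g hg using pot_comp hQ Γ θ H
  have hne : ∀ x, (Γ.comp x).Nonempty := fun x => ⟨x, self_mem_comp x⟩
  have hch : ∀ (A B : Finset W) (hA : A.Nonempty) (hB : B.Nonempty), A = B →
      hA.choose = hB.choose := by
    rintro A _ hA hB rfl
    rfl
  refine ⟨fun x => g (hne x).choose x, fun u s v h => ?_⟩
  have h1 : (hne v).choose = (hne u).choose :=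
    hch _ _ _ _ (comp_eq_iff.2 (conn_of_mem h)).symm
  show g (hne v).choose v = g (hne u).choose u * θ (u, s, v)
  rw [h1]
  exact hg _ u s v h (mem_comp.1 (hne u).choose_spec).symm

theorem acy_pot {W S Z Q : Type*} [Fintype W] [Group Q] (hQ : LocallyIndicable Q) (Γ : LG W S)
    {rel : Z → List (S × Bool)} (hA : Γ.Acy rel) (θ : W × S × W → Q)
    (hθ : ∀ v z, Γ.Walk v (rel z) v → Γ.Wv θ v (rel z) v 1) : ∃ h : W → Q, Γ.IsPot θ h :=
  li_pot hQ Γ θ fun c hc => hA c fun v z h => hc.trSum_eq_zero (hθ v z h)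

end LG

end Pool.Agent.LIA
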