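import Pool.Agent.Lib.TwLI.TCore

/-!
# TEx : the finite model of finitely many elements which generate a group without characters

This is `exists_graph` of `Lib/MP_cf50d6_gt/Ex.lean` (please copy the file with its private lemmas
`ex_words`, `ex_conj`) with `core_acy` in place of `core_gen`: the generators of the group are now given
as images of `k j`. Let `σ : FreeGroup (Fin n) → G`, `j ↦ π (k j)`, `κ : FreeGroup (Fin n) → FreeGroup S`,
`j ↦ k j`. By `hno` and `ex_words` there is a finite set of words `W` with `σ w = 1` which spans rationally; each `κ w`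
is a product of conjugates of relators (`ex_conj`); `J` = the subgroup generated by all `k j` and these
conjugates; `core_acy` with `u', r'` for the conjugates and `h' j = (k j).toWord`. A balanced cochain (sum zero
along all closed relator walks) has in particular sum zero along the walks `r' i` at `v i`.
-/

set_option autoImplicit false

open scoped Classical

namespace Pool.Agent.LIA

universe u

/-- finitely many relations suffice to kill the homomorphisms to the rationals -/
private theorem ex_words {G : Type*} [Group G] {n : ℕ} (σ : FreeGroup (Fin n) →* G)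
    (hno : ∀ f : σ.range →* Multiplicative ℚ, ∀ h, f h = 1) :
    ∃ W : Finset (FreeGroup (Fin n)), (∀ w ∈ W, σ w = 1) ∧
      ∀ ψ : FreeGroup (Fin n) →* Multiplicative ℚ, (∀ w ∈ W, ψ w = 1) → ∀ w, ψ w = 1 := by
  let ab : FreeGroup (Fin n) →* Multiplicative (Fin n → ℚ) :=
    FreeGroup.lift fun j => Multiplicative.ofAdd (Pi.single j 1)
  have hab : ∀ j, (ab (FreeGroup.of j)).toAdd = Pi.single j 1 := by
    intro j
    simp [ab]
  let R : Set (Fin n → ℚ) := {x | ∃ w, σ w = 1 ∧ (ab w).toAdd = x}
  -- every homomorphism to the rationals is a functional of the abelianization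
  have hfun : ∀ ψ : FreeGroup (Fin n) →* Multiplicative ℚ, ∃ l : (Fin n → ℚ) →ₗ[ℚ] ℚ,
      ∀ w, (ψ w).toAdd = l (ab w).toAdd := by
    intro ψ
    let l : (Fin n → ℚ) →ₗ[ℚ] ℚ :=
      ∑ j, (ψ (FreeGroup.of j)).toAdd • LinearMap.proj j
    refine ⟨l, ?_⟩
    have h1 : ψ = (AddMonoidHom.toMultiplicative l.toAddMonoidHom).comp ab := by
      refine FreeGroup.ext_hom _ _ fun j => ?_
      rw [MonoidHom.comp_apply]
      have h2 : l (ab (FreeGroup.of j)).toAdd = (ψ (FreeGroup.of j)).toAdd := by
        rw [hab]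
        simp [l, Pi.single_apply]
      change ψ (FreeGroup.of j) = Multiplicative.ofAdd (l (ab (FreeGroup.of j)).toAdd)
      rw [h2]
      rfl
    intro w
    rw [h1]
    rfl
  have hspan : Submodule.span ℚ R = ⊤ := by
    by_contra hne
    obtain ⟨l, hl0, hl⟩ := Submodule.exists_le_ker_of_lt_top _ (lt_top_iff_ne_top.2 hne)
    let φ : FreeGroup (Fin n) →* Multiplicative ℚ :=
      (AddMonoidHom.toMultiplicative l.toAddMonoidHom).comp ab
    have hφ : ∀ w, σ w = 1 → φ w = 1 := by
      intro w hw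
      have h1 : (ab w).toAdd ∈ Submodule.span ℚ R := Submodule.subset_span ⟨w, hw, rfl⟩
      have h2 := hl h1
      rw [LinearMap.mem_ker] at h2
      change Multiplicative.ofAdd (l (ab w).toAdd) = 1
      rw [h2]
      rfl
    have hsurj : Function.Surjective σ.rangeRestrict := σ.rangeRestrict_surjective
    have hker : σ.rangeRestrict.ker ≤ φ.ker := by
      intro w hw
      rw [MonoidHom.mem_ker] at hw ⊢
      apply hφ
      have := congrArg Subtype.val hw
      simpa using this
    let f' : σ.range →* Multiplicative ℚ :=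
      σ.rangeRestrict.liftOfSurjective hsurj ⟨φ, hker⟩
    have hf' : ∀ w, f' (σ.rangeRestrict w) = φ w := by
      intro w
      exact σ.rangeRestrict.liftOfRightInverse_comp_apply _ _ ⟨φ, hker⟩ w
    apply hl0
    refine LinearMap.pi_ext' fun j => ?_
    refine LinearMap.ext_ring ?_
    have h3 : φ (FreeGroup.of j) = 1 := by rw [← hf']; exact hno f' _
    have h4 : l (ab (FreeGroup.of j)).toAdd = 0 := by
      have h5 : Multiplicative.ofAdd (l (ab (FreeGroup.of j)).toAdd) = 1 := h3
      simpa using h5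
    rw [hab] at h4
    simpa using h4
  obtain ⟨b, hbR, hb, hli⟩ := exists_linearIndependent ℚ R
  have hbfin : b.Finite := hli.setFinite
  have hpre : ∀ x : (Fin n → ℚ), ∃ w, x ∈ b → σ w = 1 ∧ (ab w).toAdd = x := by
    intro x
    by_cases hx : x ∈ b
    · obtain ⟨w, hw⟩ := hbR hx
      exact ⟨w, fun _ => hw⟩
    · exact ⟨1, fun h => absurd h hx⟩
  choose g hg using hpre
  refine ⟨hbfin.toFinset.image g, ?_, ?_⟩
  · intro w hw
    obtain ⟨x, hx, rfl⟩ := Finset.mem_image.1 hw
    exact (hg x (hbfin.mem_toFinset.1 hx)).1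
  · intro ψ hψ
    obtain ⟨l, hl⟩ := hfun ψ
    have hl0 : l = 0 := by
      have h1 : (⊤ : Submodule ℚ (Fin n → ℚ)) ≤ LinearMap.ker l := by
        rw [← hspan, ← hb, Submodule.span_le]
        intro x hx
        have h2 := hψ (g x) (Finset.mem_image_of_mem _ (hbfin.mem_toFinset.2 hx))
        have h3 := hl (g x)
        rw [h2, (hg x hx).2] at h3
        exact h3.symm
      ext x
      have := h1 (Submodule.mem_top (x := Pi.single x 1))
      simpa using this
    intro w
    have h1 := hl w
    rw [hl0] at h1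
    simpa using h1

/-- an element of the normal closure is a product of finitely many conjugates -/
private theorem ex_conj {F Z : Type*} [Group F] (ρ : Z → F) {w : F}
    (hw : w ∈ Subgroup.normalClosure (Set.range ρ)) :
    ∃ T : Finset (F × Z),
      w ∈ Subgroup.closure ((fun p : F × Z => p.1 * ρ p.2 * p.1⁻¹) '' (T : Set (F × Z))) := by
  unfold Subgroup.normalClosure at hw
  induction hw using Subgroup.closure_induction with
  | mem x hx =>
    rw [Group.mem_conjugatesOfSet_iff] at hx
    obtain ⟨a, ⟨z, rfl⟩, hc⟩ := hx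
    obtain ⟨c, hc⟩ := isConj_iff.1 hc
    refine ⟨{(c, z)}, Subgroup.subset_closure ⟨(c, z), by simp, hc⟩⟩
  | one => exact ⟨∅, one_mem _⟩
  | mul x y _ _ hx hy =>
    obtain ⟨T, hT⟩ := hx
    obtain ⟨T', hT'⟩ := hy
    refine ⟨T ∪ T', mul_mem ?_ ?_⟩
    · refine Subgroup.closure_mono (Set.image_mono ?_) hT
      exact_mod_cast Finset.subset_union_left
    · refine Subgroup.closure_mono (Set.image_mono ?_) hT'
      exact_mod_cast Finset.subset_union_right
  | inv x _ hx =>
    obtain ⟨T, hT⟩ := hx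
    exact ⟨T, inv_mem hT⟩

theorem exists_graph_acy {S : Type u} {Z G : Type*} [Group G] (π : FreeGroup S →* G)
    (rel : Z → List (S × Bool))
    (hker : π.ker ≤ Subgroup.normalClosure (Set.range fun z => FreeGroup.mk (rel z)))
    {n : ℕ} (k : Fin n → FreeGroup S)
    (hno : ∀ f : Subgroup.closure (Set.range fun j => π (k j)) →* Multiplicative ℚ,
      ∀ h, f h = 1) :
    ∃ (V : Type u) (_ : Fintype V) (Γ : LG V S) (o : V),
      (∀ x, Γ.Conn o x) ∧ Γ.Acy rel ∧ ∀ j, Γ.Walk o (k j).toWord o := by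
  let y : Fin n → G := fun j => π (k j)
  let σ : FreeGroup (Fin n) →* G := FreeGroup.lift y
  let κ : FreeGroup (Fin n) →* FreeGroup S := FreeGroup.lift k
  have hκ : ∀ w, π (κ w) = σ w := by
    intro w
    have h1 : π.comp κ = σ := by
      refine FreeGroup.ext_hom _ _ fun j => ?_
      simp [κ, σ, y]
    rw [← h1]
    rfl
  have hσr : σ.range = Subgroup.closure (Set.range fun j => π (k j)) :=
    FreeGroup.range_lift_eq_closure
  have hnoR : ∀ f : σ.range →* Multiplicative ℚ, ∀ h, f h = 1 := by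
    rw [hσr]
    exact hno
  obtain ⟨W, hW1, hW2⟩ := ex_words σ hnoR
  -- the conjugates of the relators
  have hconj : ∀ w : FreeGroup (Fin n), ∃ U : Finset (FreeGroup S × Z), w ∈ W →
      κ w ∈ Subgroup.closure ((fun p : FreeGroup S × Z =>
        p.1 * FreeGroup.mk (rel p.2) * p.1⁻¹) '' (U : Set (FreeGroup S × Z))) := by
    intro w
    by_cases hw : w ∈ W
    · have h1 : κ w ∈ π.ker := by
        rw [MonoidHom.mem_ker, hκ]
        exact hW1 w hw
      obtain ⟨U, hU⟩ := ex_conj (fun z => FreeGroup.mk (rel z)) (hker h1)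
      exact ⟨U, fun _ => hU⟩
    · exact ⟨∅, fun h => absurd h hw⟩
  choose U hU using hconj
  let I : Finset (FreeGroup S × Z) := W.biUnion U
  let cj : FreeGroup S × Z → FreeGroup S := fun p => p.1 * FreeGroup.mk (rel p.2) * p.1⁻¹
  have hI : ∀ w ∈ W, κ w ∈ Subgroup.closure (cj '' (I : Set (FreeGroup S × Z))) := by
    intro w hw
    refine Subgroup.closure_mono (Set.image_mono ?_) (hU w hw)
    intro p hp
    exact Finset.mem_coe.2 (Finset.mem_biUnion.2 ⟨w, hw, hp⟩)
  let J : Subgroup (FreeGroup S) := Subgroup.closure (Set.range k ∪ cj '' (I : Set _))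
  let u' : I → List (S × Bool) := fun p => p.1.1.toWord
  let r' : I → List (S × Bool) := fun p => rel p.1.2
  let h' : Fin n → List (S × Bool) := fun j => (k j).toWord
  have hcj : ∀ i : I, FreeGroup.mk (u' i ++ r' i ++ FreeGroup.invRev (u' i)) = cj i.1 := by
    intro i
    rw [mk_append, mk_append, ← FreeGroup.inv_mk]
    simp [u', r', cj, FreeGroup.mk_toWord]
  have hJ1 : ∀ i : I, FreeGroup.mk (u' i ++ r' i ++ FreeGroup.invRev (u' i)) ∈ J := by
    intro i
    rw [hcj]
    exact Subgroup.subset_closure (Or.inr ⟨i.1, i.2, rfl⟩)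
  have hJ2 : ∀ j, FreeGroup.mk (h' j) ∈ J := by
    intro j
    rw [FreeGroup.mk_toWord]
    exact Subgroup.subset_closure (Or.inl ⟨j, rfl⟩)
  have hκJ : ∀ w, κ w ∈ J := by
    intro w
    have h1 : κ.range ≤ J := by
      rw [show κ.range = Subgroup.closure (Set.range k) from FreeGroup.range_lift_eq_closure]
      exact Subgroup.closure_mono Set.subset_union_left
    exact h1 ⟨w, rfl⟩
  have hmain : ∀ ψ : FreeGroup S → ℚ, (∀ a ∈ J, ∀ b ∈ J, ψ (a * b) = ψ a + ψ b) →
      (∀ i, ψ (FreeGroup.mk (u' i ++ r' i ++ FreeGroup.invRev (u' i))) = 0) →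
      ∀ a ∈ J, ψ a = 0 := by
    intro ψ hψ hψ0
    let f : J →* Multiplicative ℚ :=
      MonoidHom.mk' (fun a => Multiplicative.ofAdd (ψ a.1)) (by
        intro a b
        rw [← ofAdd_add]
        congr 1
        exact hψ a.1 a.2 b.1 b.2)
    have hf : ∀ a (ha : a ∈ J), f ⟨a, ha⟩ = 1 ↔ ψ a = 0 := by
      intro a ha
      change Multiplicative.ofAdd (ψ a) = 1 ↔ _
      simp
    -- the subgroup where `ψ` vanishes
    let K : Subgroup (FreeGroup S) := f.ker.map J.subtype
    have hK : ∀ a, a ∈ K → ψ a = 0 := by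
      rintro a ⟨⟨b, hb⟩, hb1, rfl⟩
      exact (hf b hb).1 hb1
    have hK' : ∀ a, a ∈ J → ψ a = 0 → a ∈ K := by
      intro a ha h0
      exact ⟨⟨a, ha⟩, (hf a ha).2 h0, rfl⟩
    have hKc : cj '' (I : Set _) ⊆ K := by
      rintro _ ⟨p, hp, rfl⟩
      refine hK' _ (Subgroup.subset_closure (Or.inr ⟨p, hp, rfl⟩)) ?_
      rw [← hψ0 ⟨p, hp⟩, hcj]
    let θ : FreeGroup (Fin n) →* Multiplicative ℚ :=
      f.comp (κ.codRestrict J hκJ)
    have hθ : ∀ w, θ w = 1 := by
      apply hW2
      intro w hw
      have h1 : κ w ∈ K := (Subgroup.closure_le K).2 hKc (hI w hw)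
      exact (hf (κ w) (hκJ w)).2 (hK _ h1)
    have hKk : Set.range k ⊆ K := by
      rintro _ ⟨j, rfl⟩
      have h1 := hθ (FreeGroup.of j)
      have h2 := (hf (κ (FreeGroup.of j)) (hκJ _)).1 h1
      have h3 : κ (FreeGroup.of j) = k j := by simp [κ]
      rw [h3] at h2
      exact hK' _ (Subgroup.subset_closure (Or.inl ⟨j, rfl⟩)) h2
    have hJK : J ≤ K := (Subgroup.closure_le K).2 (Set.union_subset hKk hKc)
    intro a ha
    exact hK a (hJK ha)
  obtain ⟨V, hV, Γ, o, v, h1, h3, h4, h5⟩ := core_acy J u' r' h' hJ1 hJ2 hmain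
  refine ⟨V, hV, Γ, o, h1, ?_, h4⟩
  intro c hc
  exact h5 c fun i => hc (v i) i.1.2 (h3 i)

end Pool.Agent.LIA
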