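import Pool.Agent.Lib.TwLI.Defs

/-!
# VInd : induced cochains have sum zero along closed walks with value one

Let `Γ.Ind θ c` with `C, D, ψ, g`. For a walk `L` from `u ∈ C` to `v` with value `q` (`Wv`), induction on `L` shows
`v ∈ C`, `g u * q * (g v)⁻¹ ∈ D` and `Γ.trSum c u L = (ψ ⟨g u * q * (g v)⁻¹, _⟩).toAdd` (for a letter
`(s, false)` use that the inverse of `g x * θ (x, s, u) * (g u)⁻¹` is `g u * (θ (x, s, u))⁻¹ * (g x)⁻¹`). For a walk
from `u ∉ C` all edges are outside `C` and the sum is zero. `wv_walk`: forget the value; `wv_append`.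
-/

set_option autoImplicit false

open scoped Classical

namespace Pool.Agent.LIA

universe u

namespace LG

variable {V S Q : Type*} [Group Q] {Γ : LG V S} {θ : V × S × V → Q}

theorem wv_walk {u v : V} {L : List (S × Bool)} {q : Q} (h : Γ.Wv θ u L v q) : Γ.Walk u L v := by
  induction L generalizing u q with
  | nil => exact h.1
  | cons l L ih =>
    obtain ⟨x, q', hx, hq', _⟩ := h
    exact ⟨x, hx, ih hq'⟩

theorem wv_append {u v w : V} {L M : List (S × Bool)} {q q' : Q} (h : Γ.Wv θ u L v q)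
    (h' : Γ.Wv θ v M w q') : Γ.Wv θ u (L ++ M) w (q * q') := by
  induction L generalizing u q with
  | nil =>
    obtain ⟨rfl, rfl⟩ := h
    rw [one_mul]
    exact h'
  | cons l L ih =>
    obtain ⟨x, q₁, hx, hq, rfl⟩ := h
    exact ⟨x, q₁ * q', hx, ih hq, by rw [mul_assoc]⟩

/-- the value of a walk is determined -/
theorem wv_unique {u v v' : V} {L : List (S × Bool)} {q q' : Q} (h : Γ.Wv θ u L v q)
    (h' : Γ.Wv θ u L v' q') : q = q' := by
  induction L generalizing u q q' with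
  | nil => exact h.2.trans h'.2.symm
  | cons l L ih =>
    obtain ⟨x, q₁, hx, hq, rfl⟩ := h
    obtain ⟨y, q₂, hy, hq', rfl⟩ := h'
    obtain rfl := step_det hx hy
    rw [ih hq hq']

/-- every walk has a value -/
theorem exists_wv {u v : V} {L : List (S × Bool)} (h : Γ.Walk u L v) : ∃ q, Γ.Wv θ u L v q := by
  induction L generalizing u with
  | nil => exact ⟨1, h, rfl⟩
  | cons l L ih =>
    obtain ⟨x, hx, hL⟩ := h
    obtain ⟨q, hq⟩ := ih hL
    exact ⟨_, x, q, hx, hq, rfl⟩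

/-- the value of a walk along a potential -/
theorem wv_pot {h : V → Q} (hp : Γ.IsPot θ h) {u v : V} {L : List (S × Bool)} {q : Q}
    (hw : Γ.Wv θ u L v q) : h v = h u * q := by
  induction L generalizing u q with
  | nil =>
    obtain ⟨rfl, rfl⟩ := hw
    rw [mul_one]
  | cons l L ih =>
    obtain ⟨x, q₁, hx, hq, rfl⟩ := hw
    rw [ih hq]
    obtain ⟨s, b⟩ := l
    cases b
    · rw [step_false] at hx
      rw [hp x s u hx]
      simp [mul_assoc]
    · rw [step_true] at hx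
      rw [hp u s x hx]
      simp [mul_assoc]

/-- the sum of an induced cochain along a walk in the part where it is induced -/
private theorem ind_aux {c : V × S × V → ℚ} {C : Set V} {D : Subgroup Q}
    {ψ : D →* Multiplicative ℚ} {g : V → Q}
    (hcl : ∀ u s v, (u, s, v) ∈ Γ.F → (u ∈ C ↔ v ∈ C))
    (hin : ∀ u s v, (u, s, v) ∈ Γ.F → u ∈ C → ∃ h : g u * θ (u, s, v) * (g v)⁻¹ ∈ D,
      c (u, s, v) = (ψ ⟨_, h⟩).toAdd) {u v : V} {L : List (S × Bool)} {q : Q}
    (hw : Γ.Wv θ u L v q) (hu : u ∈ C) :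
    ∃ h : g u * q * (g v)⁻¹ ∈ D, Γ.trSum c u L = (ψ ⟨_, h⟩).toAdd := by
  induction L generalizing u q with
  | nil =>
    obtain ⟨rfl, rfl⟩ := hw
    have h1 : g u * 1 * (g u)⁻¹ = 1 := by simp
    have h2 : g u * 1 * (g u)⁻¹ ∈ D := by rw [h1]; exact D.one_mem
    refine ⟨h2, ?_⟩
    have h3 : (⟨g u * 1 * (g u)⁻¹, h2⟩ : D) = 1 := Subtype.ext h1
    rw [h3, map_one, trSum_nil]
    rfl
  | cons l L ih =>
    obtain ⟨x, q₁, hx, hq, rfl⟩ := hw
    obtain ⟨s, b⟩ := l
    cases b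
    · have hx' := hx
      rw [step_false] at hx'
      have hxC : x ∈ C := (hcl x s u hx').2 hu
      obtain ⟨h1, h2⟩ := hin x s u hx' hxC
      obtain ⟨h3, h4⟩ := ih hq hxC
      have h5 : g u * ((if (s, false).2 then θ (u, (s, false).1, x)
          else (θ (x, (s, false).1, u))⁻¹) * q₁) * (g v)⁻¹ =
          (g x * θ (x, s, u) * (g u)⁻¹)⁻¹ * (g x * q₁ * (g v)⁻¹) := by
        simp [mul_assoc]
      refine ⟨by rw [h5]; exact D.mul_mem (D.inv_mem h1) h3, ?_⟩
      have h6 : (⟨g u * ((if (s, false).2 then θ (u, (s, false).1, x)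
          else (θ (x, (s, false).1, u))⁻¹) * q₁) * (g v)⁻¹,
          by rw [h5]; exact D.mul_mem (D.inv_mem h1) h3⟩ : D) =
          (⟨_, h1⟩ : D)⁻¹ * ⟨_, h3⟩ := Subtype.ext h5
      rw [h6, map_mul, map_inv, toAdd_mul, toAdd_inv, ← h2, ← h4, trSum_cons _ _ _ hx]
      simp
    · have hx' := hx
      rw [step_true] at hx'
      have hxC : x ∈ C := (hcl u s x hx').1 hu
      obtain ⟨h1, h2⟩ := hin u s x hx' hu
      obtain ⟨h3, h4⟩ := ih hq hxC
      have h5 : g u * ((if (s, true).2 then θ (u, (s, true).1, x)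
          else (θ (x, (s, true).1, u))⁻¹) * q₁) * (g v)⁻¹ =
          (g u * θ (u, s, x) * (g x)⁻¹) * (g x * q₁ * (g v)⁻¹) := by
        simp [mul_assoc]
      refine ⟨by rw [h5]; exact D.mul_mem h1 h3, ?_⟩
      have h6 : (⟨g u * ((if (s, true).2 then θ (u, (s, true).1, x)
          else (θ (x, (s, true).1, u))⁻¹) * q₁) * (g v)⁻¹,
          by rw [h5]; exact D.mul_mem h1 h3⟩ : D) =
          (⟨_, h1⟩ : D) * ⟨_, h3⟩ := Subtype.ext h5
      rw [h6, map_mul, toAdd_mul, ← h2, ← h4, trSum_cons _ _ _ hx]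
      simp

private theorem ind_aux0 {c : V × S × V → ℚ} {C : Set V}
    (hcl : ∀ u s v, (u, s, v) ∈ Γ.F → (u ∈ C ↔ v ∈ C))
    (hout : ∀ u s v, (u, s, v) ∈ Γ.F → u ∉ C → c (u, s, v) = 0) {u v : V}
    {L : List (S × Bool)} (hw : Γ.Walk u L v) (hu : u ∉ C) : Γ.trSum c u L = 0 := by
  induction L generalizing u with
  | nil => exact trSum_nil _ _ _
  | cons l L ih =>
    obtain ⟨x, hx, hL⟩ := hw
    rw [trSum_cons _ _ _ hx]
    obtain ⟨s, b⟩ := l
    cases b
    · rw [step_false] at hx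
      have hxC : x ∉ C := fun h => hu ((hcl x s u hx).1 h)
      rw [ih hL hxC]
      simp [hout x s u hx hxC]
    · rw [step_true] at hx
      have hxC : x ∉ C := fun h => hu ((hcl u s x hx).2 h)
      rw [ih hL hxC]
      simp [hout u s x hx hu]

theorem Ind.trSum_eq_zero {c : V × S × V → ℚ} (hc : Γ.Ind θ c) {u : V} {L : List (S × Bool)}
    (hw : Γ.Wv θ u L u 1) : Γ.trSum c u L = 0 := by
  obtain ⟨C, D, ψ, g, hcl, hin, hout⟩ := hc
  by_cases hu : u ∈ C
  · obtain ⟨h1, h2⟩ := ind_aux hcl hin hw hu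
    have h3 : (⟨g u * 1 * (g u)⁻¹, h1⟩ : D) = 1 := Subtype.ext (by simp)
    rw [h2, h3, map_one]
    rfl
  · exact ind_aux0 hcl hout (wv_walk hw) hu

end LG

/-- if the values of the edges depend only on the labels, the value of a walk is the value of the
word -/
theorem wv_label {V S Q : Type*} [Group Q] {Γ : LG V S} (f : S → Q) {u v : V}
    {L : List (S × Bool)} (h : Γ.Walk u L v) :
    Γ.Wv (fun e => f e.2.1) u L v (FreeGroup.lift f (FreeGroup.mk L)) := by
  induction L generalizing u with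
  | nil =>
    refine ⟨h, ?_⟩
    simp
  | cons l L ih =>
    obtain ⟨x, hx, hL⟩ := h
    refine ⟨x, _, hx, ih hL, ?_⟩
    obtain ⟨s, b⟩ := l
    cases b <;> simp [FreeGroup.lift_mk]

end Pool.Agent.LIA
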