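import Pool.Agent.Lib.TwLI.VPot

/-!
# VB : the `B`-part at the top of the tower

Apply `li_pot` to the graph `Δ_B = Δ.pull Sum.inl _` (labels `B`) and `θ (u, b, v) = b`. Let `c` be induced by `θ`. Define
`c' : W × (B ⊕ X) × W → ℚ` by `c' (u, inl b, v) = c (u, b, v)`, `c' (u, inr x, v) = 0`. By `hS` (target
`t w i = - Δ.trSum c' w (R i).toWord`) there is `f`, zero on the edges with labels `inl b`, with
`Δ.trSum f w (R i).toWord = - Δ.trSum c' w (R i).toWord` whenever readable. Then `c' + f` has sum zero along
the closed walks of the relators `R i`, and along the closed walks of the words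
`[a] [b] [a b]⁻¹` its sum is that of `c`, which is zero by `Ind.trSum_eq_zero` (the value of this closed walk is
`a * b * (a * b)⁻¹ = 1`). By `hA` it is a coboundary, so `c` is a coboundary on `Δ_B`.
-/

set_option autoImplicit false

open scoped Classical

namespace Pool.Agent.LIA

universe u

theorem vb {W B X ι : Type*} [Fintype W] [Group B] (hB : LocallyIndicable B)
    (R : ι → FreeGroup (B ⊕ X)) (Δ : LG W (B ⊕ X)) (hA : Δ.Acy (vrel R))
    (hS : Δ.Sur (Set.range Sum.inr) fun i => (R i).toWord) :
    ∃ h : W → B, ∀ u b v, (u, Sum.inl b, v) ∈ Δ.F → h v = h u * b := by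
  have hinj : Function.Injective (Sum.inl : B → B ⊕ X) := Sum.inl_injective
  obtain ⟨h, hh⟩ := LG.li_pot hB (Δ.pull (Sum.inl : B → B ⊕ X) hinj)
    (fun e : W × B × W => e.2.1) (by
    intro c hc
    obtain ⟨f, hf0, hf⟩ := hS fun w i => - Δ.trSum
      (fun e : W × (B ⊕ X) × W => Sum.elim (fun b => c (e.1, b, e.2.2)) (fun _ => 0) e.2.1)
      w (R i).toWord
    have hfl : ∀ u b v, f (u, Sum.inl b, v) = 0 := by
      intro u b v
      refine hf0 _ _ _ ?_
      rintro ⟨x, hx⟩
      exact Sum.inr_ne_inl hx
    obtain ⟨k, hk⟩ := hA (fun e => Sum.elim (fun b => c (e.1, b, e.2.2)) (fun _ => 0) e.2.1 + f e)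
      (by
        rintro v (⟨a, b⟩ | i) hw
        · obtain ⟨x, hx, y, hy, z, hz, hzv⟩ := hw
          have hzv' : z = v := hzv
          subst hzv'
          simp only [LG.step_true] at hx hy
          rw [LG.step_false] at hz
          have h1 := hc.trSum_eq_zero (u := z)
            (L := [(a, true), (b, true), (a * b, false)]) (by
              refine ⟨x, b * ((a * b)⁻¹ * 1), ?_, ⟨y, (a * b)⁻¹ * 1, ?_, ⟨z, 1, ?_, ⟨rfl, rfl⟩, ?_⟩,
                ?_⟩, ?_⟩
              · rw [LG.step_true]
                exact LG.mem_pull.2 hx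
              · rw [LG.step_true]
                exact LG.mem_pull.2 hy
              · rw [LG.step_false]
                exact LG.mem_pull.2 hz
              · simp
              · simp
              · simp)
          have hx' : (Δ.pull (Sum.inl : B → B ⊕ X) hinj).Step z (a, true) x :=
            LG.step_true.2 (LG.mem_pull.2 hx)
          have hy' : (Δ.pull (Sum.inl : B → B ⊕ X) hinj).Step x (b, true) y :=
            LG.step_true.2 (LG.mem_pull.2 hy)
          have hz' : (Δ.pull (Sum.inl : B → B ⊕ X) hinj).Step y (a * b, false) z :=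
            LG.step_false.2 (LG.mem_pull.2 hz)
          rw [LG.trSum_cons _ _ _ hx', LG.trSum_cons _ _ _ hy', LG.trSum_cons _ _ _ hz',
            LG.trSum_nil] at h1
          have hx2 : Δ.Step z (Sum.inl a, true) x := LG.step_true.2 hx
          have hy2 : Δ.Step x (Sum.inl b, true) y := LG.step_true.2 hy
          have hz2 : Δ.Step y (Sum.inl (a * b), false) z := LG.step_false.2 hz
          change Δ.trSum _ z [(Sum.inl a, true), (Sum.inl b, true), (Sum.inl (a * b), false)] = 0
          rw [LG.trSum_cons _ _ _ hx2, LG.trSum_cons _ _ _ hy2, LG.trSum_cons _ _ _ hz2,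
            LG.trSum_nil]
          simp only [hfl, Sum.elim_inl, if_true, Bool.false_eq_true, if_false] at h1 ⊢
          linarith
        · rw [LG.trSum_add]
          have h1 := hf v i ⟨v, hw⟩
          change Δ.trSum _ v (R i).toWord + Δ.trSum f v (R i).toWord = 0
          rw [h1]
          ring)
    refine ⟨k, fun u s v hm => ?_⟩
    have h1 := hk u (Sum.inl s) v (LG.mem_pull.1 hm)
    simp only [hfl, Sum.elim_inl, add_zero] at h1
    exact h1)
  exact ⟨h, fun u b v hm => hh u b v (LG.mem_pull.2 hm)⟩

end Pool.Agent.LIA
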