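import Pool.Agent.Lib.TwLI.Defs

/-!
# VExp : independent exponent vectors, dual form

A linear functional on `X →₀ ℚ` with prescribed values `t i` on the linearly independent vectors
`expo (R i)` (extend the family to a basis, or `Basis.span` and `LinearMap.exists_extend`) is given by a function
`g0 : X → ℚ`; let `g = Sum.elim (fun _ => 0) g0`. For a word `r : FreeGroup (C ⊕ X)` and the word
`(FreeGroup.map (Sum.map f id) r).toWord` the sum `lsum g` is the value of the functional on `expo r`: `lsum g L` depends only on
`FreeGroup.mk L` (it is the value of the homomorphism `FreeGroup (B ⊕ X) →* Multiplicative ℚ` given by `g`;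
`FreeGroup.mk_toWord`), compare homomorphisms on the generators.
-/

set_option autoImplicit false

open scoped Classical

namespace Pool.Agent.LIA

universe u

private theorem lsum_mk {S : Type*} (g : S → ℚ) (L : List (S × Bool)) :
    lsum g L = (FreeGroup.lift (fun s => Multiplicative.ofAdd (g s)) (FreeGroup.mk L)).toAdd := by
  rw [FreeGroup.lift_mk]
  induction L with
  | nil => rfl
  | cons l L ih =>
    rw [List.map_cons, List.prod_cons, toAdd_mul, ← ih]
    show (if l.2 then g l.1 else - g l.1) + lsum g L = _
    congr 1
    rcases l with ⟨s, b⟩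
    cases b <;> rfl

private theorem lsum_toWord' {S : Type*} [DecidableEq S] (g : S → ℚ) (r : FreeGroup S) :
    lsum g r.toWord = (FreeGroup.lift (fun s => Multiplicative.ofAdd (g s)) r).toAdd := by
  rw [lsum_mk, FreeGroup.mk_toWord]

/-- the sum of the values of the letters is a homomorphism -/
theorem lsum_toWord {S : Type*} (g : S → ℚ) (r : FreeGroup S) :
    lsum g r.toWord = (FreeGroup.lift (fun s => Multiplicative.ofAdd (g s)) r).toAdd := by
  rw [lsum_mk, FreeGroup.mk_toWord]

theorem exists_lsum {C B X ι : Type*} (f : C → B) (R : ι → FreeGroup (C ⊕ X))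
    (hR : LinearIndependent ℚ fun i => expo (R i)) (t : ι → ℚ) :
    ∃ g : B ⊕ X → ℚ, (∀ s, s ∉ Set.range (Sum.inr : X → B ⊕ X) → g s = 0) ∧
      ∀ i, lsum g (FreeGroup.map (Sum.map f id) (R i)).toWord = t i := by
  obtain ⟨φ, hφ⟩ := LinearMap.exists_extend ((Module.Basis.span hR).constr ℚ t)
  have h1 : ∀ i, φ (expo (R i)) = t i := by
    intro i
    have h2 := LinearMap.congr_fun hφ (Module.Basis.span hR i)
    rw [Module.Basis.constr_basis] at h2
    rw [← h2, LinearMap.comp_apply, Submodule.subtype_apply, Module.Basis.span_apply]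
  refine ⟨Sum.elim (fun _ => 0) fun x => φ (Finsupp.single x 1), ?_, ?_⟩
  · intro s hs
    cases s with
    | inl b => rfl
    | inr x => exact absurd ⟨x, rfl⟩ hs
  · intro i
    rw [lsum_toWord', ← h1 i]
    have h3 : (FreeGroup.lift (fun s : B ⊕ X => Multiplicative.ofAdd
        ((Sum.elim (fun _ => (0 : ℚ)) fun x => φ (Finsupp.single x 1)) s))).comp
          (FreeGroup.map (Sum.map f id)) =
        (AddMonoidHom.toMultiplicative φ.toAddMonoidHom).comp
          (FreeGroup.lift (Sum.elim (fun _ : C => (1 : Multiplicative (X →₀ ℚ)))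
            fun x => Multiplicative.ofAdd (Finsupp.single x 1))) := by
      apply FreeGroup.ext_hom
      intro s
      rw [MonoidHom.comp_apply, MonoidHom.comp_apply, FreeGroup.map.of, FreeGroup.lift_apply_of,
        FreeGroup.lift_apply_of]
      cases s with
      | inl c =>
        show Multiplicative.ofAdd (0 : ℚ) = _
        rw [Sum.elim_inl, map_one]
        rfl
      | inr x => rfl
    have h4 := DFunLike.congr_fun h3 (R i)
    rw [MonoidHom.comp_apply] at h4
    rw [h4]
    rfl

end Pool.Agent.LIA
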