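import Pool.Agent.Lib.TwLI.Defs

/-!
# VKer : the words presentation of a relative presentation

`π = FreeGroup.lift (Sum.elim (fun b => mk (inl b)) (fun x => mk (inr (of x))))`. It is onto (`Monoid.Coprod` is generated by the
two factors), kills the words of `vrel`. Kernel: let `N` be the normal closure of the words of `vrel` in `FreeGroup (B ⊕ X)`. The
map `B → FreeGroup (B ⊕ X) ⧸ N`, `b ↦ [of (inl b)]` is a homomorphism (words `[a] [b] [a b]⁻¹`), with
`x ↦ [of (inr x)]` it gives `Monoid.Coprod B (FreeGroup X) →* FreeGroup (B ⊕ X) ⧸ N` (`Monoid.Coprod.lift`), which kills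
`rval f (R i)` (it sends `rval f w` to `[FreeGroup.map (Sum.map f id) w]`), so a homomorphism
`RelGrp f R →* FreeGroup (B ⊕ X) ⧸ N` whose composition with `π` is the quotient map; so `π g = 1` implies `g ∈ N`.
-/

set_option autoImplicit false

open scoped Classical

namespace Pool.Agent.LIA

universe u

private theorem rval_inl {C P X : Type*} [Group P] (f : C → P) (c : C) :
    rval (X := X) f (FreeGroup.of (Sum.inl c)) = Monoid.Coprod.inl (f c) := by
  unfold rval
  rw [FreeGroup.lift_apply_of]
  rfl

private theorem rval_inr {C P X : Type*} [Group P] (f : C → P) (x : X) :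
    rval (X := X) f (FreeGroup.of (Sum.inr x)) = Monoid.Coprod.inr (FreeGroup.of x) := by
  unfold rval
  rw [FreeGroup.lift_apply_of]
  rfl

private theorem rval_id_map {C B X : Type*} [Group B] (f : C → B) (w : FreeGroup (C ⊕ X)) :
    rval (id : B → B) (FreeGroup.map (Sum.map f id) w) = rval f w := by
  have h : (rval (X := X) (id : B → B)).comp (FreeGroup.map (Sum.map f id)) = rval f := by
    apply FreeGroup.ext_hom
    intro a
    rcases a with c | x
    · rw [MonoidHom.comp_apply, FreeGroup.map.of, Sum.map_inl, rval_inl, rval_inl]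
      rfl
    · rw [MonoidHom.comp_apply, FreeGroup.map.of, Sum.map_inr, rval_inr, rval_inr]
      rfl
  have h2 := DFunLike.congr_fun h w
  exact h2

private theorem rval_id_surj {B X : Type*} [Group B] :
    Function.Surjective (rval (X := X) (id : B → B)) := by
  rw [← MonoidHom.range_eq_top, eq_top_iff, ← Monoid.Coprod.range_inl_sup_range_inr]
  apply sup_le
  · rintro _ ⟨b, rfl⟩
    exact ⟨FreeGroup.of (Sum.inl b), rval_inl id b⟩
  · rintro _ ⟨w, rfl⟩
    refine ⟨FreeGroup.map Sum.inr w, ?_⟩
    have h : (rval (X := X) (id : B → B)).comp (FreeGroup.map Sum.inr) = Monoid.Coprod.inr := by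
      apply FreeGroup.ext_hom
      intro x
      rw [MonoidHom.comp_apply, FreeGroup.map.of, rval_inr]
    exact DFunLike.congr_fun h w

private theorem exists_back {B X ι : Type*} [Group B] (R : ι → FreeGroup (B ⊕ X)) :
    ∃ u : Monoid.Coprod B (FreeGroup X) →*
      FreeGroup (B ⊕ X) ⧸ Subgroup.normalClosure (Set.range fun z => FreeGroup.mk (vrel R z)),
      ∀ g, u (rval (id : B → B) g) = QuotientGroup.mk g := by
  let s : B →* FreeGroup (B ⊕ X) ⧸
      Subgroup.normalClosure (Set.range fun z => FreeGroup.mk (vrel R z)) :=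
    MonoidHom.mk' (fun b => QuotientGroup.mk (FreeGroup.of (Sum.inl b))) (by
      intro a b
      have h : FreeGroup.of (Sum.inl a) * FreeGroup.of (Sum.inl b) *
          (FreeGroup.of (Sum.inl (a * b)))⁻¹ ∈
          Subgroup.normalClosure (Set.range fun z => FreeGroup.mk (vrel R z)) := by
        refine Subgroup.subset_normalClosure ⟨Sum.inl (a, b), ?_⟩
        rfl
      have h2 := (QuotientGroup.eq_one_iff _).mpr h
      rw [QuotientGroup.mk_mul, QuotientGroup.mk_mul, QuotientGroup.mk_inv, mul_inv_eq_one] at h2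
      exact h2.symm)
  let t : FreeGroup X →* FreeGroup (B ⊕ X) ⧸
      Subgroup.normalClosure (Set.range fun z => FreeGroup.mk (vrel R z)) :=
    FreeGroup.lift (fun x => QuotientGroup.mk (FreeGroup.of (Sum.inr x)))
  refine ⟨Monoid.Coprod.lift s t, ?_⟩
  have h : (Monoid.Coprod.lift s t).comp (rval (id : B → B)) =
      QuotientGroup.mk' (Subgroup.normalClosure (Set.range fun z => FreeGroup.mk (vrel R z))) := by
    apply FreeGroup.ext_hom
    intro a
    rcases a with b | x
    · rw [MonoidHom.comp_apply, rval_inl, Monoid.Coprod.lift_apply_inl]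
      rfl
    · rw [MonoidHom.comp_apply, rval_inr, Monoid.Coprod.lift_apply_inr]
      change FreeGroup.lift _ _ = _
      rw [FreeGroup.lift_apply_of]
      rfl
  intro g
  exact DFunLike.congr_fun h g

theorem exists_words {C B X ι : Type*} [Group B] (f : C → B) (R : ι → FreeGroup (C ⊕ X)) :
    ∃ π : FreeGroup (B ⊕ X) →* RelGrp f R, Function.Surjective π ∧
      (∀ b, π (FreeGroup.of (Sum.inl b)) = QuotientGroup.mk (Monoid.Coprod.inl b)) ∧
      (∀ x, π (FreeGroup.of (Sum.inr x)) =
        QuotientGroup.mk (Monoid.Coprod.inr (FreeGroup.of x))) ∧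
      (∀ i, π (FreeGroup.map (Sum.map f id) (R i)) = 1) ∧
      π.ker ≤ Subgroup.normalClosure
        (Set.range fun z => FreeGroup.mk (vrel (fun i => FreeGroup.map (Sum.map f id) (R i)) z)) := by
  refine ⟨(QuotientGroup.mk' (Subgroup.normalClosure (Set.range fun i => rval f (R i)))).comp
    (rval (id : B → B)), ?_, ?_, ?_, ?_, ?_⟩
  · rw [MonoidHom.coe_comp]
    exact (QuotientGroup.mk'_surjective _).comp rval_id_surj
  · intro b
    rw [MonoidHom.comp_apply, rval_inl]
    rfl
  · intro x
    rw [MonoidHom.comp_apply, rval_inr]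
    rfl
  · intro i
    rw [MonoidHom.comp_apply, rval_id_map, QuotientGroup.mk'_apply, QuotientGroup.eq_one_iff]
    exact Subgroup.subset_normalClosure ⟨i, rfl⟩
  · obtain ⟨u, hu⟩ := exists_back (X := X) (fun i => FreeGroup.map (Sum.map f id) (R i))
    intro g hg
    rw [MonoidHom.mem_ker, MonoidHom.comp_apply, QuotientGroup.mk'_apply,
      QuotientGroup.eq_one_iff] at hg
    have hle : Subgroup.normalClosure (Set.range fun i => rval f (R i)) ≤ u.ker := by
      apply Subgroup.normalClosure_le_normal
      rintro _ ⟨i, rfl⟩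
      rw [SetLike.mem_coe, MonoidHom.mem_ker]
      beta_reduce
      rw [← rval_id_map, hu, QuotientGroup.eq_one_iff]
      refine Subgroup.subset_normalClosure ⟨Sum.inr i, ?_⟩
      exact FreeGroup.mk_toWord
    have h1 := hle hg
    rw [MonoidHom.mem_ker, hu, QuotientGroup.eq_one_iff] at h1
    exact h1

end Pool.Agent.LIA
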