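import Pool.Agent.Lib.TwLI.TTop
import Pool.Agent.Lib.TwLI.VB
import Pool.Agent.Lib.TwLI.VKer
import Pool.Agent.Lib.TwLI.VExp

/-!
# VHow : independent systems of equations over a locally indicable group (Howie)

Let `b : B` be in the kernel. Let `π` be given by `exists_words (id : B → B) R` (`Sum.map id id = id`,
`FreeGroup.map id = id`). Apply `exists_top` with `n = 1`, `k 0 = of (inl b)` (`π (k 0) = 1`, so the subgroup generated by it is
trivial and has no characters), `rel = vrel R`, `S0 = Set.range Sum.inr`, `a i = (R i).toWord`, `hd` from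
`exists_lsum id R hR`. In the graph `Δ` the word `(of (inl b)).toWord = [(inl b, true)]` is closed at `o`: an edge
`(o, inl b, o)`. `vb` gives `h` with `h o = h o * b`, so `b = 1`.
-/

set_option autoImplicit false

open scoped Classical

namespace Pool.Agent.LIA

universe u

theorem howie {B X : Type u} {ι : Type*} [Group B] (hB : LocallyIndicable B)
    (R : ι → FreeGroup (B ⊕ X)) (hR : LinearIndependent ℚ fun i => expo (R i)) :
    Function.Injective fun b : B =>
      (QuotientGroup.mk (Monoid.Coprod.inl b) : RelGrp (id : B → B) R) := by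
  obtain ⟨π, -, hπl, -, -, hker⟩ := exists_words (id : B → B) R
  have hmap : ∀ r : FreeGroup (B ⊕ X), FreeGroup.map (Sum.map (id : B → B) (id : X → X)) r = r := by
    intro r
    rw [Sum.map_id_id]
    exact FreeGroup.map.id r
  have hR' : (fun i => FreeGroup.map (Sum.map (id : B → B) (id : X → X)) (R i)) = R := by
    funext i
    exact hmap (R i)
  rw [hR'] at hker
  let φ : B →* RelGrp (id : B → B) R :=
    (QuotientGroup.mk' (Subgroup.normalClosure
      (Set.range fun i => rval (id : B → B) (R i)))).comp Monoid.Coprod.inl
  have hφ : Function.Injective φ := by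
    rw [injective_iff_map_eq_one]
    intro b hb
    have hb1 : π (FreeGroup.of (Sum.inl b)) = 1 := by
      rw [hπl b]
      exact hb
    obtain ⟨W, _, Δ, o, -, hA, hS, hk⟩ := exists_top π (vrel R) hker (n := 1)
      (fun _ => FreeGroup.of (Sum.inl b)) (by
        intro f h
        have h1 : h = 1 := by
          have h2 : (h : RelGrp (id : B → B) R) ∈ Subgroup.closure
              (Set.range fun _ : Fin 1 => π (FreeGroup.of (Sum.inl b))) := h.2
          have h3 : Subgroup.closure
              (Set.range fun _ : Fin 1 => π (FreeGroup.of (Sum.inl b))) = ⊥ := by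
            rw [Subgroup.closure_eq_bot_iff]
            rintro _ ⟨j, rfl⟩
            exact hb1
          exact Subtype.ext (Subgroup.mem_bot.1 (h3.le h2))
        rw [h1, map_one]) (Set.range Sum.inr) (fun i => (R i).toWord) (by
        intro t
        obtain ⟨g, hg1, hg2⟩ := exists_lsum (id : B → B) R hR t
        refine ⟨g, hg1, fun i => ?_⟩
        have := hg2 i
        rwa [hmap] at this)
    obtain ⟨h, hh⟩ := vb hB R Δ hA hS
    have h1 := hk 0
    have hw : @FreeGroup.toWord (B ⊕ X) (fun a b => Classical.propDecidable (a = b))
        (FreeGroup.of (Sum.inl b)) = [(Sum.inl b, true)] :=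
      @FreeGroup.toWord_of (B ⊕ X) (fun a b => Classical.propDecidable (a = b)) _
    rw [hw, LG.walk_singleton] at h1
    have h2 : (o, Sum.inl b, o) ∈ Δ.F := by
      simpa [LG.Step] using h1
    have h3 := hh o b o h2
    exact (mul_eq_left.1 h3.symm)
  exact hφ

end Pool.Agent.LIA
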