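import Pool.Agent.Lib.MP_cf50d6_gt.Main

/-!
# Towers of labelled graphs : definitions

(helper81, problem MP_cf50d6_gt; paper in the team store: MP_cf50d6_gt_paper81.md)

`LG V S`, `Walk`, `trSum`, `LocallyIndicable`, `GFG` come from `Lib/MP_cf50d6_gt` (helper98).
-/

set_option autoImplicit false

open scoped Classical

namespace Pool.Agent.LIA

universe u

namespace LG

variable {V W S Z K : Type*}

/-- the word `L` is readable from `u` -/
def Rd (Γ : LG V S) (u : V) (L : List (S × Bool)) : Prop := ∃ v, Γ.Walk u L v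

/-- every rational cochain whose sums along all closed relator walks vanish is a coboundary -/
def Acy (Γ : LG V S) (rel : Z → List (S × Bool)) : Prop :=
  ∀ c : V × S × V → ℚ, (∀ v z, Γ.Walk v (rel z) v → Γ.trSum c v (rel z) = 0) →
    ∃ h : V → ℚ, ∀ u s v, (u, s, v) ∈ Γ.F → c (u, s, v) = h v - h u

/-- the sums along the words `a k`, at all vertices where they are readable, can be prescribed by a
cochain which is zero on the edges with label outside `S0` -/
def Sur (Γ : LG V S) (S0 : Set S) (a : K → List (S × Bool)) : Prop :=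
  ∀ t : V → K → ℚ, ∃ f : V × S × V → ℚ, (∀ u s v, s ∉ S0 → f (u, s, v) = 0) ∧
    ∀ w k, Γ.Rd w (a k) → Γ.trSum f w (a k) = t w k

/-- `Δ` is the image of `Γ` under the map `p` of the vertices -/
def IsImg (Γ : LG V S) (p : V → W) (Δ : LG W S) : Prop :=
  ∀ e, e ∈ Δ.F ↔ ∃ u s v, (u, s, v) ∈ Γ.F ∧ e = (p u, s, p v)

/-- the word `L` is readable from `u` to `v`, and the product of the values `θ` of its edges is
`q` -/
def Wv {Q : Type*} [Group Q] (Γ : LG V S) (θ : V × S × V → Q) :
    V → List (S × Bool) → V → Q → Prop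
  | u, [], v, q => u = v ∧ q = 1
  | u, l :: L, v, q => ∃ x q', Γ.Step u l x ∧ Γ.Wv θ x L v q' ∧
      q = (if l.2 then θ (u, l.1, x) else (θ (x, l.1, u))⁻¹) * q'

/-- `h` is a potential of the values `θ` -/
def IsPot {Q : Type*} [Group Q] (Γ : LG V S) (θ : V × S × V → Q) (h : V → Q) : Prop :=
  ∀ u s v, (u, s, v) ∈ Γ.F → h v = h u * θ (u, s, v)

/-- the rational cochain `c` is induced by the group valued cochain `θ`: on the edges in a union `C`
of components it is `ψ (g u * θ * (g v)⁻¹)` for a homomorphism `ψ` from a subgroup to the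
rational numbers, on the other edges it is zero -/
def Ind {Q : Type*} [Group Q] (Γ : LG V S) (θ : V × S × V → Q) (c : V × S × V → ℚ) : Prop :=
  ∃ (C : Set V) (D : Subgroup Q) (ψ : D →* Multiplicative ℚ) (g : V → Q),
    (∀ u s v, (u, s, v) ∈ Γ.F → (u ∈ C ↔ v ∈ C)) ∧
    (∀ u s v, (u, s, v) ∈ Γ.F → u ∈ C → ∃ h : g u * θ (u, s, v) * (g v)⁻¹ ∈ D,
      c (u, s, v) = (ψ ⟨_, h⟩).toAdd) ∧
    ∀ u s v, (u, s, v) ∈ Γ.F → u ∉ C → c (u, s, v) = 0

end LG

/-- the sum of the values `g` of the letters of a word -/
def lsum {S : Type*} (g : S → ℚ) : List (S × Bool) → ℚ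
  | [] => 0
  | l :: L => (if l.2 then g l.1 else - g l.1) + lsum g L

/-! ## relative presentations -/

/-- the exponent vector in the letters `X` of a word in the letters `C` and `X` -/
noncomputable def expo {C X : Type*} (r : FreeGroup (C ⊕ X)) : X →₀ ℚ :=
  (FreeGroup.lift (Sum.elim (fun _ => (1 : Multiplicative (X →₀ ℚ)))
    fun x => Multiplicative.ofAdd (Finsupp.single x 1)) r).toAdd

/-- the value of a word in the letters `C` and `X` in the free product `P * F(X)`, where the letters
`C` are mapped into `P` by `f` -/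
def rval {C P X : Type*} [Group P] (f : C → P) :
    FreeGroup (C ⊕ X) →* Monoid.Coprod P (FreeGroup X) :=
  FreeGroup.lift (Sum.elim (fun c => Monoid.Coprod.inl (f c))
    fun x => Monoid.Coprod.inr (FreeGroup.of x))

/-- the relative presentation `⟨P, X | R⟩` : the free product of `P` and the free group on `X`, modulo
the normal closure of the values of the words `R` -/
abbrev RelGrp {C P X ι : Type*} [Group P] (f : C → P) (R : ι → FreeGroup (C ⊕ X)) : Type _ :=
  Monoid.Coprod P (FreeGroup X) ⧸ Subgroup.normalClosure (Set.range fun i => rval f (R i))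

/-- the words of the multiplication table of `B` and the relators `R`, in the letters `B` and `X` -/
noncomputable def vrel {B X ι : Type*} [Group B] (R : ι → FreeGroup (B ⊕ X)) :
    (B × B) ⊕ ι → List ((B ⊕ X) × Bool)
  | Sum.inl p => [(Sum.inl p.1, true), (Sum.inl p.2, true), (Sum.inl (p.1 * p.2), false)]
  | Sum.inr i => (R i).toWord

end Pool.Agent.LIA
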