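import Pool.Agent.Lib.TwLI.Defs

/-!
# TCard : an acyclic graph has enough closed relator walks

`E = ↥Γ.F`. For a closed relator walk `(v, z)` let `ℓ (v, z) : (E → ℚ) →ₗ[ℚ] ℚ` be the sum of the cochain (extended by
zero) along it (linear: `trSum_add`, `trSum_smul`). The set `T` of these functionals spans a
finite dimensional space; choose `b ⊆ T` linearly independent with the same span
(`exists_linearIndependent`), finite, and for each member of `b` one pair `(v, z)`: this is `P`, with
`P.card = b.card`. If `c` is killed by `b`, it is killed by `T`, so by `hA` it is a coboundary. Dimension count as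
`dim_count` in `Lib/MP_cf50d6_gt/Core.lean` (private, copy it): `E.card + 1 ≤ card V + P.card` (the kernel of the
map `(E → ℚ) → (P → ℚ)` is contained in the range of the coboundary map of `V → ℚ`, whose kernel contains
the constants).
-/

set_option autoImplicit false

open scoped Classical

namespace Pool.Agent.LIA

universe u

/-- dimension count -/
private theorem TCard_dim {V : Type*} [Fintype V] {E P : Type*} [Fintype E] [Fintype P]
    (R : (E → ℚ) →ₗ[ℚ] (P → ℚ)) (s t : E → V) (o : V)
    (h : ∀ c, R c = 0 → ∃ f : V → ℚ, ∀ e, c e = f (t e) - f (s e)) :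
    Fintype.card E + 1 ≤ Fintype.card V + Fintype.card P := by
  let δ : (V → ℚ) →ₗ[ℚ] (E → ℚ) :=
    { toFun := fun f e => f (t e) - f (s e)
      map_add' := by
        intro f g
        ext e
        simp only [Pi.add_apply]
        ring
      map_smul' := by
        intro a f
        ext e
        simp only [Pi.smul_apply, smul_eq_mul, RingHom.id_apply]
        ring }
  have h1 := LinearMap.finrank_range_add_finrank_ker R
  have h2 := LinearMap.finrank_range_add_finrank_ker δ
  rw [Module.finrank_pi] at h1 h2
  have h3 : Module.finrank ℚ (LinearMap.range R) ≤ Fintype.card P := by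
    have := Submodule.finrank_le (LinearMap.range R)
    rwa [Module.finrank_pi] at this
  have h4 : Module.finrank ℚ (LinearMap.ker R) ≤ Module.finrank ℚ (LinearMap.range δ) := by
    apply Submodule.finrank_mono
    intro c hc
    obtain ⟨f, hf⟩ := h c (LinearMap.mem_ker.1 hc)
    refine ⟨f, ?_⟩
    ext e
    exact (hf e).symm
  have h5 : 0 < Module.finrank ℚ (LinearMap.ker δ) := by
    rw [Module.finrank_pos_iff]
    refine ⟨⟨⟨fun _ => 1, ?_⟩, 0, ?_⟩⟩
    · rw [LinearMap.mem_ker]
      ext e
      simp [δ]
    · intro h0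
      have h6 := congrArg (fun z : LinearMap.ker δ => z.1 o) h0
      simp at h6
  omega

/-- extension by zero -/
private noncomputable def TCard_ext {V S : Type*} (Γ : LG V S) (c : ↥Γ.F → ℚ) (e : V × S × V) :
    ℚ := if h : e ∈ Γ.F then c ⟨e, h⟩ else 0

/-- the sum along a word as a functional -/
private noncomputable def TCard_fun {V S Z : Type*} (Γ : LG V S) (rel : Z → List (S × Bool))
    (p : V × Z) : (↥Γ.F → ℚ) →ₗ[ℚ] ℚ where
  toFun c := Γ.trSum (TCard_ext Γ c) p.1 (rel p.2)
  map_add' := by
    intro a b
    have h : TCard_ext Γ (a + b) = fun e => TCard_ext Γ a e + TCard_ext Γ b e := by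
      funext e
      by_cases he : e ∈ Γ.F
      · simp [TCard_ext, he]
      · simp [TCard_ext, he]
    rw [h, LG.trSum_add]
  map_smul' := by
    intro r a
    have h : TCard_ext Γ (r • a) = fun e => r * TCard_ext Γ a e := by
      funext e
      by_cases he : e ∈ Γ.F
      · simp [TCard_ext, he]
      · simp [TCard_ext, he]
    rw [h, LG.trSum_smul]
    rfl

namespace LG

theorem Acy.card {V S Z : Type*} [Fintype V] {Γ : LG V S} {rel : Z → List (S × Bool)}
    (hA : Γ.Acy rel) (o : V) :
    ∃ P : Finset (V × Z), (∀ p ∈ P, Γ.Walk p.1 (rel p.2) p.1) ∧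
      Γ.F.card + 1 ≤ Fintype.card V + P.card := by
  let T : Set ((↥Γ.F → ℚ) →ₗ[ℚ] ℚ) :=
    {f | ∃ p : V × Z, Γ.Walk p.1 (rel p.2) p.1 ∧ f = TCard_fun Γ rel p}
  obtain ⟨b, hbT, hspan, hli⟩ := exists_linearIndependent ℚ T
  have hbfin : b.Finite := hli.setFinite
  have hch : ∀ f : ↥b, ∃ p : V × Z, Γ.Walk p.1 (rel p.2) p.1 ∧ f.1 = TCard_fun Γ rel p :=
    fun f => hbT f.2
  choose q hq1 hq2 using hch
  have : Fintype ↥b := hbfin.fintype
  refine ⟨Finset.univ.image q, ?_, ?_⟩
  · intro p hp
    obtain ⟨f, -, rfl⟩ := Finset.mem_image.1 hp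
    exact hq1 f
  · have hcount := TCard_dim (V := V) (E := ↥Γ.F) (P := ↥(Finset.univ.image q))
      (LinearMap.pi fun p => TCard_fun Γ rel p.1) (fun e => e.1.1) (fun e => e.1.2.2) o ?_
    · rw [Fintype.card_coe, Fintype.card_coe] at hcount
      exact hcount
    · intro c hc
      have hb0 : ∀ f ∈ b, f c = 0 := by
        intro f hf
        have h1 := congrFun hc ⟨q ⟨f, hf⟩, Finset.mem_image.2 ⟨⟨f, hf⟩, Finset.mem_univ _, rfl⟩⟩
        rw [LinearMap.pi_apply] at h1
        have h2 := hq2 ⟨f, hf⟩
        simp only at h2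
        rw [h2]
        exact h1
      have hT0 : ∀ f ∈ T, f c = 0 := by
        intro f hf
        have h1 : f ∈ Submodule.span ℚ b := by
          rw [hspan]
          exact Submodule.subset_span hf
        refine Submodule.span_induction (p := fun g _ => g c = 0) ?_ ?_ ?_ ?_ h1
        · intro g hg
          exact hb0 g hg
        · rfl
        · intro g g' _ _ hg hg'
          rw [LinearMap.add_apply, hg, hg', add_zero]
        · intro r g _ hg
          rw [LinearMap.smul_apply, hg, smul_zero]
      obtain ⟨h, hh⟩ := hA (TCard_ext Γ c) (fun v z hvz => hT0 _ ⟨(v, z), hvz, rfl⟩)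
      refine ⟨h, ?_⟩
      rintro ⟨⟨u, s, v⟩, he⟩
      have h1 := hh u s v he
      rw [TCard_ext, dif_pos he] at h1
      exact h1

end LG

end Pool.Agent.LIA
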