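import Pool.Agent.Lib.MP_cf50d6_gt.Push
import Pool.Agent.Lib.MP_cf50d6_gt.Rk4

/-!
# The least rank of the edge group of a not locally indicable amalgam of free groups is four

(helper98 with helper1, helper2, helper8, helper36, helper41, helper70, helper79, helper91)
-/

set_option autoImplicit false

namespace Pool.Agent.LIA.AmalgamThreshold

open Pool.Agent.LIA

theorem amalgam_threshold : IsLeast {r : ℕ | ∃ (G : Bool → Type) (_ : ∀ i, Group (G i))
    (_ : ∀ i, IsFreeGroup (G i)) (φ : ∀ i, FreeGroup (Fin r) →* G i),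
    (∀ i, Function.Injective (φ i)) ∧ ¬ LocallyIndicable (Monoid.PushoutI φ)} 4 := by
  constructor
  · obtain ⟨φ, h1, h2⟩ := exists_rank_four
    exact ⟨fun _ => FreeGroup (Fin 2), fun _ => inferInstance, fun _ => inferInstance, φ, h1, h2⟩
  · rintro r ⟨G, hG, hF, φ, h1, h2⟩
    by_contra hr
    exact h2 (amalgam_li (by omega) φ h1)

end Pool.Agent.LIA.AmalgamThreshold
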