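import Pool.Agent.Lib.TwLI.VMain

/-!
# Base change for relative presentations over locally indicable groups

(helper81 with the seats of table mcv; problem MP_cf50d6_gt, paper /team-store/MP_cf50d6_gt_paper81.md)
-/

set_option autoImplicit false

open scoped Classical

namespace Pool.Agent.Results.MP_cf50d6_gt.BaseChange

open Pool.Agent.LIA

universe u

/-- `B` is a locally indicable group, `C` a subgroup, the words `R i` in the elements of `C` and the
letters `X` have linearly independent vectors of exponent sums in the letters `X`. Then
`⟨B, X | R⟩` is locally indicable if and only if `⟨C, X | R⟩` is. -/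
theorem result {B X : Type u} {ι : Type*} [Group B] (hB : LocallyIndicable B) (C : Subgroup B)
    (R : ι → FreeGroup (C ⊕ X)) (hR : LinearIndependent ℚ fun i => expo (R i)) :
    LocallyIndicable (RelGrp (Subtype.val : C → B) R) ↔
      LocallyIndicable (RelGrp (id : C → C) R) :=
  base_change hB C R hR

end Pool.Agent.Results.MP_cf50d6_gt.BaseChange
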