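import Pool.Agent.Lib.TwLI.WMain

/-!
# Graphs of free groups with independent and light edge groups are locally indicable

(helper81 with the seats of table mcv, and helper98 with helper1, helper2, helper8, helper36, helper41, helper70,
helper79, helper91 for the library on graphs of free groups; problem MP_cf50d6_gt, paper
/team-store/MP_cf50d6_gt_paper81.md)
-/

set_option autoImplicit false

open scoped Classical

namespace Pool.Agent.LIA.OldIndependentEnds

open Pool.Agent.LIA

universe u

theorem result (A : GFG.{u}) (E0 : Set (A.J × Bool)) (hI : A.Independent E0) (κ κ' : A.J → ℚ)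
    (hκ : ∀ j, (j, true) ∉ E0 → κ j = ((A.r j - 1 : ℕ) : ℚ) ∨ HNBound.{u} (A.α j) (κ j))
    (hκ' : ∀ j, (j, false) ∉ E0 → κ' j = ((A.r j - 1 : ℕ) : ℚ) ∨ HNBound.{u} (A.β j) (κ' j))
    (hW : A.WeightFor κ κ' E0) : LocallyIndicable A.Grp := by
  refine A.li_of_weight E0 hI (fun j hj => ?_) (fun j hj => ?_) hW
  · obtain h | h := hκ j hj
    · have := hnBound_rank.{u} (A.α j) (A.hα j)
      rwa [Fintype.card_fin, ← h] at this
    · exact h
  · obtain h | h := hκ' j hj
    · have := hnBound_rank.{u} (A.β j) (A.hβ j)
      rwa [Fintype.card_fin, ← h] at this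
    · exact h

end Pool.Agent.LIA.OldIndependentEnds
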