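import Pool.Agent.Lib.TwLI.Defs

/-!
# TBase : the first state of the tower, one vertex

`Δ` has the one vertex `()` and the edges `((), s, ())` for the labels `s` of the edges of `Γ` (the image of
`Γ.F`). For a word `L` readable in `Δ` the sum of the cochain `fun e => g e.2.1` is `lsum g L` (induction
on `L`). Given the target `t`, take `g` from `hd (t ())`.
-/

set_option autoImplicit false

open scoped Classical

namespace Pool.Agent.LIA

universe u

namespace LG

private theorem trSum_lab {V S : Type*} (Δ : LG V S) (g : S → ℚ) (L : List (S × Bool)) :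
    ∀ u v : V, Δ.Walk u L v → Δ.trSum (fun e => g e.2.1) u L = lsum g L := by
  induction L with
  | nil =>
    intro u v _
    rw [trSum_nil]
    rfl
  | cons l L ih =>
    intro u v h
    obtain ⟨x, hx, hw⟩ := h
    rw [trSum_cons Δ _ L hx, ih x v hw]
    rfl

theorem exists_base {V S K : Type*} (Γ : LG V S) (S0 : Set S) (a : K → List (S × Bool))
    (hd : ∀ t : K → ℚ, ∃ g : S → ℚ, (∀ s, s ∉ S0 → g s = 0) ∧ ∀ k, lsum g (a k) = t k) :
    ∃ Δ : LG PUnit.{u + 1} S, Γ.IsImg (fun _ => PUnit.unit) Δ ∧ Δ.Sur S0 a := by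
  refine ⟨⟨Γ.F.image (fun e => (PUnit.unit, e.2.1, PUnit.unit)), fun _ _ => rfl, fun _ _ => rfl⟩,
    ?_, ?_⟩
  · intro e
    simp only [Finset.mem_image]
    constructor
    · rintro ⟨⟨x, s, y⟩, h, rfl⟩
      exact ⟨x, s, y, h, rfl⟩
    · rintro ⟨x, s, y, h, rfl⟩
      exact ⟨(x, s, y), h, rfl⟩
  · intro t
    obtain ⟨g, hg0, hg⟩ := hd (t PUnit.unit)
    refine ⟨fun e => g e.2.1, fun _ s _ hs => hg0 s hs, ?_⟩
    rintro w k ⟨v, hv⟩
    rw [trSum_lab _ g (a k) w v hv, hg k]

end LG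

end Pool.Agent.LIA
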