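import Pool.Agent.Lib.TwLI.Defs

/-!
# TCore : a finite graph which carries finitely many words, cohomological form

This is `core_gen` of `Lib/MP_cf50d6_gt/Core.lean` (lines 1-440; please copy the file and change the last
part), with the conclusion on the number of the edges replaced by the statement which is proved
there on the way: a cochain `c` with `Γ.trSum c (v i) (r i) = 0` for all `i` is a coboundary.
(In `Core.lean` the sums are written with the private linear maps `cwl` and `CX`; for a walk of the graph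
`CG J P hP` from `x` they agree with `trSum`, by induction on the word.)
-/

set_option autoImplicit false

open scoped Classical

namespace Pool.Agent.LIA

universe u

section cocsum

variable {S X : Type*} [MulAction (FreeGroup S) X]

/-- evaluation of a cochain at an edge -/
private def cev (x : X) (s : S) : (X → S → ℚ) →ₗ[ℚ] ℚ :=
  (LinearMap.proj s : (S → ℚ) →ₗ[ℚ] ℚ).comp
    (LinearMap.proj x : (X → S → ℚ) →ₗ[ℚ] (S → ℚ))

omit [MulAction (FreeGroup S) X] in
private theorem cev_apply (x : X) (s : S) (c : X → S → ℚ) : cev x s c = c x s := rfl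

/-- the sum of a cochain along a word -/
private noncomputable def cwl : List (S × Bool) → X → ((X → S → ℚ) →ₗ[ℚ] ℚ)
  | [], _ => 0
  | l :: L, x => (if l.2 then cev x l.1 else -cev (FreeGroup.of l.1 • x) l.1) +
      cwl L ((lv l)⁻¹ • x)

variable (κ : FreeGroup S → X → ℚ)
  (hκ : ∀ g h x, κ (g * h) x = κ g x + κ h (MulAction.toPermHom (FreeGroup S) X g⁻¹ x))

include hκ

private theorem coc_mul (g h : FreeGroup S) (x : X) : κ (g * h) x = κ g x + κ h (g⁻¹ • x) :=
  hκ g h x

private theorem coc_one (x : X) : κ 1 x = 0 := by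
  have h := coc_mul κ hκ 1 1 x
  rw [one_mul, inv_one, one_smul] at h
  linarith

private theorem coc_inv (g : FreeGroup S) (x : X) : κ g⁻¹ x = -κ g (g • x) := by
  have h := coc_mul κ hκ g⁻¹ g x
  rw [inv_mul_cancel, coc_one κ hκ, inv_inv] at h
  linarith

private theorem coc_eq_cwl (c : X → S → ℚ) (hc : ∀ s x, κ (FreeGroup.of s) x = c x s)
    (L : List (S × Bool)) (x : X) : κ (FreeGroup.mk L) x = cwl L x c := by
  induction L generalizing x with
  | nil =>
    rw [← FreeGroup.one_eq_mk, coc_one κ hκ]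
    simp [cwl]
  | cons l L ih =>
    rw [mk_cons, coc_mul κ hκ, ih]
    obtain ⟨s, b⟩ := l
    cases b
    · rw [lv_false, coc_inv κ hκ, hc]
      simp [cwl, cev_apply]
    · rw [lv_true, hc]
      simp [cwl, cev_apply]

end cocsum

section graph

variable {S : Type u} (J : Subgroup (FreeGroup S)) (P : Set (List (S × Bool)))

/-- the coset reached after the word with value `g` -/
private def cpt (g : FreeGroup S) : FreeGroup S ⧸ J := QuotientGroup.mk g⁻¹

private theorem cpt_mul (g h : FreeGroup S) : cpt J (g * h) = h⁻¹ • cpt J g := by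
  unfold cpt
  rw [mul_inv_rev]
  rfl

private theorem cpt_one : cpt J 1 = QuotientGroup.mk 1 := by
  unfold cpt
  rw [inv_one]

private theorem cpt_eq (g h : FreeGroup S) : cpt J g = cpt J h ↔ g * h⁻¹ ∈ J := by
  unfold cpt
  rw [QuotientGroup.eq, inv_inv]

/-- the vertices -/
private abbrev CV : Type u := ↥((fun L => cpt J (FreeGroup.mk L)) '' insert [] P)

/-- the vertex of a word -/
private noncomputable def cvt (L : List (S × Bool)) : CV J P :=
  if h : L ∈ P then ⟨cpt J (FreeGroup.mk L), L, Or.inr h, rfl⟩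
  else ⟨cpt J (FreeGroup.mk []), [], Or.inl rfl, rfl⟩

private theorem cvt_val {L : List (S × Bool)} (h : L ∈ insert [] P) :
    (cvt J P L).1 = cpt J (FreeGroup.mk L) := by
  unfold cvt
  split_ifs with h1
  · rfl
  · rcases h with rfl | h
    · rfl
    · exact absurd h h1

/-- the set of the edges -/
private def CE : Set (CV J P × S × CV J P) :=
  {e | ∃ L l, L ++ [l] ∈ P ∧ e.2.1 = l.1 ∧
    ((l.2 = true ∧ e.1.1 = cpt J (FreeGroup.mk L) ∧ e.2.2.1 = cpt J (FreeGroup.mk (L ++ [l]))) ∨
    (l.2 = false ∧ e.2.2.1 = cpt J (FreeGroup.mk L) ∧ e.1.1 = cpt J (FreeGroup.mk (L ++ [l]))))}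

private theorem CE_rel {x y : CV J P} {s : S} (h : (x, s, y) ∈ CE J P) :
    y.1 = (FreeGroup.of s)⁻¹ • x.1 := by
  obtain ⟨L, ⟨a, b⟩, -, h1, h2 | h2⟩ := h
  · obtain ⟨h3, h4, h5⟩ := h2
    simp only at h1 h3 h4 h5
    subst h1 h3
    rw [h5, h4, mk_append, cpt_mul]
    rfl
  · obtain ⟨h3, h4, h5⟩ := h2
    simp only at h1 h3 h4 h5
    subst h1 h3
    rw [h5, h4, mk_append, cpt_mul]
    have h6 : FreeGroup.mk [(s, false)] = (FreeGroup.of s)⁻¹ := lv_false s
    rw [h6, inv_inv, inv_smul_smul]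

private theorem CE_finite (hP : P.Finite) : (CE J P).Finite := by
  have h1 : (insert [] P).Finite := hP.insert []
  have h2 : Finite (CV J P) := (h1.image _).to_subtype
  have h3 : ((fun L : List (S × Bool) => L.getLast?.map Prod.fst) '' P).Finite := hP.image _
  have h4 := h3.preimage (Option.some_injective S).injOn
  refine ((Set.finite_univ (α := CV J P)).prod (h4.prod (Set.finite_univ (α := CV J P)))).subset ?_
  rintro ⟨x, s, y⟩ ⟨L, l, hL, h5, -⟩
  refine ⟨Set.mem_univ _, ?_, Set.mem_univ _⟩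
  refine ⟨_, hL, ?_⟩
  simp only at h5
  simp [h5]

/-- the graph -/
private noncomputable def CG (hP : P.Finite) : LG (CV J P) S where
  F := (CE_finite J P hP).toFinset
  det := by
    intro x s y y' h h'
    rw [Set.Finite.mem_toFinset] at h h'
    apply Subtype.ext
    rw [CE_rel J P h, CE_rel J P h']
  cod := by
    intro x x' s y h h'
    rw [Set.Finite.mem_toFinset] at h h'
    apply Subtype.ext
    have h1 := CE_rel J P h
    rw [CE_rel J P h', smul_left_cancel_iff] at h1
    exact h1.symm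

variable (hP : P.Finite)

private theorem mem_CG {e : CV J P × S × CV J P} : e ∈ (CG J P hP).F ↔ e ∈ CE J P :=
  Set.Finite.mem_toFinset _

private theorem CG_step_val {x y : CV J P} {l : S × Bool} (h : (CG J P hP).Step x l y) :
    y.1 = (lv l)⁻¹ • x.1 := by
  obtain ⟨s, b⟩ := l
  cases b
  · rw [LG.step_false, mem_CG] at h
    rw [CE_rel J P h, lv_false, inv_inv, smul_inv_smul]
  · rw [LG.step_true, mem_CG] at h
    rw [CE_rel J P h, lv_true]

private theorem CG_walk_val {x y : CV J P} {L : List (S × Bool)} (h : (CG J P hP).Walk x L y) :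
    y.1 = (FreeGroup.mk L)⁻¹ • x.1 := by
  induction L generalizing x with
  | nil =>
    obtain rfl := LG.walk_nil.1 h
    rw [← FreeGroup.one_eq_mk, inv_one, one_smul]
  | cons l L ih =>
    obtain ⟨z, h1, h2⟩ := LG.walk_cons.1 h
    rw [ih h2, CG_step_val J P hP h1, mk_cons, mul_inv_rev, mul_smul]

variable (hpre : ∀ L M, L ++ M ∈ P → L ∈ P)

include hpre

private theorem CG_step {L : List (S × Bool)} {l : S × Bool} (h : L ++ [l] ∈ P) :
    (CG J P hP).Step (cvt J P L) l (cvt J P (L ++ [l])) := by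
  have h1 : (cvt J P L).1 = cpt J (FreeGroup.mk L) := cvt_val J P (Or.inr (hpre _ _ h))
  have h2 : (cvt J P (L ++ [l])).1 = cpt J (FreeGroup.mk (L ++ [l])) := cvt_val J P (Or.inr h)
  obtain ⟨s, b⟩ := l
  cases b
  · rw [LG.step_false, mem_CG]
    exact ⟨L, _, h, rfl, Or.inr ⟨rfl, h1, h2⟩⟩
  · rw [LG.step_true, mem_CG]
    exact ⟨L, _, h, rfl, Or.inl ⟨rfl, h1, h2⟩⟩

private theorem CG_walk {M : List (S × Bool)} : ∀ {L : List (S × Bool)}, L ++ M ∈ P →
    (CG J P hP).Walk (cvt J P L) M (cvt J P (L ++ M)) := by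
  induction M with
  | nil =>
    intro L _
    rw [LG.walk_nil, List.append_nil]
  | cons l M ih =>
    intro L h
    have h1 : L ++ [l] ++ M ∈ P := by simpa using h
    refine ⟨cvt J P (L ++ [l]), CG_step J P hP hpre (hpre _ _ h1), ?_⟩
    have h2 := ih h1
    simpa using h2

private theorem CG_walk_nil {M : List (S × Bool)} (h : M ∈ insert [] P) :
    (CG J P hP).Walk (cvt J P []) M (cvt J P M) := by
  rcases h with rfl | h
  · exact rfl
  · exact CG_walk J P hP hpre (L := []) h

private theorem CG_conn (x : CV J P) : (CG J P hP).Conn (cvt J P []) x := by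
  obtain ⟨x, L, hL, rfl⟩ := x
  refine ⟨L, ?_⟩
  have h1 := CG_walk_nil J P hP hpre hL
  have h2 : (⟨cpt J (FreeGroup.mk L), L, hL, rfl⟩ : CV J P) = cvt J P L :=
    Subtype.ext (cvt_val J P hL).symm
  exact h2 ▸ h1

omit hpre

/-- extension of a cochain of the graph by zero -/
private noncomputable def CX : (↥(CG J P hP).F → ℚ) →ₗ[ℚ] (FreeGroup S ⧸ J → S → ℚ) :=
  LinearMap.pi fun x => LinearMap.pi fun s =>
    ∑ e : ↥(CG J P hP).F, if e.1.1.1 = x ∧ e.1.2.1 = s then LinearMap.proj e else 0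

private theorem CX_apply (c : ↥(CG J P hP).F → ℚ) (e : ↥(CG J P hP).F) :
    CX J P hP c e.1.1.1 e.1.2.1 = c e := by
  unfold CX
  simp only [LinearMap.pi_apply, LinearMap.sum_apply]
  rw [Finset.sum_eq_single e]
  · simp
  · intro e' _ hne
    rw [if_neg]
    · rfl
    · rintro ⟨h1, h2⟩
      apply hne
      obtain ⟨⟨x, s, y⟩, he⟩ := e
      obtain ⟨⟨x', s', y'⟩, he'⟩ := e'
      simp only at h1 h2
      obtain rfl : x' = x := Subtype.ext h1
      subst h2
      obtain rfl := (CG J P hP).det he he'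
      rfl
  · intro h
    exact absurd (Finset.mem_univ _) h

private theorem cwl_trSum (c : CV J P × S × CV J P → ℚ) (L : List (S × Bool)) :
    ∀ x y : CV J P, (CG J P hP).Walk x L y →
      cwl L x.1 (CX J P hP fun e => c e.1) = (CG J P hP).trSum c x L := by
  induction L with
  | nil =>
    intro x y _
    rw [LG.trSum_nil]
    simp [cwl]
  | cons l L ih =>
    intro x y h
    obtain ⟨z, h1, h2⟩ := LG.walk_cons.1 h
    have h3 := CG_step_val J P hP h1
    rw [LG.trSum_cons _ _ _ h1, ← ih z y h2]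
    obtain ⟨s, b⟩ := l
    cases b
    · have h4 : (z, s, x) ∈ (CG J P hP).F := LG.step_false.1 h1
      have h5 := CX_apply J P hP (fun e => c e.1) ⟨(z, s, x), h4⟩
      have h6 : z.1 = FreeGroup.of s • x.1 := by rw [h3, lv_false, inv_inv]
      simp only at h5
      simp only [cwl, LinearMap.add_apply, LinearMap.neg_apply, cev_apply, Bool.false_eq_true,
        if_false]
      rw [← h3, ← h6, h5]
    · have h4 : (x, s, z) ∈ (CG J P hP).F := LG.step_true.1 h1
      have h5 := CX_apply J P hP (fun e => c e.1) ⟨(x, s, z), h4⟩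
      simp only at h5
      simp only [cwl, LinearMap.add_apply, cev_apply, if_true]
      rw [← h3, h5]

end graph

theorem core_acy {S : Type u} {ι κ : Type*} [Finite ι] [Finite κ] (J : Subgroup (FreeGroup S))
    (u r : ι → List (S × Bool)) (h : κ → List (S × Bool))
    (hr : ∀ i, FreeGroup.mk (u i ++ r i ++ FreeGroup.invRev (u i)) ∈ J)
    (hh : ∀ k, FreeGroup.mk (h k) ∈ J)
    (H : ∀ ψ : FreeGroup S → ℚ, (∀ a ∈ J, ∀ b ∈ J, ψ (a * b) = ψ a + ψ b) →
      (∀ i, ψ (FreeGroup.mk (u i ++ r i ++ FreeGroup.invRev (u i))) = 0) → ∀ a ∈ J, ψ a = 0) :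
    ∃ (V : Type u) (_ : Fintype V) (Γ : LG V S) (o : V) (v : ι → V),
      (∀ x, Γ.Conn o x) ∧ (∀ i, Γ.Walk (v i) (r i) (v i)) ∧ (∀ k, Γ.Walk o (h k) o) ∧
      ∀ c : V × S × V → ℚ, (∀ i, Γ.trSum c (v i) (r i) = 0) →
        ∃ f : V → ℚ, ∀ x s y, (x, s, y) ∈ Γ.F → c (x, s, y) = f y - f x := by
  set P : Set (List (S × Bool)) := (⋃ i, {L | L <+: u i ++ r i}) ∪ ⋃ k, {L | L <+: h k} with hPdef
  have hinit : ∀ W : List (S × Bool), {L | L <+: W}.Finite := by
    intro W
    refine (List.finite_toSet W.inits).subset ?_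
    intro L hL
    exact (List.mem_inits _ _).2 hL
  have hP : P.Finite :=
    (Set.finite_iUnion fun i => hinit _).union (Set.finite_iUnion fun k => hinit _)
  have hpre : ∀ L M, L ++ M ∈ P → L ∈ P := by
    intro L M hLM
    rcases hLM with hLM | hLM
    · left
      obtain ⟨i, hi⟩ := Set.mem_iUnion.1 hLM
      exact Set.mem_iUnion.2 ⟨i, (List.prefix_append L M).trans hi⟩
    · right
      obtain ⟨i, hi⟩ := Set.mem_iUnion.1 hLM
      exact Set.mem_iUnion.2 ⟨i, (List.prefix_append L M).trans hi⟩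
  have hur : ∀ i, u i ++ r i ∈ P := fun i => Or.inl (Set.mem_iUnion.2 ⟨i, List.prefix_refl _⟩)
  have hu : ∀ i, u i ∈ P := fun i => hpre _ _ (hur i)
  have hhk : ∀ k, h k ∈ P := fun k => Or.inr (Set.mem_iUnion.2 ⟨k, List.prefix_refl _⟩)
  have hfin : Finite (CV J P) := ((hP.insert []).image _).to_subtype
  let hft : Fintype (CV J P) := Fintype.ofFinite _
  have hmk : ∀ i, FreeGroup.mk (u i ++ r i ++ FreeGroup.invRev (u i)) =
      FreeGroup.mk (u i) * FreeGroup.mk (r i) * (FreeGroup.mk (u i))⁻¹ := by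
    intro i
    rw [mk_append, mk_append, FreeGroup.inv_mk]
  have hclose : ∀ i, cvt J P (u i ++ r i) = cvt J P (u i) := by
    intro i
    apply Subtype.ext
    rw [cvt_val J P (Or.inr (hur i)), cvt_val J P (Or.inr (hu i)), cpt_eq, mk_append]
    have h1 := hr i
    rwa [hmk] at h1
  refine ⟨CV J P, hft, CG J P hP, cvt J P [], fun i => cvt J P (u i), CG_conn J P hP hpre,
    ?_, ?_, ?_⟩
  · intro i
    have h1 := CG_walk J P hP hpre (hur i)
    rwa [hclose i] at h1
  · intro k
    have h1 := CG_walk_nil J P hP hpre (M := h k) (Or.inr (hhk k))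
    have h2 : cvt J P (h k) = cvt J P [] := by
      apply Subtype.ext
      rw [cvt_val J P (Or.inr (hhk k)), cvt_val J P (Or.inl rfl), cpt_eq, ← FreeGroup.one_eq_mk,
        inv_one, mul_one]
      exact hh k
    rwa [h2] at h1
  · intro c hc0
    have hc : ∀ i, cwl (r i) (cvt J P (u i)).1 (CX J P hP fun e => c e.1) = 0 := by
      intro i
      have h1 := CG_walk J P hP hpre (hur i)
      rw [hclose i] at h1
      rw [cwl_trSum J P hP c (r i) _ _ h1]
      exact hc0 i
    obtain ⟨κ', hκ, hκc⟩ := exists_coc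
      (MulAction.toPermHom (FreeGroup S) (FreeGroup S ⧸ J)) (CX J P hP fun e => c e.1)
    set o : FreeGroup S ⧸ J := QuotientGroup.mk 1 with ho
    have hJ : ∀ a ∈ J, a⁻¹ • o = o := by
      intro a ha
      show (QuotientGroup.mk (a⁻¹ * 1) : FreeGroup S ⧸ J) = _
      rw [QuotientGroup.eq]
      simpa using ha
    have hadd : ∀ a ∈ J, ∀ b, κ' (a * b) o = κ' a o + κ' b o := by
      intro a ha b
      rw [coc_mul κ' hκ, hJ a ha]
    have hzero := H (fun g => κ' g o) (fun a ha b _ => hadd a ha b) ?_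
    · refine ⟨fun x => κ' (Quotient.out x.1)⁻¹ o, ?_⟩
      have key : ∀ (g : FreeGroup S) (x : FreeGroup S ⧸ J), x = cpt J g →
          κ' (Quotient.out x)⁻¹ o = κ' g o := by
        intro g x hx
        have h2 : (QuotientGroup.mk (Quotient.out x) : FreeGroup S ⧸ J) =
          QuotientGroup.mk g⁻¹ := by
          rw [QuotientGroup.out_eq']
          exact hx
        rw [QuotientGroup.eq] at h2
        have h3 : (Quotient.out x)⁻¹ = ((Quotient.out x)⁻¹ * g⁻¹) * g := by simp
        rw [h3, hadd _ h2, hzero _ h2, zero_add]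
      intro x s y he
      have h2 := CX_apply J P hP (fun e => c e.1) ⟨(x, s, y), he⟩
      simp only at h2 ⊢
      rw [← h2, ← hκc]
      have h3 : y.1 = (FreeGroup.of s)⁻¹ • x.1 := CE_rel J P ((mem_CG J P hP).1 he)
      have h4 : x.1 = cpt J (Quotient.out x.1)⁻¹ := by
        unfold cpt
        rw [inv_inv, QuotientGroup.out_eq']
      have h5 : y.1 = cpt J ((Quotient.out x.1)⁻¹ * FreeGroup.of s) := by
        rw [cpt_mul, ← h4, h3]
      rw [key _ _ h5, coc_mul κ' hκ]
      have h6 : (Quotient.out x.1)⁻¹⁻¹ • o = x.1 := by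
        rw [inv_inv]
        show (QuotientGroup.mk (Quotient.out x.1 * 1) : FreeGroup S ⧸ J) = _
        rw [mul_one, QuotientGroup.out_eq']
      rw [h6]
      ring
    · intro i
      show κ' (FreeGroup.mk (u i ++ r i ++ FreeGroup.invRev (u i))) o = 0
      rw [hmk, mul_assoc, coc_mul κ' hκ, coc_mul κ' hκ, coc_inv κ' hκ]
      have h2 : cpt J (FreeGroup.mk (u i)) = (FreeGroup.mk (u i))⁻¹ • o := by
        show _ = (QuotientGroup.mk ((FreeGroup.mk (u i))⁻¹ * 1) : FreeGroup S ⧸ J)
        rw [mul_one]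
        rfl
      have h3 : (cvt J P (u i)).1 = (FreeGroup.mk (u i))⁻¹ • o := by
        rw [cvt_val J P (Or.inr (hu i)), h2]
      have h4 := hc i
      have h5 : κ' (FreeGroup.mk (r i)) ((FreeGroup.mk (u i))⁻¹ • o) = 0 := by
        rw [coc_eq_cwl κ' hκ _ hκc, ← h3]
        exact h4
      have h6 : FreeGroup.mk (u i) • (FreeGroup.mk (r i))⁻¹ • (FreeGroup.mk (u i))⁻¹ • o = o := by
        have h7 := hJ _ (hr i)
        rw [hmk] at h7
        rw [mul_inv_rev, mul_inv_rev, inv_inv, mul_smul, mul_smul] at h7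
        exact h7
      rw [h5, h6]
      ring

end Pool.Agent.LIA
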