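import Pool.Agent.Lib.TwLI.Defs

/-!
# TImg : images of graphs

`IsImg Γ p Δ` says that the edges of `Δ` are the images of the edges of `Γ`. Steps and walks are mapped
to steps and walks (induction on the word), and the sum of the pulled back cochain along a walk of
`Γ` is the sum of the cochain along the image walk (induction on the word with `trSum_cons`).
-/

set_option autoImplicit false

open scoped Classical

namespace Pool.Agent.LIA

universe u

namespace LG

variable {V W S : Type*} {Γ : LG V S} {p : V → W} {Δ : LG W S}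

theorem IsImg.step (h : Γ.IsImg p Δ) {u v : V} {l : S × Bool} (hs : Γ.Step u l v) :
    Δ.Step (p u) l (p v) := by
  unfold Step at hs ⊢
  by_cases hl : l.2 = true
  · rw [if_pos hl] at hs ⊢
    exact (h _).2 ⟨u, l.1, v, hs, rfl⟩
  · rw [if_neg hl] at hs ⊢
    exact (h _).2 ⟨v, l.1, u, hs, rfl⟩

theorem IsImg.walk (h : Γ.IsImg p Δ) {u v : V} {L : List (S × Bool)} (hw : Γ.Walk u L v) :
    Δ.Walk (p u) L (p v) := by
  induction L generalizing u with
  | nil =>
    have h1 : u = v := hw
    show p u = p v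
    rw [h1]
  | cons l L ih =>
    obtain ⟨x, hx, hx2⟩ := hw
    exact ⟨p x, h.step hx, ih hx2⟩

theorem IsImg.conn (h : Γ.IsImg p Δ) {u v : V} (hw : Γ.Conn u v) : Δ.Conn (p u) (p v) := by
  obtain ⟨L, hL⟩ := hw
  exact ⟨L, h.walk hL⟩

theorem IsImg.trSum (h : Γ.IsImg p Δ) (c : W × S × W → ℚ) {u v : V} {L : List (S × Bool)}
    (hw : Γ.Walk u L v) :
    Γ.trSum (fun e => c (p e.1, e.2.1, p e.2.2)) u L = Δ.trSum c (p u) L := by
  induction L generalizing u with
  | nil => rw [trSum_nil, trSum_nil]
  | cons l L ih =>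
    obtain ⟨x, hx, hx2⟩ := hw
    rw [trSum_cons _ _ L hx, trSum_cons _ _ L (h.step hx), ih hx2]

end LG

end Pool.Agent.LIA
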