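import Pool.Agent.Lib.TwLI.Defs

/-!
# TPoly : sums of `n ^ k * f` in a cover are polynomials in the level

`Δ'` is a graph over `Δ` (map `q` of the vertices) with a level function `lev`, the level changes along
an edge by `c` of the edge of `Δ`. For a cochain `f` of `Δ` consider on `Δ'` the cochain
`(level of the starting point of the edge) ^ k * f`. Its sum along the word `L` read from a vertex `x`
over `w` is the value at `lev x` of a polynomial `P` which depends only on `w` and `L`, has degree at
most `k`, and whose coefficient of `X ^ k` is the sum of `f` along `L` in `Δ`.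

Proof. Induction on `L`, for all `w`. `L = []` : `P = 0`. `L = l :: L'` :
* no step `l` from `w` in `Δ`: then there is no step from `x` in `Δ'`, `L` is not readable, and
  `P = C (Δ.trSum f w L) * X ^ k`;
* `l = (s, true)`, `(w, s, w') ∈ Δ.F`, `a = c (w, s, w')`, `P'` for `w'`, `L'` :
  `P = C (f (w, s, w')) * X ^ k + P'.comp (X + C a)`; a step from `x` leads to `y` with `q y = w'` (`Δ.det`) and
  `lev y = lev x + a`;
* `l = (s, false)`, `(w', s, w) ∈ Δ.F`, `a = c (w', s, w)` : `P = - C (f (w', s, w)) * (X - C a) ^ k +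
  P'.comp (X - C a)`; a step leads to `y` with `(y, s, x) ∈ Δ'.F`, so `lev y = lev x - a`.
Composition with `X + C a` does not raise the degree and does not change the coefficient of `X ^ k` of a
polynomial of degree at most `k` (prove this first: `Polynomial.natDegree_comp_le`, and for the
coefficient write the polynomial as `C b * X ^ k + ` lower, or use `Polynomial.taylor`,
`Polynomial.taylor_coeff`, `Polynomial.hasseDeriv`).
-/

set_option autoImplicit false

open scoped Classical

namespace Pool.Agent.LIA

universe u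

namespace LG

open Polynomial in
private theorem comp_aux (P : ℚ[X]) (k : ℕ) (hP : P.natDegree ≤ k) (a : ℚ) :
    (P.comp (X + C a)).natDegree ≤ k ∧ (P.comp (X + C a)).coeff k = P.coeff k := by
  constructor
  · refine natDegree_comp_le.trans ?_
    rw [natDegree_X_add_C, mul_one]
    exact hP
  · rw [show P.comp (X + C a) = P.eval₂ C (X + C a) from rfl,
      eval₂_eq_sum_range' C (Nat.lt_succ_of_le hP), finsetSum_coeff]
    simp only [coeff_C_mul, coeff_X_add_C_pow]
    rw [Finset.sum_range_succ, Finset.sum_eq_zero, zero_add]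
    · simp
    · intro i hi
      rw [Nat.choose_eq_zero_of_lt (Finset.mem_range.1 hi)]
      simp

open Polynomial in
theorem tpoly {W W' S : Type*} (Δ : LG W S) (Δ' : LG W' S) (q : W' → W) (lev : W' → ℤ)
    (c : W × S × W → ℤ)
    (h : ∀ x s y, (x, s, y) ∈ Δ'.F → (q x, s, q y) ∈ Δ.F ∧ lev y = lev x + c (q x, s, q y))
    (k : ℕ) (f : W × S × W → ℚ) (L : List (S × Bool)) (w : W) :
    ∃ P : ℚ[X], P.natDegree ≤ k ∧ P.coeff k = Δ.trSum f w L ∧
      ∀ x, q x = w → Δ'.Rd x L →
        Δ'.trSum (fun e => (lev e.1 : ℚ) ^ k * f (q e.1, e.2.1, q e.2.2)) x L =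
          P.eval (lev x : ℚ) := by
  have hst : ∀ x l y, Δ'.Step x l y → Δ.Step (q x) l (q y) := by
    rintro x ⟨s, b⟩ y hs
    cases b
    · exact step_false.2 (h _ _ _ (step_false.1 hs)).1
    · exact step_true.2 (h _ _ _ (step_true.1 hs)).1
  induction L generalizing w with
  | nil =>
    refine ⟨0, by simp, by simp [trSum_nil], fun x _ _ => ?_⟩
    simp [trSum_nil]
  | cons l L ih =>
    by_cases hex : ∃ w', Δ.Step w l w'
    · obtain ⟨w', hw'⟩ := hex
      obtain ⟨P', hd, hc, he⟩ := ih w'
      obtain ⟨s, b⟩ := l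
      cases b
      · have hF := step_false.1 hw'
        obtain ⟨hd1, hc1⟩ := comp_aux P' k hd (-(c (w', s, w) : ℚ))
        obtain ⟨hd2, hc2⟩ := comp_aux (X ^ k) k (natDegree_X_pow_le k) (-(c (w', s, w) : ℚ))
        refine ⟨C (-f (w', s, w)) * (X ^ k).comp (X + C (-(c (w', s, w) : ℚ))) +
          P'.comp (X + C (-(c (w', s, w) : ℚ))), ?_, ?_, ?_⟩
        · refine (natDegree_add_le _ _).trans (max_le ?_ hd1)
          exact (natDegree_C_mul_le _ _).trans hd2
        · rw [coeff_add, coeff_C_mul, hc1, hc2, hc, trSum_cons _ _ _ hw']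
          simp
        · rintro x rfl ⟨v, y, hy, hv⟩
          have hy' := step_false.1 hy
          obtain ⟨h1, h2⟩ := h _ _ _ hy'
          obtain rfl : q y = w' := step_det (hst _ _ _ hy) hw'
          have h3 : (lev y : ℚ) = (lev x : ℚ) + -(c (q y, s, q x) : ℚ) := by
            rw [h2]
            push_cast
            ring
          rw [trSum_cons _ _ _ hy, he y rfl ⟨v, hv⟩]
          simp only [eval_add, eval_mul, eval_C, eval_comp, eval_pow, eval_X, Bool.false_eq_true,
            if_false, h3]
          ring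
      · have hF := step_true.1 hw'
        obtain ⟨hd1, hc1⟩ := comp_aux P' k hd (c (w, s, w') : ℚ)
        refine ⟨C (f (w, s, w')) * X ^ k + P'.comp (X + C (c (w, s, w') : ℚ)), ?_, ?_, ?_⟩
        · exact (natDegree_add_le _ _).trans (max_le (natDegree_C_mul_X_pow_le _ _) hd1)
        · rw [coeff_add, coeff_C_mul, hc1, hc, trSum_cons _ _ _ hw']
          simp
        · rintro x rfl ⟨v, y, hy, hv⟩
          have hy' := step_true.1 hy
          obtain ⟨h1, h2⟩ := h _ _ _ hy'
          obtain rfl : q y = w' := step_det (hst _ _ _ hy) hw'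
          have h3 : (lev y : ℚ) = (lev x : ℚ) + (c (q x, s, q y) : ℚ) := by
            rw [h2]
            push_cast
            ring
          rw [trSum_cons _ _ _ hy, he y rfl ⟨v, hv⟩]
          simp only [eval_add, eval_mul, eval_C, eval_comp, eval_pow, eval_X, if_true, h3]
          ring
    · refine ⟨C (Δ.trSum f w (l :: L)) * X ^ k, natDegree_C_mul_X_pow_le _ _, by simp, ?_⟩
      rintro x rfl ⟨v, y, hy, hv⟩
      exact absurd ⟨q y, hst _ _ _ hy⟩ hex

end LG

end Pool.Agent.LIA
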