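import Pool.Agent.Lib.TwLI.TPoly

/-!
# TStep : the property `Sur` goes up to the cover
-/

set_option autoImplicit false

open scoped Classical

namespace Pool.Agent.LIA

universe u

namespace LG

private theorem walk_map {W W' S : Type*} (Δ : LG W S) (Δ' : LG W' S) (q : W' → W)
    (h : ∀ x s y, (x, s, y) ∈ Δ'.F → (q x, s, q y) ∈ Δ.F) (L : List (S × Bool)) (x y : W')
    (hw : Δ'.Walk x L y) : Δ.Walk (q x) L (q y) := by
  induction L generalizing x with
  | nil =>
    have : x = y := hw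
    subst this
    exact rfl
  | cons l L ih =>
    obtain ⟨v, hv, hL⟩ := hw
    refine ⟨q v, ?_, ih v hL⟩
    unfold Step at hv ⊢
    split_ifs at hv ⊢ with hl
    · exact h _ _ _ hv
    · exact h _ _ _ hv

private theorem trSum_zero' {W S : Type*} (Δ : LG W S) (x : W) (L : List (S × Bool)) :
    Δ.trSum (fun _ => 0) x L = 0 := by
  have := Δ.trSum_smul 0 (fun _ => 0) x L
  simpa using this

open Polynomial in
private theorem claim {W W' S K : Type*} (Δ : LG W S) (Δ' : LG W' S) (q : W' → W)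
    (lev : W' → ℤ) (c : W × S × W → ℤ)
    (h : ∀ x s y, (x, s, y) ∈ Δ'.F → (q x, s, q y) ∈ Δ.F ∧ lev y = lev x + c (q x, s, q y))
    (S0 : Set S) (a : K → List (S × Bool)) (hS : Δ.Sur S0 a) (k : ℕ) :
    ∀ p : W → K → ℚ[X], (∀ w κ, (p w κ).degree < (k : WithBot ℕ)) →
      ∃ f' : W' × S × W' → ℚ, (∀ u s v, s ∉ S0 → f' (u, s, v) = 0) ∧
        ∀ x κ, Δ'.Rd x (a κ) → Δ'.trSum f' x (a κ) = (p (q x) κ).eval (lev x : ℚ) := by
  induction k with
  | zero =>
    intro p hp
    refine ⟨fun _ => 0, fun _ _ _ _ => rfl, fun x κ _ => ?_⟩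
    have h0 : p (q x) κ = 0 := by
      have := hp (q x) κ
      rw [Polynomial.degree_lt_iff_coeff_zero] at this
      ext m
      rw [this m (Nat.zero_le m), coeff_zero]
    rw [h0, eval_zero, trSum_zero']
  | succ k ih =>
    intro p hp
    obtain ⟨f, hf0, hf⟩ := hS (fun w κ => (p w κ).coeff k)
    choose P hP1 hP2 hP3 using fun (w : W) (κ : K) => tpoly Δ Δ' q lev c h k f (a κ) w
    obtain ⟨g, hg0, hg⟩ := ih (fun w κ => if Δ.Rd w (a κ) then p w κ - P w κ else 0) (by
      intro w κ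
      show (if Δ.Rd w (a κ) then p w κ - P w κ else 0).degree < (k : WithBot ℕ)
      split_ifs with hR
      · rw [Polynomial.degree_lt_iff_coeff_zero]
        intro m hm
        have h1 := hp w κ
        rw [Polynomial.degree_lt_iff_coeff_zero] at h1
        rcases Nat.eq_or_lt_of_le hm with h2 | h2
        · subst h2
          rw [coeff_sub, hP2, hf w κ hR, sub_self]
        · rw [coeff_sub, h1 m h2, coeff_eq_zero_of_natDegree_lt (lt_of_le_of_lt (hP1 w κ) h2),
            sub_self]
      · rw [degree_zero]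
        exact WithBot.bot_lt_coe k)
    refine ⟨fun e => (lev e.1 : ℚ) ^ k * f (q e.1, e.2.1, q e.2.2) + g e, fun u s v hs => ?_,
      fun x κ hR => ?_⟩
    · show (lev u : ℚ) ^ k * f (q u, s, q v) + g (u, s, v) = 0
      rw [hf0 _ _ _ hs, hg0 _ _ _ hs, mul_zero, add_zero]
    · rw [trSum_add Δ' (fun e => (lev e.1 : ℚ) ^ k * f (q e.1, e.2.1, q e.2.2)) g,
        hP3 (q x) κ x rfl hR, hg x κ hR]
      have hR' : Δ.Rd (q x) (a κ) := by
        obtain ⟨y, hy⟩ := hR
        exact ⟨q y, walk_map Δ Δ' q (fun x s y hxy => (h x s y hxy).1) _ _ _ hy⟩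
      rw [if_pos hR', eval_sub]
      ring

theorem sur_step {W W' S K : Type*} [Finite W'] (Δ : LG W S) (Δ' : LG W' S) (q : W' → W)
    (lev : W' → ℤ) (c : W × S × W → ℤ)
    (h : ∀ x s y, (x, s, y) ∈ Δ'.F → (q x, s, q y) ∈ Δ.F ∧ lev y = lev x + c (q x, s, q y))
    (hinj : ∀ x y, q x = q y → lev x = lev y → x = y) (S0 : Set S) (a : K → List (S × Bool))
    (hS : Δ.Sur S0 a) : Δ'.Sur S0 a := by
  have : Fintype W' := Fintype.ofFinite W'
  intro t
  have hvs : ∀ w : W, Set.InjOn (fun x : W' => (lev x : ℚ))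
      ((Finset.univ.filter fun x : W' => q x = w : Finset W') : Set W') := by
    intro w x hx y hy hxy
    have hx' : q x = w := by simpa using hx
    have hy' : q y = w := by simpa using hy
    have hxy' : (lev x : ℚ) = (lev y : ℚ) := hxy
    have hl : lev x = lev y := by exact_mod_cast hxy'
    exact hinj x y (hx'.trans hy'.symm) hl
  obtain ⟨f', h0, h1⟩ := claim Δ Δ' q lev c h S0 a hS (Fintype.card W')
    (fun w κ => Lagrange.interpolate (Finset.univ.filter fun x : W' => q x = w)
      (fun x : W' => (lev x : ℚ)) (fun x => t x κ)) (by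
      intro w κ
      refine lt_of_lt_of_le (Lagrange.degree_interpolate_lt _ (hvs w)) ?_
      exact_mod_cast Finset.card_le_univ _)
  refine ⟨f', h0, fun x κ hR => ?_⟩
  rw [h1 x κ hR]
  exact Lagrange.eval_interpolate_at_node (v := fun x : W' => (lev x : ℚ)) (fun x => t x κ)
    (hvs (q x)) (by simp)

end LG

end Pool.Agent.LIA
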