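import Pool.Agent.Lib.TwLI.TTower
import Pool.Agent.Lib.TwLI.TEx

/-!
# TTop : the top of the tower of a group presentation
-/

set_option autoImplicit false

open scoped Classical

namespace Pool.Agent.LIA

universe u

theorem exists_top {S : Type u} {Z K G : Type*} [Group G] (π : FreeGroup S →* G)
    (rel : Z → List (S × Bool))
    (hker : π.ker ≤ Subgroup.normalClosure (Set.range fun z => FreeGroup.mk (rel z)))
    {n : ℕ} (k : Fin n → FreeGroup S)
    (hno : ∀ f : Subgroup.closure (Set.range fun j => π (k j)) →* Multiplicative ℚ,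
      ∀ h, f h = 1) (S0 : Set S) (a : K → List (S × Bool))
    (hd : ∀ t : K → ℚ, ∃ g : S → ℚ, (∀ s, s ∉ S0 → g s = 0) ∧ ∀ k, lsum g (a k) = t k) :
    ∃ (W : Type u) (_ : Fintype W) (Δ : LG W S) (o : W),
      (∀ x, Δ.Conn o x) ∧ Δ.Acy rel ∧ Δ.Sur S0 a ∧ ∀ j, Δ.Walk o (k j).toWord o := by
  obtain ⟨V, _, Γ, o, h1, h2, h3⟩ := exists_graph_acy π rel hker k hno
  have : Nonempty V := ⟨o⟩
  obtain ⟨W, _, Δ, p, h4, h5, h6, h7⟩ := Γ.exists_tower (fun x y => (h1 x).symm.trans (h1 y)) rel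
    h2 S0 a hd
  refine ⟨W, inferInstance, Δ, p o, fun x => ?_, h6, h7, fun j => h5.walk (h3 j)⟩
  obtain ⟨v, rfl⟩ := h4 x
  exact h5.conn (h1 v)

end Pool.Agent.LIA
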