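import Pool.Agent.Lib.TwLI.TImg
import Pool.Agent.Lib.TwLI.TStep
import Pool.Agent.Lib.TwLI.TBase

/-!
# TTower : the tower of infinite cyclic covers

State: a finite type `W : Type u`, a surjective map `p : V → W`, a folded graph `Δ` with `Γ.IsImg p Δ` and
`Δ.Sur S0 a`. First state: `exists_base` (`V` is nonempty). Strong induction on
`Fintype.card V - Fintype.card W` (`card W ≤ card V` by surjectivity):
if `Δ.Acy rel` we are done. Otherwise there is `c`, balanced on `Δ` (sum zero along the closed relator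
walks), which is not a coboundary; multiply by a common denominator of its finitely many values on
`Δ.F` and change it to 0 outside `Δ.F` (this does not change the sums along walks): `c` is integer valued,
`c = ((C : W × S × W → ℤ) : ℚ)` on `Δ.F`. The pull back
`fun e => c (p e.1, e.2.1, p e.2.2)` is balanced on `Γ` (`IsImg.walk`, `IsImg.trSum`), so by `hA` it is the
coboundary of `h : V → ℚ`; normalise `h` to be 0 at a base point `o`; as `Γ` is connected (`hc`) and the
values of `c` are integers, `h` has integer values, `h v = (l v : ℚ)`.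
New state: `W' = Set.range (fun v => (p v, l v))` (a subtype of `W × ℤ`; `Type u`; finite), `p' v = (p v, l v)`,
`Δ'.F` = the image of `Γ.F` under `(u, s, v) ↦ (p' u, s, p' v)`. For `(x, s, y) ∈ Δ'.F` with
`x = p' u`, `y = p' v` we have `(x.1, s, y.1) ∈ Δ.F` and `y.2 = x.2 + C (x.1, s, y.1)`; this gives `det`, `cod` and
the hypothesis of `sur_step` (`q x = x.1.1`, `lev x = x.1.2`). Finally `card W < card W'` : `W' → W` is
surjective; if it was injective, `l` would factor through `p`: `l = h' ∘ p` and `c = dh'` on `Δ.F` (every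
edge of `Δ` is an image), a contradiction.
-/

set_option autoImplicit false

open scoped Classical

namespace Pool.Agent.LIA

universe u

namespace LG

/-- integer valued multiple of a rational cochain -/
private theorem exists_int {W S : Type u} (F : Finset (W × S × W)) (c : W × S × W → ℚ) :
    ∃ (D : ℚ) (C : W × S × W → ℤ), D ≠ 0 ∧ ∀ e ∈ F, (C e : ℚ) = D * c e := by
  have h1 : ∀ e ∈ F, ∃ z : ℤ, (z : ℚ) = ((∏ e ∈ F, (c e).den : ℕ) : ℚ) * c e := by
    intro e he
    obtain ⟨k, hk⟩ := Finset.dvd_prod_of_mem (fun e => (c e).den) he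
    refine ⟨k * (c e).num, ?_⟩
    rw [hk]
    have h2 : (c e) * ((c e).den : ℚ) = ((c e).num : ℚ) := Rat.mul_den_eq_num _
    push_cast
    rw [← h2]
    ring
  refine ⟨((∏ e ∈ F, (c e).den : ℕ) : ℚ), fun e => if h : e ∈ F then (h1 e h).choose else 0, ?_, ?_⟩
  · have : (∏ e ∈ F, (c e).den) ≠ 0 := Finset.prod_ne_zero_iff.2 fun e _ => (c e).den_nz
    exact_mod_cast this
  · intro e he
    simp only [he, dif_pos]
    exact (h1 e he).choose_spec

private theorem tower_aux {V S : Type u} {Z K : Type*} [Fintype V] [Nonempty V] (Γ : LG V S)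
    (hc : ∀ x y, Γ.Conn x y) (rel : Z → List (S × Bool)) (hA : Γ.Acy rel) (S0 : Set S)
    (a : K → List (S × Bool)) (n : ℕ) :
    ∀ (W : Type u) [Fintype W] (Δ : LG W S) (p : V → W), Function.Surjective p → Γ.IsImg p Δ →
      Δ.Sur S0 a → Fintype.card V - Fintype.card W = n →
      ∃ (W : Type u) (_ : Fintype W) (Δ : LG W S) (p : V → W), Function.Surjective p ∧
        Γ.IsImg p Δ ∧ Δ.Acy rel ∧ Δ.Sur S0 a := by
  induction n using Nat.strong_induction_on with
  | _ n ih =>
    intro W _ Δ p hp hI hS hn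
    by_cases hAc : Δ.Acy rel
    · exact ⟨W, inferInstance, Δ, p, hp, hI, hAc, hS⟩
    unfold Acy at hAc
    push Not at hAc
    obtain ⟨c, hc1, hc2⟩ := hAc
    obtain ⟨D, C, hD, hC⟩ := exists_int Δ.F c
    -- the pull back is balanced
    have hb : ∀ v z, Γ.Walk v (rel z) v →
        Γ.trSum (fun e => ((C (p e.1, e.2.1, p e.2.2) : ℤ) : ℚ)) v (rel z) = 0 := by
      intro v z hw
      rw [hI.trSum (fun e => ((C e : ℤ) : ℚ)) hw]
      rw [trSum_congr Δ (fun e => ((C e : ℤ) : ℚ)) (fun e => D * c e) Set.univ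
        (fun _ _ _ _ _ => Set.mem_univ _) (fun u s v he _ => hC _ he) (p v) (rel z)
        (Set.mem_univ _), trSum_smul, hc1 _ _ (hI.walk hw), mul_zero]
    obtain ⟨h, hh⟩ := hA _ hb
    -- integer values
    have hz : ∀ v, ∃ z : ℤ, (z : ℚ) = h v - h (Classical.arbitrary V) := by
      intro v
      refine Conn.induction (Γ := Γ) (p := fun v => ∃ z : ℤ,
        (z : ℚ) = h v - h (Classical.arbitrary V)) ⟨0, by simp⟩ ?_ (hc (Classical.arbitrary V) v)
      rintro x ⟨s, b⟩ y ⟨z, hz⟩ hs
      cases b
      · rw [step_false] at hs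
        refine ⟨z - C (p y, s, p x), ?_⟩
        have := hh _ _ _ hs
        push_cast
        simp only at this
        rw [this, hz]
        ring
      · rw [step_true] at hs
        refine ⟨z + C (p x, s, p y), ?_⟩
        have := hh _ _ _ hs
        push_cast
        simp only at this
        rw [this, hz]
        ring
    choose l hl using hz
    have hl2 : ∀ u s v, (u, s, v) ∈ Γ.F → l v = l u + C (p u, s, p v) := by
      intro u s v he
      have h1 := hh _ _ _ he
      simp only at h1
      have h2 : ((l v : ℤ) : ℚ) = ((l u + C (p u, s, p v) : ℤ) : ℚ) := by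
        push_cast
        rw [hl, hl, h1]
        ring
      exact_mod_cast h2
    -- the new state
    let W' : Type u := ↥(Set.range fun v : V => (p v, l v))
    haveI : Finite W' := (Set.finite_range fun v : V => (p v, l v)).to_subtype
    letI : Fintype W' := Fintype.ofFinite _
    let p' : V → W' := fun v => ⟨(p v, l v), v, rfl⟩
    have hp' : Function.Surjective p' := by
      rintro ⟨_, v, rfl⟩
      exact ⟨v, rfl⟩
    have hkey0 : ∀ (x : W') (s : S) (y : W'),
        (x, s, y) ∈ (Γ.F.image fun e => (p' e.1, e.2.1, p' e.2.2)) →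
        (x.1.1, s, y.1.1) ∈ Δ.F ∧ y.1.2 = x.1.2 + C (x.1.1, s, y.1.1) := by
      intro x s y he
      rw [Finset.mem_image] at he
      obtain ⟨⟨u, t, v⟩, he1, he2⟩ := he
      simp only [Prod.mk.injEq] at he2
      obtain ⟨rfl, rfl, rfl⟩ := he2
      exact ⟨(hI _).2 ⟨u, t, v, he1, rfl⟩, hl2 _ _ _ he1⟩
    let Δ' : LG W' S :=
      { F := Γ.F.image fun e => (p' e.1, e.2.1, p' e.2.2)
        det := by
          intro x s y y' h1 h2
          obtain ⟨h3, h4⟩ := hkey0 _ _ _ h1
          obtain ⟨h5, h6⟩ := hkey0 _ _ _ h2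
          have h7 := Δ.det h3 h5
          refine Subtype.ext (Prod.ext h7 ?_)
          rw [h4, h6, h7]
        cod := by
          intro x x' s y h1 h2
          obtain ⟨h3, h4⟩ := hkey0 _ _ _ h1
          obtain ⟨h5, h6⟩ := hkey0 _ _ _ h2
          have h7 := Δ.cod h3 h5
          refine Subtype.ext (Prod.ext h7 ?_)
          rw [h4, h7] at h6
          exact add_right_cancel h6 }
    have hI' : Γ.IsImg p' Δ' := by
      intro e
      show e ∈ (Γ.F.image fun e => (p' e.1, e.2.1, p' e.2.2)) ↔ _
      rw [Finset.mem_image]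
      constructor
      · rintro ⟨⟨u, s, v⟩, h1, h2⟩
        exact ⟨u, s, v, h1, h2.symm⟩
      · rintro ⟨u, s, v, h1, h2⟩
        exact ⟨(u, s, v), h1, h2.symm⟩
    have hS' : Δ'.Sur S0 a :=
      sur_step Δ Δ' (fun x => x.1.1) (fun x => x.1.2) C hkey0
        (fun x y h1 h2 => Subtype.ext (Prod.ext h1 h2)) S0 a hS
    have hπ : Function.Surjective (fun x : W' => x.1.1) := by
      intro w
      obtain ⟨v, hv⟩ := hp w
      exact ⟨p' v, hv⟩
    have hcard1 : Fintype.card W ≤ Fintype.card W' := Fintype.card_le_of_surjective _ hπ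
    have hcard2 : Fintype.card W' ≤ Fintype.card V := Fintype.card_le_of_surjective _ hp'
    have hcard3 : Fintype.card W ≠ Fintype.card W' := by
      intro heq
      have hbij := (Fintype.bijective_iff_surjective_and_card (fun x : W' => x.1.1)).2
        ⟨hπ, heq.symm⟩
      have hfac : ∀ v v', p v = p v' → l v = l v' := by
        intro v v' hv
        have h1 : p' v = p' v' := hbij.1 hv
        have h2 := congrArg (fun x : W' => x.1.2) h1
        exact h2
      choose r hr using hp
      obtain ⟨u, s, v, h1, h2⟩ := hc2 fun w => D⁻¹ * (l (r w) : ℚ)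
      apply h2
      obtain ⟨u0, s0, v0, h3, h4⟩ := (hI _).1 h1
      simp only [Prod.mk.injEq] at h4
      obtain ⟨rfl, rfl, rfl⟩ := h4
      have h5 := hC _ h1
      have h6 := hl2 _ _ _ h3
      rw [hfac (r (p v0)) v0 (hr _), hfac (r (p u0)) u0 (hr _), h6]
      push_cast
      rw [h5]
      field_simp
      ring
    exact ih (Fintype.card V - Fintype.card W') (by omega) W' Δ' p' hp' hI' hS' rfl

theorem exists_tower {V S : Type u} {Z K : Type*} [Fintype V] [Nonempty V] (Γ : LG V S)
    (hc : ∀ x y, Γ.Conn x y) (rel : Z → List (S × Bool)) (hA : Γ.Acy rel) (S0 : Set S)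
    (a : K → List (S × Bool))
    (hd : ∀ t : K → ℚ, ∃ g : S → ℚ, (∀ s, s ∉ S0 → g s = 0) ∧ ∀ k, lsum g (a k) = t k) :
    ∃ (W : Type u) (_ : Fintype W) (Δ : LG W S) (p : V → W), Function.Surjective p ∧
      Γ.IsImg p Δ ∧ Δ.Acy rel ∧ Δ.Sur S0 a := by
  obtain ⟨Δ, hI, hS⟩ := exists_base.{u} Γ S0 a hd
  exact tower_aux Γ hc rel hA S0 a (Fintype.card V - Fintype.card PUnit.{u + 1}) PUnit.{u + 1} Δ
    (fun _ => PUnit.unit) (fun x => ⟨Classical.arbitrary V, Subsingleton.elim _ _⟩) hI hS rfl

end LG

end Pool.Agent.LIA
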