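import Pool.Agent.Lib.TwLI.VPot

/-!
# VA : the `A`-part at the top of the tower

`C` is a subgroup of `B`, the relators `R k` are words in `C` and `X`; `i : C →* A` and `x : X → A` kill the relators
(so `A` is a group to which `⟨C, X | R⟩` maps), `A` is locally indicable. `hB` is a potential on the
`B`-edges. Then the `A`-valued cochain on the edges with labels in `C` and `X` has a potential.

Apply `li_pot` to `Δ_A = Δ.pull (Sum.map Subtype.val id) _` (labels `C ⊕ X`) and `θ (u, s, v) = Sum.elim i x s`.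
Let `c` be induced by `θ`, with `C0, D, ψ, g` (`Ind`).
Step 1: on the edges of `Δ_A` with labels in `C`, `c` is a coboundary `k v - k u`. Let `Δ_C` be the graph of the
edges with labels in `C` (`Δ.pull (fun c : C => Sum.inl c.1)`), `r u` a vertex of the `Δ_C`-component of `u`
depending only on the component. Walking from `r u` to `u` in `Δ_C` one sees
`d u := (hB (r u))⁻¹ * hB u ∈ C`, and for `u ∈ C0` also `r u ∈ C0` and `g (r u) * i ⟨d u, _⟩ * (g u)⁻¹ ∈ D`; put
`k u = (ψ ⟨g (r u) * i (d u) * (g u)⁻¹, _⟩).toAdd` for `u ∈ C0`, `k u = 0` for `u ∉ C0`. For an edge `(u, c, v)`, `c : C`: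
`r u = r v`, `d v = d u * c`, and `(g (r u) * i (d u) * (g u)⁻¹)⁻¹ * (g (r v) * i (d v) * (g v)⁻¹) =
g u * i c * (g v)⁻¹`.
Step 2: define `c'` on `Δ` by `c' (u, inr y, v) = c (u, inr y, v)`, `c' (u, inl b, v) = k v - k u` for all `b : B`.
It has sum zero along the closed walks `[a] [b] [a b]⁻¹` (a coboundary there), and along a closed walk of a
relator (a word in `C` and `X`) its sum is the sum of `c` along the closed walk of `R k` in `Δ_A`, which is zero by
`Ind.trSum_eq_zero`, since the value of the walk is the value of the word (`wv_label`), `1` by `hR`.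
So `c'` is a coboundary by `hA`, and `c` too.
-/

set_option autoImplicit false

open scoped Classical

namespace Pool.Agent.LIA

universe u

private theorem va_map_toWord {S R : Type*} [DecidableEq S] [DecidableEq R] (g : S → R)
    (hg : Function.Injective g) (w : FreeGroup S) :
    (FreeGroup.map g w).toWord = w.toWord.map fun x => (g x.1, x.2) := by
  conv_lhs => rw [← FreeGroup.mk_toWord (x := w)]
  rw [FreeGroup.map.mk, FreeGroup.toWord_mk]
  have h1 : FreeGroup.IsReduced (w.toWord.map fun x => (g x.1, x.2)) := by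
    have h2 : FreeGroup.IsReduced w.toWord := FreeGroup.isReduced_toWord
    unfold FreeGroup.IsReduced at h2 ⊢
    rw [List.isChain_map]
    exact h2.imp fun a b h h' => h (hg h')
  exact h1.reduce_eq

/-- a representative of the component -/
private theorem va_rep {V S : Type*} [Fintype V] (Γ : LG V S) :
    ∃ r : V → V, (∀ u, Γ.Conn (r u) u) ∧ ∀ u v, Γ.Conn u v → r u = r v := by
  have key : ∀ (F G : Finset V) (hF : F.Nonempty) (hG : G.Nonempty), F = G →
      hF.choose = hG.choose := by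
    intro F G hF hG h
    subst h
    rfl
  refine ⟨fun u => (⟨u, LG.self_mem_comp u⟩ : (Γ.comp u).Nonempty).choose, fun u => ?_,
    fun u v h => ?_⟩
  · have h1 := (⟨u, LG.self_mem_comp u⟩ : (Γ.comp u).Nonempty).choose_spec
    exact (LG.mem_comp.1 h1).symm
  · exact key _ _ _ _ (LG.comp_eq_iff.2 h)

/-- the value along the edges with labels in `C` -/
private theorem va_walk {W B X A : Type*} [Group B] [Group A] (C : Subgroup B) (i : C →* A)
    (Δ : LG W (B ⊕ X)) (hB : W → B)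
    (hh : ∀ u b v, (u, Sum.inl b, v) ∈ Δ.F → hB v = hB u * b)
    (hinj : Function.Injective (fun c : C => (Sum.inl (c : B) : B ⊕ X)))
    (C0 : Set W) (D : Subgroup A) (g : W → A)
    (hC : ∀ u (c : C) v, (u, Sum.inl (c : B), v) ∈ Δ.F → (u ∈ C0 ↔ v ∈ C0))
    (hD : ∀ u (c : C) v, (u, Sum.inl (c : B), v) ∈ Δ.F → u ∈ C0 → g u * i c * (g v)⁻¹ ∈ D)
    {a b : W} (h : (Δ.pull _ hinj).Conn a b) :
    (a ∈ C0 ↔ b ∈ C0) ∧ ∃ h1 : (hB a)⁻¹ * hB b ∈ C, a ∈ C0 → g a * i ⟨_, h1⟩ * (g b)⁻¹ ∈ D := by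
  refine LG.Conn.induction (Γ := Δ.pull _ hinj)
    (p := fun b => (a ∈ C0 ↔ b ∈ C0) ∧ ∃ h1 : (hB a)⁻¹ * hB b ∈ C,
      a ∈ C0 → g a * i ⟨_, h1⟩ * (g b)⁻¹ ∈ D) ?_ ?_ h
  · have h1 : (hB a)⁻¹ * hB a ∈ C := by rw [inv_mul_cancel]; exact C.one_mem
    refine ⟨Iff.rfl, h1, fun _ => ?_⟩
    have h2 : (⟨_, h1⟩ : C) = 1 := Subtype.ext (inv_mul_cancel _)
    rw [h2, map_one, mul_one, mul_inv_cancel]
    exact D.one_mem
  · rintro b ⟨c, e⟩ b' ⟨hab, h1, h2⟩ hs
    cases e
    · rw [LG.step_false, LG.mem_pull] at hs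
      have h3 := hh _ _ _ hs
      have h4 : (hB a)⁻¹ * hB b' = ((hB a)⁻¹ * hB b) * (c : B)⁻¹ := by
        rw [h3]; group
      have h5 : (hB a)⁻¹ * hB b' ∈ C := by
        rw [h4]; exact C.mul_mem h1 (C.inv_mem c.2)
      refine ⟨hab.trans (hC _ _ _ hs).symm, h5, fun ha => ?_⟩
      have h6 : (⟨_, h5⟩ : C) = ⟨_, h1⟩ * c⁻¹ := Subtype.ext h4
      have h7 := D.mul_mem (h2 ha) (D.inv_mem (hD _ _ _ hs ((hC _ _ _ hs).2 (hab.1 ha))))
      rw [h6, map_mul, map_inv]
      convert h7 using 1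
      group
    · rw [LG.step_true, LG.mem_pull] at hs
      have h3 := hh _ _ _ hs
      have h4 : (hB a)⁻¹ * hB b' = ((hB a)⁻¹ * hB b) * (c : B) := by
        rw [h3]; group
      have h5 : (hB a)⁻¹ * hB b' ∈ C := by
        rw [h4]; exact C.mul_mem h1 c.2
      refine ⟨hab.trans (hC _ _ _ hs), h5, fun ha => ?_⟩
      have h6 : (⟨_, h5⟩ : C) = ⟨_, h1⟩ * c := Subtype.ext h4
      have h7 := D.mul_mem (h2 ha) (hD _ _ _ hs (hab.1 ha))
      rw [h6, map_mul]
      convert h7 using 1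
      group

/-- Step 1: on the edges with labels in `C` the cochain is a coboundary -/
private theorem va_step1 {W B X A : Type*} [Fintype W] [Group B] [Group A] (C : Subgroup B)
    (i : C →* A) (x : X → A) (Δ : LG W (B ⊕ X)) (hB : W → B)
    (hh : ∀ u b v, (u, Sum.inl b, v) ∈ Δ.F → hB v = hB u * b)
    (hi : Function.Injective (Sum.map Subtype.val id : C ⊕ X → B ⊕ X))
    (c : W × (C ⊕ X) × W → ℚ)
    (hc : (Δ.pull (Sum.map Subtype.val id : C ⊕ X → B ⊕ X) hi).Ind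
      (fun e => Sum.elim (fun c => i c) x e.2.1) c) :
    ∃ k : W → ℚ, ∀ u (s : C) v, (u, Sum.inl (s : B), v) ∈ Δ.F →
      c (u, Sum.inl s, v) = k v - k u := by
  obtain ⟨C0, D, ψ, g, h1, h2, h3⟩ := hc
  have hinj : Function.Injective (fun c : C => (Sum.inl (c : B) : B ⊕ X)) := by
    intro a b h
    exact Subtype.ext (Sum.inl_injective h)
  obtain ⟨r, hr1, hr2⟩ := va_rep (Δ.pull _ hinj)
  have hmem : ∀ u (s : C) v, (u, Sum.inl (s : B), v) ∈ Δ.F →
      (u, (Sum.inl s : C ⊕ X), v) ∈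
        (Δ.pull (Sum.map Subtype.val id : C ⊕ X → B ⊕ X) hi).F := by
    intro u s v h
    rw [LG.mem_pull]
    exact h
  have hC : ∀ u (c : C) v, (u, Sum.inl (c : B), v) ∈ Δ.F → (u ∈ C0 ↔ v ∈ C0) :=
    fun u s v h => h1 u _ v (hmem u s v h)
  have hD : ∀ u (c : C) v, (u, Sum.inl (c : B), v) ∈ Δ.F → u ∈ C0 →
      g u * i c * (g v)⁻¹ ∈ D := by
    intro u s v h hu
    obtain ⟨h4, -⟩ := h2 u _ v (hmem u s v h) hu
    exact h4
  have hw : ∀ u, (r u ∈ C0 ↔ u ∈ C0) ∧ ∃ h1 : (hB (r u))⁻¹ * hB u ∈ C,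
      r u ∈ C0 → g (r u) * i ⟨_, h1⟩ * (g u)⁻¹ ∈ D :=
    fun u => va_walk C i Δ hB hh hinj C0 D g hC hD (hr1 u)
  have hk : ∃ k : W → ℚ, (∀ u, u ∈ C0 → ∀ (h1 : (hB (r u))⁻¹ * hB u ∈ C)
      (h2 : g (r u) * i ⟨_, h1⟩ * (g u)⁻¹ ∈ D), k u = (ψ ⟨_, h2⟩).toAdd) ∧
      ∀ u, u ∉ C0 → k u = 0 := by
    refine ⟨fun u => if h : u ∈ C0 ∧ ∃ h1 : (hB (r u))⁻¹ * hB u ∈ C,
      g (r u) * i ⟨_, h1⟩ * (g u)⁻¹ ∈ D then (ψ ⟨_, h.2.choose_spec⟩).toAdd else 0, ?_, ?_⟩
    · intro u hu h4 h5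
      exact dif_pos ⟨hu, h4, h5⟩
    · intro u hu
      exact dif_neg fun h => hu h.1
  obtain ⟨k, hk1, hk2⟩ := hk
  refine ⟨k, fun u s v h => ?_⟩
  by_cases hu : u ∈ C0
  · have hv : v ∈ C0 := (hC u s v h).1 hu
    obtain ⟨h4, h5⟩ := h2 u _ v (hmem u s v h) hu
    rw [h5]
    obtain ⟨hu1, hu2, hu3⟩ := hw u
    obtain ⟨hv1, hv2, hv3⟩ := hw v
    have hu4 := hu3 (hu1.2 hu)
    have hv4 := hv3 (hv1.2 hv)
    rw [hk1 u hu hu2 hu4, hk1 v hv hv2 hv4]
    have hruv : r u = r v := hr2 u v (LG.conn_of_mem (s := s) (LG.mem_pull.2 h))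
    have h6 : (⟨_, hv4⟩ : D) = ⟨_, hu4⟩ * ⟨_, h4⟩ := by
      apply Subtype.ext
      have h7 : (⟨_, hv2⟩ : C) = ⟨_, hu2⟩ * s := by
        apply Subtype.ext
        change (hB (r v))⁻¹ * hB v = (hB (r u))⁻¹ * hB u * s
        rw [hruv, hh u s v h, mul_assoc]
      change g (r v) * i ⟨_, hv2⟩ * (g v)⁻¹ =
        (g (r u) * i ⟨_, hu2⟩ * (g u)⁻¹) * (g u * i s * (g v)⁻¹)
      rw [h7, map_mul, ← hruv]
      group
    rw [h6, map_mul, toAdd_mul]
    ring
  · have hv : v ∉ C0 := fun hv => hu ((hC u s v h).2 hv)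
    rw [h3 u _ v (hmem u s v h) hu, hk2 u hu, hk2 v hv, sub_zero]

theorem va {W B X ι A : Type*} [Fintype W] [Group B] [Group A] (hAl : LocallyIndicable A)
    (C : Subgroup B) (R : ι → FreeGroup (C ⊕ X)) (i : C →* A) (x : X → A)
    (hR : ∀ k, FreeGroup.lift (Sum.elim (fun c => i c) x) (R k) = 1) (Δ : LG W (B ⊕ X))
    (hA : Δ.Acy (vrel fun k => FreeGroup.map (Sum.map Subtype.val id) (R k))) (hB : W → B)
    (hh : ∀ u b v, (u, Sum.inl b, v) ∈ Δ.F → hB v = hB u * b) :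
    ∃ h : W → A, (∀ u (c : C) v, (u, Sum.inl (c : B), v) ∈ Δ.F → h v = h u * i c) ∧
      ∀ u y v, (u, Sum.inr y, v) ∈ Δ.F → h v = h u * x y := by
  have hi : Function.Injective (Sum.map Subtype.val id : C ⊕ X → B ⊕ X) :=
    Sum.map_injective.2 ⟨Subtype.val_injective, Function.injective_id⟩
  set ΔA := Δ.pull (Sum.map Subtype.val id : C ⊕ X → B ⊕ X) hi with hΔA
  suffices H : ∃ h : W → A, ΔA.IsPot (fun e => Sum.elim (fun c => i c) x e.2.1) h by
    obtain ⟨h, hp⟩ := H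
    refine ⟨h, fun u c v he => ?_, fun u y v he => ?_⟩
    · exact hp u (Sum.inl c) v (LG.mem_pull.2 he)
    · exact hp u (Sum.inr y) v (LG.mem_pull.2 he)
  refine LG.li_pot hAl ΔA _ fun c hc => ?_
  obtain ⟨k, hk⟩ := va_step1 C i x Δ hB hh hi c hc
  obtain ⟨c', hc'1, hc'2⟩ : ∃ c' : W × (B ⊕ X) × W → ℚ,
      (∀ u b v, c' (u, Sum.inl b, v) = k v - k u) ∧
      ∀ u y v, c' (u, Sum.inr y, v) = c (u, Sum.inr y, v) :=
    ⟨fun e => Sum.elim (fun _ => k e.2.2 - k e.1) (fun y => c (e.1, Sum.inr y, e.2.2)) e.2.1,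
      fun _ _ _ => rfl, fun _ _ _ => rfl⟩
  have hcc : ∀ u s v, (u, s, v) ∈ ΔA.F →
      c' (u, Sum.map Subtype.val id s, v) = c (u, s, v) := by
    rintro u (s | s) v h
    · rw [hΔA, LG.mem_pull] at h
      have := hk u s v h
      rw [this]
      exact hc'1 _ _ _
    · exact hc'2 _ _ _
  have htr : ∀ (L : List ((C ⊕ X) × Bool)) u v, ΔA.Walk u L v →
      Δ.trSum c' u (L.map fun y => (Sum.map Subtype.val id y.1, y.2)) = ΔA.trSum c u L := by
    intro L
    induction L with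
    | nil =>
      intro u v _
      rw [List.map_nil, LG.trSum_nil, LG.trSum_nil]
    | cons l L ih =>
      rintro u v ⟨a, ha, ha'⟩
      obtain ⟨s, e⟩ := l
      have ha2 : Δ.Step u (Sum.map Subtype.val id s, e) a := by
        cases e
        · rw [LG.step_false, hΔA, LG.mem_pull] at ha
          rw [LG.step_false]
          exact ha
        · rw [LG.step_true, hΔA, LG.mem_pull] at ha
          rw [LG.step_true]
          exact ha
      rw [List.map_cons, LG.trSum_cons _ _ _ ha2, LG.trSum_cons _ _ _ ha, ih _ _ ha']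
      congr 1
      cases e
      · rw [LG.step_false] at ha
        simp only [Bool.false_eq_true, if_false]
        rw [hcc _ _ _ ha]
      · rw [LG.step_true] at ha
        simp only [if_true]
        rw [hcc _ _ _ ha]
  have hz : ∀ v z, Δ.Walk v (vrel (fun k => FreeGroup.map (Sum.map Subtype.val id) (R k)) z) v →
      Δ.trSum c' v (vrel (fun k => FreeGroup.map (Sum.map Subtype.val id) (R k)) z) = 0 := by
    rintro v (p | z) hw
    · obtain ⟨a, ha, b, hb, d, hd, hd'⟩ := hw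
      change d = v at hd'
      subst hd'
      change Δ.trSum c' d [(Sum.inl p.1, true), (Sum.inl p.2, true),
        (Sum.inl (p.1 * p.2), false)] = 0
      rw [LG.trSum_cons _ _ _ ha, LG.trSum_cons _ _ _ hb, LG.trSum_cons _ _ _ hd, LG.trSum_nil]
      simp only [Bool.false_eq_true, if_false, if_true, hc'1]
      ring
    · have h1 : (vrel (fun k => FreeGroup.map (Sum.map Subtype.val id) (R k)) (Sum.inr z) :
          List ((B ⊕ X) × Bool)) =
          (R z).toWord.map fun y => (Sum.map Subtype.val id y.1, y.2) :=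
        va_map_toWord _ hi (R z)
      rw [h1] at hw ⊢
      have hw' : ΔA.Walk v (R z).toWord v := by
        rw [hΔA]
        exact LG.walk_pull.2 hw
      rw [htr _ _ _ hw']
      have h2 := wv_label (fun s => Sum.elim (fun c => i c) x s) hw'
      rw [FreeGroup.mk_toWord] at h2
      have h3 : FreeGroup.lift (fun s => Sum.elim (fun c => i c) x s) (R z) = 1 := hR z
      rw [h3] at h2
      exact hc.trSum_eq_zero h2
  obtain ⟨h, hh'⟩ := hA c' hz
  refine ⟨h, fun u s v hs => ?_⟩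
  rw [← hcc u s v hs]
  exact hh' _ _ _ (LG.mem_pull.1 hs)

end Pool.Agent.LIA
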