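import Pool.Agent.Lib.TwLI.Defs

/-!
# VAmal : the group over `C` embeds into the group over `B`

`A = ⟨C, X | R⟩`, `G = ⟨B, X | R⟩`, `j : A →* G` induced by the inclusion of `C` and by `x ↦ x` (it exists: the words `R i` are
mapped to `rval Subtype.val (R i)`). Let `P` be the amalgam of `B` and `A` over `C`
(`Monoid.PushoutI` with the index type `Bool`, the groups `cond`/`Bool.rec` of `B` and `A`, the maps `C.subtype` and `C → A`,
both injective). There is a homomorphism `G →* P` (`b ↦ of b`, `x ↦ of x`; `rval Subtype.val (R i)` is mapped to the image of the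
relator of `A`, which is 1) whose composition with `j` is the canonical map of `A`, injective by
`Monoid.PushoutI.of_injective`. Compare `Lib/MP_cf50d6_gt/Push.lean` for working with `PushoutI`.
-/

set_option autoImplicit false

open scoped Classical

namespace Pool.Agent.LIA

universe u

private def GT (B A : Type u) : Bool → Type u
  | true => B
  | false => A

private instance instGT (B A : Type u) [Group B] [Group A] : ∀ i, Group (GT B A i)
  | true => (inferInstance : Group B)
  | false => (inferInstance : Group A)

private def phiT {C B A : Type u} [Group C] [Group B] [Group A] (f : C →* B) (g : C →* A) :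
    ∀ i, C →* GT B A i
  | true => f
  | false => g

private theorem amalg {C B A : Type u} [Group C] [Group B] [Group A] (f : C →* B) (g : C →* A)
    (hf : Function.Injective f) (hg : Function.Injective g) :
    ∃ (P : Type u) (_ : Group P) (iB : B →* P) (iA : A →* P),
      (∀ c, iB (f c) = iA (g c)) ∧ Function.Injective iA := by
  have hφ : ∀ i, Function.Injective (phiT f g i) := by
    intro i
    cases i
    · exact hg
    · exact hf
  refine ⟨Monoid.PushoutI (phiT f g), inferInstance,
    (Monoid.PushoutI.of (φ := phiT f g) true : GT B A true →* Monoid.PushoutI (phiT f g)),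
    (Monoid.PushoutI.of (φ := phiT f g) false : GT B A false →* Monoid.PushoutI (phiT f g)),
    ?_, Monoid.PushoutI.of_injective hφ false⟩
  intro c
  have h1 := Monoid.PushoutI.of_apply_eq_base (phiT f g) true c
  have h2 := Monoid.PushoutI.of_apply_eq_base (phiT f g) false c
  exact h1.trans h2.symm

/-- the homomorphism without injectivity -/
private theorem exists_map' {B X : Type u} {ι : Type*} [Group B] (C : Subgroup B)
    (R : ι → FreeGroup (C ⊕ X)) :
    ∃ j : RelGrp (id : C → C) R →* RelGrp (Subtype.val : C → B) R,
      (∀ c : C, j (QuotientGroup.mk (Monoid.Coprod.inl c)) =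
        QuotientGroup.mk (Monoid.Coprod.inl (c : B))) ∧
      ∀ x : X, j (QuotientGroup.mk (Monoid.Coprod.inr (FreeGroup.of x))) =
        QuotientGroup.mk (Monoid.Coprod.inr (FreeGroup.of x)) := by
  have key : (Monoid.Coprod.map C.subtype (MonoidHom.id (FreeGroup X))).comp
      (rval (id : C → C) : FreeGroup (C ⊕ X) →* Monoid.Coprod C (FreeGroup X)) =
      rval (Subtype.val : C → B) := by
    ext s
    cases s <;> simp [rval]
  refine ⟨QuotientGroup.map _ _ (Monoid.Coprod.map C.subtype (MonoidHom.id (FreeGroup X))) ?_,
    ?_, ?_⟩
  · rw [← Subgroup.normalClosure_subset_iff]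
    rintro _ ⟨i, rfl⟩
    have h := DFunLike.congr_fun key (R i)
    simp only [MonoidHom.comp_apply] at h
    simp only [Subgroup.coe_comap, Set.mem_preimage, SetLike.mem_coe]
    rw [h]
    exact Subgroup.subset_normalClosure ⟨i, rfl⟩
  · intro c
    rw [QuotientGroup.map_mk]
    simp
  · intro x
    rw [QuotientGroup.map_mk]
    simp

theorem exists_emb {B X : Type u} {ι : Type*} [Group B] (C : Subgroup B)
    (R : ι → FreeGroup (C ⊕ X))
    (hC : Function.Injective fun c : C =>
      (QuotientGroup.mk (Monoid.Coprod.inl c) : RelGrp (id : C → C) R)) :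
    ∃ j : RelGrp (id : C → C) R →* RelGrp (Subtype.val : C → B) R, Function.Injective j := by
  obtain ⟨j, hj1, hj2⟩ := exists_map' C R
  refine ⟨j, ?_⟩
  obtain ⟨P, _, iB, iA, hc, hi⟩ := amalg C.subtype
    ((QuotientGroup.mk' (Subgroup.normalClosure (Set.range fun i => rval (id : C → C) (R i)))).comp
      (Monoid.Coprod.inl : C →* Monoid.Coprod C (FreeGroup X)))
    Subtype.val_injective hC
  let b0 : Monoid.Coprod B (FreeGroup X) →* P := Monoid.Coprod.lift iB
    (FreeGroup.lift fun x => iA (QuotientGroup.mk (Monoid.Coprod.inr (FreeGroup.of x))))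
  have key : b0.comp (rval (Subtype.val : C → B)) = (iA.comp (QuotientGroup.mk'
      (Subgroup.normalClosure (Set.range fun i => rval (id : C → C) (R i))))).comp
      (rval (id : C → C)) := by
    ext s
    cases s with
    | inl c =>
      simp only [rval, MonoidHom.comp_apply, FreeGroup.lift_apply_of, Sum.elim_inl, b0,
        Monoid.Coprod.lift_apply_inl, id]
      exact hc c
    | inr x =>
      simp only [rval, MonoidHom.comp_apply, FreeGroup.lift_apply_of, Sum.elim_inr, b0,
        Monoid.Coprod.lift_apply_inr]
      rfl
  have hker : Subgroup.normalClosure (Set.range fun i => rval (Subtype.val : C → B) (R i)) ≤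
      b0.ker := by
    rw [← Subgroup.normalClosure_subset_iff]
    rintro _ ⟨i, rfl⟩
    have h := DFunLike.congr_fun key (R i)
    simp only [MonoidHom.comp_apply] at h
    simp only [SetLike.mem_coe, MonoidHom.mem_ker]
    rw [h]
    have : (QuotientGroup.mk' (Subgroup.normalClosure
        (Set.range fun i => rval (id : C → C) (R i)))) (rval (id : C → C) (R i)) = 1 := by
      rw [QuotientGroup.mk'_apply, QuotientGroup.eq_one_iff]
      exact Subgroup.subset_normalClosure ⟨i, rfl⟩
    rw [this, map_one]
  let b : RelGrp (Subtype.val : C → B) R →* P := QuotientGroup.lift _ b0 hker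
  have hb : b.comp j = iA := by
    refine QuotientGroup.monoidHom_ext _ ?_
    refine Monoid.Coprod.hom_ext ?_ ?_
    · ext c
      change b (j (QuotientGroup.mk (Monoid.Coprod.inl c))) = _
      rw [hj1]
      change b0 (Monoid.Coprod.inl (c : B)) = _
      simp only [b0, Monoid.Coprod.lift_apply_inl]
      exact hc c
    · ext x
      change b (j (QuotientGroup.mk (Monoid.Coprod.inr (FreeGroup.of x)))) = _
      rw [hj2]
      change b0 (Monoid.Coprod.inr (FreeGroup.of x)) = _
      simp only [b0, Monoid.Coprod.lift_apply_inr, FreeGroup.lift_apply_of]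
      rfl
  have : Function.Injective (b ∘ j) := by
    have h2 : (b ∘ j) = iA := by
      funext z
      exact DFunLike.congr_fun hb z
    rw [h2]
    exact hi
  exact this.of_comp

/-- the homomorphism without injectivity -/
theorem exists_map {B X : Type u} {ι : Type*} [Group B] (C : Subgroup B)
    (R : ι → FreeGroup (C ⊕ X)) :
    ∃ j : RelGrp (id : C → C) R →* RelGrp (Subtype.val : C → B) R,
      (∀ c : C, j (QuotientGroup.mk (Monoid.Coprod.inl c)) =
        QuotientGroup.mk (Monoid.Coprod.inl (c : B))) ∧
      ∀ x : X, j (QuotientGroup.mk (Monoid.Coprod.inr (FreeGroup.of x))) =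
        QuotientGroup.mk (Monoid.Coprod.inr (FreeGroup.of x)) :=
  exists_map' C R

end Pool.Agent.LIA
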