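import Pool.Agent.Lib.TwLI.VPot
import Pool.Agent.Lib.TwLI.VFree

/-!
# VG : gluing the potentials of the two parts

`hB : W → B` is a potential on the `B`-edges, `hG : W → G` is a potential on the edges with labels in `C` and `X`.
Let `Δ_C` be the graph of the edges with labels in `C` (`Δ.pull (fun c : C => Sum.inl c.1)`), `Q = FreeGroup (Finset W)`,
`κ u = FreeGroup.of (Δ_C.comp u)`, and let `θ (u, inl b, v) = κ u * (κ v)⁻¹`, `θ (u, inr y, v) = 1`. The value of the closed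
walk `[a] [b] [a b]⁻¹` (vertices `u, v, w`) is `κ u (κ v)⁻¹ κ v (κ w)⁻¹ κ w (κ u)⁻¹ = 1`; along a word in `C` and
`X` all edges have value 1 (the ends of a `C`-edge have the same component), so the value of the
relators is 1. By `acy_pot` and `li_freeGroup` there is a potential `h : W → Q`.
The element `e u = hG u * (fB (hB u))⁻¹` of `G` is the same for the two ends of a `C`-edge, so it depends only on
`Δ_C.comp u`: there is `E : Finset W → G` with `E (Δ_C.comp u) = e u`. Let `Θ = FreeGroup.lift E`, and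
`φ u = Θ (h u) * hG u`. For an edge `inr y`: `h v = h u`, fine. For an edge `inl b`:
`φ v = Θ (h u) * e u * (e v)⁻¹ * hG v = Θ (h u) * hG u * (fB (hB u))⁻¹ * fB (hB v) = φ u * fB b`.
-/

set_option autoImplicit false

open scoped Classical

namespace Pool.Agent.LIA

universe u

private theorem wv_one {W S Q : Type*} [Group Q] {Γ : LG W S} {θ : W × S × W → Q} :
    ∀ (L : List (S × Bool)) (u v : W), Γ.Walk u L v →
      (∀ l ∈ L, ∀ a b, (a, l.1, b) ∈ Γ.F → θ (a, l.1, b) = 1) → Γ.Wv θ u L v 1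
  | [], u, v, h, _ => ⟨h, rfl⟩
  | l :: L, u, v, h, hl => by
    obtain ⟨x, hx, hL⟩ := h
    refine ⟨x, 1, hx, wv_one L x v hL fun m hm => hl m (List.mem_cons_of_mem _ hm), ?_⟩
    obtain ⟨s, b⟩ := l
    have h0 := hl (s, b) List.mem_cons_self
    cases b
    · have h1 := LG.step_false.1 hx
      simp [h0 _ _ h1]
    · have h1 := LG.step_true.1 hx
      simp [h0 _ _ h1]

private theorem mem_toWord_map {S T : Type*} [DecidableEq T] (f : S → T) (r : FreeGroup S) (l : T × Bool)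
    (hl : l ∈ (FreeGroup.map f r).toWord) : ∃ s, f s = l.1 := by
  have h1 : FreeGroup.map f r = FreeGroup.mk (r.toWord.map fun x => (f x.1, x.2)) := by
    conv_lhs => rw [← FreeGroup.mk_toWord (x := r)]
    rfl
  rw [h1, FreeGroup.toWord_mk] at hl
  have h2 := (FreeGroup.Red.sublist (FreeGroup.reduce.red
    (L := r.toWord.map fun x => (f x.1, x.2)))).subset hl
  obtain ⟨m, -, rfl⟩ := List.mem_map.1 h2
  exact ⟨m.1, rfl⟩

theorem vg {W B X ι G : Type*} [Fintype W] [Group B] [Group G] (C : Subgroup B)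
    (R : ι → FreeGroup (C ⊕ X)) (fB : B →* G) (x : X → G) (Δ : LG W (B ⊕ X))
    (hA : Δ.Acy (vrel fun k => FreeGroup.map (Sum.map Subtype.val id) (R k))) (hB : W → B)
    (hh : ∀ u b v, (u, Sum.inl b, v) ∈ Δ.F → hB v = hB u * b) (hG : W → G)
    (h1 : ∀ u (c : C) v, (u, Sum.inl (c : B), v) ∈ Δ.F → hG v = hG u * fB c)
    (h2 : ∀ u y v, (u, Sum.inr y, v) ∈ Δ.F → hG v = hG u * x y) :
    ∃ φ : W → G, (∀ u b v, (u, Sum.inl b, v) ∈ Δ.F → φ v = φ u * fB b) ∧
      ∀ u y v, (u, Sum.inr y, v) ∈ Δ.F → φ v = φ u * x y := by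
  have hg : Function.Injective (fun c : C => (Sum.inl (c : B) : B ⊕ X)) := fun a b h =>
    Subtype.ext (Sum.inl.inj h)
  obtain ⟨Γ, hΓ⟩ : ∃ Γ : LG W C, Γ = Δ.pull (fun c : C => (Sum.inl (c : B) : B ⊕ X)) hg :=
    ⟨_, rfl⟩
  have hmem : ∀ u (c : C) v, (u, c, v) ∈ Γ.F ↔ (u, Sum.inl (c : B), v) ∈ Δ.F := by
    intro u c v
    rw [hΓ, LG.mem_pull]
  obtain ⟨κ, hκ⟩ : ∃ κ : W → FreeGroup (Finset W), ∀ u, κ u = FreeGroup.of (Γ.comp u) :=
    ⟨fun u => FreeGroup.of (Γ.comp u), fun _ => rfl⟩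
  obtain ⟨θ, hθl, hθr⟩ : ∃ θ : W × (B ⊕ X) × W → FreeGroup (Finset W),
      (∀ u b v, θ (u, Sum.inl b, v) = κ u * (κ v)⁻¹) ∧ ∀ u y v, θ (u, Sum.inr y, v) = 1 :=
    ⟨fun e => Sum.elim (fun _ => κ e.1 * (κ e.2.2)⁻¹) (fun _ => 1) e.2.1,
      fun _ _ _ => rfl, fun _ _ _ => rfl⟩
  have hθ : ∀ v z, Δ.Walk v
      (vrel (fun k => FreeGroup.map (Sum.map (Subtype.val : C → B) (id : X → X)) (R k)) z) v →
      Δ.Wv θ v (vrel (fun k => FreeGroup.map (Sum.map (Subtype.val : C → B) (id : X → X))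
        (R k)) z) v 1 := by
    intro v z hw
    rcases z with p | i
    · obtain ⟨x, hx, y, hy, w, hw1, hw2⟩ := hw
      have hw3 : w = v := hw2
      subst hw3
      refine ⟨x, _, hx, ⟨y, _, hy, ⟨w, _, hw1, ⟨rfl, rfl⟩, rfl⟩, rfl⟩, ?_⟩
      simp only [if_true, Bool.false_eq_true, if_false, hθl]
      group
    · refine wv_one _ _ _ hw ?_
      intro l hl a b hab
      obtain ⟨s, hs⟩ := mem_toWord_map (Sum.map (Subtype.val : C → B) (id : X → X)) (R i) l hl
      rw [← hs] at hab ⊢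
      rcases s with c | y
      · have h3 : (a, c, b) ∈ Γ.F := (hmem a c b).2 hab
        have h4 : Γ.comp a = Γ.comp b := LG.comp_eq_iff.2 (LG.conn_of_mem h3)
        show θ (a, Sum.inl (c : B), b) = 1
        rw [hθl, hκ, hκ, h4, mul_inv_cancel]
      · exact hθr _ _ _
  obtain ⟨h, hh2⟩ := LG.acy_pot (li_freeGroup (Finset W)) Δ hA θ hθ
  have he : ∀ u v, Γ.Conn u v → hG v * (fB (hB v))⁻¹ = hG u * (fB (hB u))⁻¹ := by
    intro u v huv
    refine LG.Conn.induction (p := fun v => hG v * (fB (hB v))⁻¹ = hG u * (fB (hB u))⁻¹) rfl ?_ huv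
    have key : ∀ a (c : C) b, (a, c, b) ∈ Γ.F →
        hG b * (fB (hB b))⁻¹ = hG a * (fB (hB a))⁻¹ := by
      intro a c b hab
      have h3 := (hmem a c b).1 hab
      rw [h1 _ _ _ h3, hh _ _ _ h3, map_mul]
      group
    intro a l b ha hs
    obtain ⟨c, t⟩ := l
    cases t
    · rw [← ha, key b c a (LG.step_false.1 hs)]
    · rw [← ha, key a c b (LG.step_true.1 hs)]
  obtain ⟨E, hE⟩ : ∃ E : Finset W → G, ∀ u, E (Γ.comp u) = hG u * (fB (hB u))⁻¹ := by
    refine ⟨fun S => if hS : ∃ u, Γ.comp u = S then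
      hG hS.choose * (fB (hB hS.choose))⁻¹ else 1, fun u => ?_⟩
    have hS : ∃ v, Γ.comp v = Γ.comp u := ⟨u, rfl⟩
    simp only [dif_pos hS]
    exact (he _ _ (LG.comp_eq_iff.1 hS.choose_spec)).symm
  have hΘ : ∀ u, FreeGroup.lift E (κ u) = hG u * (fB (hB u))⁻¹ := by
    intro u
    rw [hκ, FreeGroup.lift_apply_of, hE]
  refine ⟨fun u => FreeGroup.lift E (h u) * hG u, ?_, ?_⟩
  · intro u b v huv
    have h3 := hh2 _ _ _ huv
    rw [hθl] at h3
    show FreeGroup.lift E (h v) * hG v = FreeGroup.lift E (h u) * hG u * fB b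
    rw [h3, map_mul, map_mul, map_inv, hΘ, hΘ, hh _ _ _ huv, map_mul]
    group
  · intro u y v huv
    have h3 := hh2 _ _ _ huv
    rw [hθr, mul_one] at h3
    show FreeGroup.lift E (h v) * hG v = FreeGroup.lift E (h u) * hG u * x y
    rw [h3, h2 _ _ _ huv, mul_assoc]

end Pool.Agent.LIA
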