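import Pool.Agent.Lib.TwLI.VHow
import Pool.Agent.Lib.TwLI.VA
import Pool.Agent.Lib.TwLI.VG
import Pool.Agent.Lib.TwLI.VAmal
import Pool.Agent.Lib.MP_cf50d6_gt.Push

/-!
# VMain : base change for relative presentations over locally indicable groups

(if) `hA : LocallyIndicable (RelGrp (id : C → C) R)`. Let `H` be a finitely generated subgroup of `G = RelGrp Subtype.val R`
without homomorphism onto the integers; then every homomorphism from `H` to `Multiplicative ℚ` is trivial (the image is a finitely
generated subgroup of `ℚ`, trivial or infinite cyclic; private lemma `ex_hom_rat` in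
`Lib/MP_cf50d6_gt/Ex.lean`, copy it). Let `π` be given by `exists_words Subtype.val R`, lift generators of `H`: `k j`. `exists_top` with
`rel = vrel (RB)`, `RB i = FreeGroup.map (Sum.map Subtype.val id) (R i)`, `S0 = Set.range Sum.inr`, `a i = (RB i).toWord`, `hd` from
`exists_lsum`. On the graph `Δ`: `vb` gives `hB : W → B`; `va` with `A = RelGrp id R`, `i c = mk (inl c)`, `x y = mk (inr (of y))`
gives `hA : W → A`; with `j : A →* G` from `exists_map`, `hG = j ∘ hA`, `fB b = mk (inl b)`, `vg` gives a potential
`φ : W → G`. So the closed walk `(k j).toWord` at `o` has value `π (k j) = 1` (induction on the word, compare `h1` in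
`GFG.li_of_bound`), `H = ⊥`.
(only if) `C` is locally indicable (subgroup of `B`), `howie` for the group `C` gives the hypothesis of `exists_emb`;
`LocallyIndicable.of_injective` (Push.lean).
-/

set_option autoImplicit false

open scoped Classical

namespace Pool.Agent.LIA

universe u

/-- a homomorphism to the rationals from a finitely generated group without homomorphisms onto the
integers is trivial -/
private theorem vm_hom_rat {H : Type*} [Group H] (hH : Group.FG H)
    (hno : ¬ ∃ f : H →* Multiplicative ℤ, Function.Surjective f)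
    (f : H →* Multiplicative ℚ) : ∀ h, f h = 1 := by
  by_contra hcon
  push Not at hcon
  obtain ⟨h1, hh1⟩ := hcon
  obtain ⟨T, hT⟩ := Group.fg_def.1 hH
  set D : ℤ := ∏ t ∈ T, ((f t).toAdd.den : ℤ) with hD
  have hD0 : D ≠ 0 := by
    rw [hD]
    exact Finset.prod_ne_zero_iff.2 fun t _ => by exact_mod_cast (f t).toAdd.den_nz
  have hint : ∀ h : H, ∃ m : ℤ, (D : ℚ) * (f h).toAdd = m := by
    intro h
    have hmem : h ∈ Subgroup.closure (T : Set H) := by rw [hT]; trivial
    induction hmem using Subgroup.closure_induction with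
    | mem x hx =>
      have h1 : ((f x).toAdd.den : ℤ) ∣ D := Finset.dvd_prod_of_mem _ hx
      obtain ⟨c, hc⟩ := h1
      refine ⟨c * (f x).toAdd.num, ?_⟩
      rw [hc]
      push_cast
      have h2 : ((f x).toAdd.den : ℚ) * (f x).toAdd = (f x).toAdd.num := by
        rw [mul_comm]
        exact Rat.mul_den_eq_num _
      calc ((f x).toAdd.den : ℚ) * (c : ℚ) * (f x).toAdd
          = c * (((f x).toAdd.den : ℚ) * (f x).toAdd) := by ring
        _ = c * ((f x).toAdd.num : ℚ) := by rw [h2]
    | one => exact ⟨0, by simp⟩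
    | mul x y _ _ hx hy =>
      obtain ⟨a, ha⟩ := hx
      obtain ⟨b, hb⟩ := hy
      refine ⟨a + b, ?_⟩
      rw [map_mul, toAdd_mul, mul_add, ha, hb]
      push_cast
      rfl
    | inv x _ hx =>
      obtain ⟨a, ha⟩ := hx
      refine ⟨-a, ?_⟩
      rw [map_inv, toAdd_inv, mul_neg, ha]
      push_cast
      rfl
  -- the subgroup of all values
  let K : AddSubgroup ℤ :=
    { carrier := {m | ∃ h : H, (D : ℚ) * (f h).toAdd = m}
      zero_mem' := ⟨1, by simp⟩
      add_mem' := by
        rintro a b ⟨x, hx⟩ ⟨y, hy⟩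
        refine ⟨x * y, ?_⟩
        rw [map_mul, toAdd_mul, mul_add, hx, hy]
        push_cast
        rfl
      neg_mem' := by
        rintro a ⟨x, hx⟩
        refine ⟨x⁻¹, ?_⟩
        rw [map_inv, toAdd_inv, mul_neg, hx]
        push_cast
        rfl }
  obtain ⟨a, ha⟩ := Int.subgroup_cyclic K
  have ha' : K = AddSubgroup.zmultiples a := by
    rw [ha, AddSubgroup.zmultiples_eq_closure]
  have haK : a ∈ K := by
    rw [ha']
    exact AddSubgroup.mem_zmultiples a
  have hk : ∀ h : H, ∃ k : ℤ, (D : ℚ) * (f h).toAdd = k * a := by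
    intro h
    obtain ⟨m, hm⟩ := hint h
    have h2 : m ∈ K := ⟨h, hm⟩
    rw [ha', AddSubgroup.mem_zmultiples_iff] at h2
    obtain ⟨k, hk⟩ := h2
    refine ⟨k, ?_⟩
    rw [hm, ← hk]
    simp
  have ha0 : a ≠ 0 := by
    rintro rfl
    obtain ⟨k, hk⟩ := hk h1
    rw [Int.cast_zero, mul_zero] at hk
    rcases mul_eq_zero.1 hk with h3 | h3
    · exact hD0 (by exact_mod_cast h3)
    · exact hh1 (by simpa using h3)
  have haQ : (a : ℚ) ≠ 0 := by exact_mod_cast ha0
  choose k hk using hk
  apply hno
  refine ⟨MonoidHom.mk' (fun h => Multiplicative.ofAdd (k h)) ?_, ?_⟩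
  · intro x y
    rw [← ofAdd_add]
    congr 1
    have h3 := hk (x * y)
    rw [map_mul, toAdd_mul, mul_add, hk x, hk y, ← add_mul] at h3
    have h4 := mul_right_cancel₀ haQ h3
    exact_mod_cast h4.symm
  · obtain ⟨h0, hh0⟩ := haK
    intro m
    refine ⟨h0 ^ m.toAdd, ?_⟩
    change Multiplicative.ofAdd (k (h0 ^ m.toAdd)) = m
    have h3 := hk (h0 ^ m.toAdd)
    rw [map_zpow, toAdd_zpow, zsmul_eq_mul] at h3
    have h4 : (k (h0 ^ m.toAdd) : ℚ) * a = (m.toAdd : ℚ) * a := by
      rw [← h3, ← hh0]
      ring
    have h5 := mul_right_cancel₀ haQ h4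
    have h6 : k (h0 ^ m.toAdd) = m.toAdd := by exact_mod_cast h5
    rw [h6]
    rfl

/-- the value of a walk along a potential -/
private theorem vm_walk {V S G : Type*} [Group G] (Γ : LG V S) (π : FreeGroup S →* G) (φ : V → G)
    (h : ∀ u s v, (u, s, v) ∈ Γ.F → φ v = φ u * π (FreeGroup.of s)) {u v : V}
    {L : List (S × Bool)} (hL : Γ.Walk u L v) : φ v = φ u * π (FreeGroup.mk L) := by
  induction L generalizing u with
  | nil =>
    have h1 : u = v := hL
    subst h1
    rw [show FreeGroup.mk ([] : List (S × Bool)) = 1 from rfl, map_one, mul_one]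
  | cons l L ih =>
    obtain ⟨a, ha, ha'⟩ := hL
    have h1 := ih ha'
    obtain ⟨s, b⟩ := l
    rw [mk_cons, map_mul, ← mul_assoc]
    cases b
    · rw [LG.step_false] at ha
      rw [lv_false, map_inv, h1, h a s u ha, mul_inv_cancel_right]
    · rw [LG.step_true] at ha
      rw [lv_true, h1, h u s a ha]

private theorem vm_rval_inl {C P X : Type*} [Group P] (f : C → P) (c : C) :
    rval (X := X) f (FreeGroup.of (Sum.inl c)) = Monoid.Coprod.inl (f c) := by
  unfold rval
  rw [FreeGroup.lift_apply_of]
  rfl

private theorem vm_rval_inr {C P X : Type*} [Group P] (f : C → P) (x : X) :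
    rval f (FreeGroup.of (Sum.inr x)) = Monoid.Coprod.inr (FreeGroup.of x) := by
  unfold rval
  rw [FreeGroup.lift_apply_of]
  rfl

theorem base_change {B X : Type u} {ι : Type*} [Group B] (hB : LocallyIndicable B)
    (C : Subgroup B) (R : ι → FreeGroup (C ⊕ X))
    (hR : LinearIndependent ℚ fun i => expo (R i)) :
    LocallyIndicable (RelGrp (Subtype.val : C → B) R) ↔
      LocallyIndicable (RelGrp (id : C → C) R) := by
  constructor
  · intro hG
    have hC : LocallyIndicable C :=
      LocallyIndicable.of_injective C.subtype C.subtype_injective hB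
    obtain ⟨j, hj⟩ := exists_emb C R (howie hC R hR)
    exact LocallyIndicable.of_injective j hj hG
  · intro hAl H hHfg hHne
    by_contra hno
    apply hHne
    obtain ⟨T, hT⟩ := hHfg
    -- the generators of `H`
    let e := T.equivFin
    let y : Fin T.card → RelGrp (Subtype.val : C → B) R := fun j => (e.symm j : _)
    have hy : Subgroup.closure (Set.range y) = H := by
      rw [← hT]
      congr 1
      ext x
      constructor
      · rintro ⟨j, rfl⟩
        exact (e.symm j).2
      · intro hx
        exact ⟨e ⟨x, hx⟩, by simp [y]⟩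
    obtain ⟨π, hπ, hπb, hπx, hπR, hker⟩ := exists_words (Subtype.val : C → B) R
    choose k hk using fun j => hπ (y j)
    have hHfg : Group.FG H := by
      rw [Group.fg_iff_subgroup_fg]
      exact ⟨T, hT⟩
    have hnoH : ∀ f : H →* Multiplicative ℚ, ∀ h, f h = 1 := fun f => vm_hom_rat hHfg hno f
    have hky : (fun j => π (k j)) = y := funext hk
    have hnoR : ∀ f : Subgroup.closure (Set.range fun j => π (k j)) →* Multiplicative ℚ,
        ∀ h, f h = 1 := by
      rw [hky, hy]
      exact hnoH
    obtain ⟨W, _, Δ, o, h1, hA, hS, hw⟩ := exists_top π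
      (vrel fun i => FreeGroup.map (Sum.map Subtype.val id) (R i)) hker k hnoR
      (Set.range Sum.inr) (fun i => (FreeGroup.map (Sum.map Subtype.val id) (R i)).toWord)
      (exists_lsum Subtype.val R hR)
    obtain ⟨pB, hpB⟩ := vb hB (fun i => FreeGroup.map (Sum.map Subtype.val id) (R i)) Δ hA hS
    let NA : Subgroup (Monoid.Coprod C (FreeGroup X)) :=
      Subgroup.normalClosure (Set.range fun i => rval (id : C → C) (R i))
    let i₀ : C →* RelGrp (id : C → C) R := (QuotientGroup.mk' NA).comp Monoid.Coprod.inl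
    let x₀ : X → RelGrp (id : C → C) R := fun y =>
      QuotientGroup.mk' NA (Monoid.Coprod.inr (FreeGroup.of y))
    have hRk : ∀ k, FreeGroup.lift (Sum.elim (fun c => i₀ c) x₀) (R k) = 1 := by
      intro k
      have e1 : FreeGroup.lift (Sum.elim (fun c => i₀ c) x₀) =
          (QuotientGroup.mk' NA).comp (rval (id : C → C)) := by
        refine FreeGroup.ext_hom _ _ fun s => ?_
        rw [MonoidHom.comp_apply, FreeGroup.lift_apply_of]
        cases s with
        | inl c =>
          rw [vm_rval_inl]
          rfl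
        | inr x =>
          rw [vm_rval_inr]
          rfl
      rw [e1, MonoidHom.comp_apply]
      exact (QuotientGroup.eq_one_iff _).2 (Subgroup.subset_normalClosure ⟨k, rfl⟩)
    obtain ⟨pA, hpA1, hpA2⟩ := va hAl C R i₀ x₀ hRk Δ hA pB hpB
    obtain ⟨j, hj1, hj2⟩ := exists_map C R
    let NG : Subgroup (Monoid.Coprod B (FreeGroup X)) :=
      Subgroup.normalClosure (Set.range fun i => rval (Subtype.val : C → B) (R i))
    let fB : B →* RelGrp (Subtype.val : C → B) R := (QuotientGroup.mk' NG).comp Monoid.Coprod.inl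
    let xG : X → RelGrp (Subtype.val : C → B) R := fun y =>
      QuotientGroup.mk' NG (Monoid.Coprod.inr (FreeGroup.of y))
    obtain ⟨φ, hφ1, hφ2⟩ := vg C R fB xG Δ hA pB hpB (fun w => j (pA w))
      (fun u c v huv => by
        rw [hpA1 u c v huv, map_mul]
        congr 1
        exact hj1 c)
      (fun u y v huv => by
        rw [hpA2 u y v huv, map_mul]
        congr 1
        exact hj2 y)
    have hφ : ∀ u s v, (u, s, v) ∈ Δ.F → φ v = φ u * π (FreeGroup.of s) := by
      intro u s v huv
      cases s with
      | inl b =>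
        rw [hφ1 u b v huv, hπb b]
        rfl
      | inr x =>
        rw [hφ2 u x v huv, hπx x]
        rfl
    have hk1 : ∀ j, y j = 1 := by
      intro j
      have h2 := vm_walk Δ π φ hφ (hw j)
      rw [@FreeGroup.mk_toWord _ (fun a b => Classical.propDecidable (a = b)) _, hk] at h2
      exact mul_eq_left.1 h2.symm
    rw [← hy, Subgroup.closure_eq_bot_iff]
    rintro _ ⟨j, rfl⟩
    exact hk1 j

end Pool.Agent.LIA
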