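import Pool.Agent.Lib.TwLI.Defs

/-!
# WDefs : independent ends of edges in a graph of free groups, definitions

(helper81, problem MP_cf50d6_gt)
-/

set_option autoImplicit false

open scoped Classical

namespace Pool.Agent.LIA

universe u

/-- the exponent sums of an element of a free group -/
noncomputable def abel {Y : Type*} (g : FreeGroup Y) : Y →₀ ℚ :=
  (FreeGroup.lift (fun y => Multiplicative.ofAdd (Finsupp.single y (1 : ℚ))) g).toAdd

namespace GFG

variable (A : GFG.{u})

/-- The ends of the edge `j` are `(j, true)` (at the vertex `s j`) and `(j, false)` (at the vertex `t j`).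
The image of the basis element `z` of the edge group at the end `e`, in the free product of all vertex
groups. -/
noncomputable def img (e : A.J × Bool) (z : Fin (A.r e.1)) : FreeGroup (Σ i, A.X i) :=
  if e.2 then FreeGroup.map (fun x => ⟨A.s e.1, x⟩) (A.α e.1 (FreeGroup.of z))
  else FreeGroup.map (fun x => ⟨A.t e.1, x⟩) (A.β e.1 (FreeGroup.of z))

/-- the ends in `E0` are independent: the classes of the basis elements of their edge groups in the
direct sum of the first homology groups (with rational coefficients) of the vertex groups are
linearly independent; equivalently, for every vertex `i` the direct sum of the first homology groups of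
the edge groups of the ends in `E0` at `i` is mapped injectively into that of the vertex group -/
def Independent (E0 : Set (A.J × Bool)) : Prop :=
  LinearIndependent ℚ fun p : Σ e : E0, Fin (A.r e.1.1) => abel (A.img p.1.1 p.2)

/-- the weight condition with the independent ends `E0` : at every vertex `i` all ends in `E0` together
count `lam i`, an upper bound of their weights, the other ends count weight times constant -/
def WeightFor (κ κ' : A.J → ℚ) (E0 : Set (A.J × Bool)) : Prop :=
  ∃ (w : A.J → ℚ) (lam : A.I → ℚ), (∀ j, 0 ≤ w j ∧ w j ≤ 1) ∧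
    (∀ j, (j, true) ∈ E0 → w j ≤ lam (A.s j)) ∧ (∀ j, (j, false) ∈ E0 → 1 - w j ≤ lam (A.t j)) ∧
    (∀ i, 0 ≤ lam i) ∧ ∀ (i : A.I) (B : Finset A.J),
      lam i + ∑ j ∈ B with A.s j = i ∧ (j, true) ∉ E0, w j * κ j +
        ∑ j ∈ B with A.t j = i ∧ (j, false) ∉ E0, (1 - w j) * κ' j ≤ 1

/-- the word of the basis element `z` at the end `e`, in the letters of the group `A.Grp` -/
noncomputable def ewd (p : Σ e : A.J × Bool, Fin (A.r e.1)) :
    List (((Σ i, A.X i) ⊕ A.J) × Bool) :=
  if p.1.2 then A.wA ⟨p.1.1, p.2⟩ else A.wB ⟨p.1.1, p.2⟩

end GFG

end Pool.Agent.LIA
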