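import Pool.Agent.Lib.TwLI.WDefs

/-!
# WEnds : the ends of an independent family together have reduced rank at most that of the vertex graph

`J1` : edges with source `i` and `(j, true) ∈ E0`; `J2` : edges with target `i` and `(j, false) ∈ E0`.
1. Γ' = the graph on `V` with labels `(Σ i, A.X i) ⊕ A.J` whose edges are the edges of `Γ` with labels
   `Sum.inl ⟨i, x⟩`; `Γ'.rr = (A.GG Γ i).rr` : `LG.exists_sum` with `ι = Unit`, `Ω = V`, the graph `A.GG Γ i`, `f _ v = v`,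
   `g _ x = Sum.inl ⟨i, x⟩` (as in `GFG.key`).
2. P = the disjoint union of the graphs `A.PP Γ j`, `j ∈ J1`, and `A.PP Γ j`, `j ∈ J2` : `LG.exists_sum` with
   `ι = ↥J1 ⊕ ↥J2`, `Ω = Σ k : ι, A.TT Γ (jj k)` (`jj = Sum.elim Subtype.val Subtype.val`), `R = Σ k : ι, Fin (A.r (jj k))`.
   `P.rr` is the sum on the left hand side.
3. `m : Ω → V` : the first component of the pair `t` for `k = inl _`, the second for `k = inr _`. `ω (k, z) = A.wA ⟨j, z⟩` for
   `k = inl j`, `A.wB ⟨j, z⟩` for `k = inr j`. For an edge of `P` the walk is given by `mem_PP`; it is a walk of `Γ'`, as all its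
   letters are `Sum.inl ⟨A.s j, x⟩`, `A.s j = i` (resp. `A.t j = i`).
4. `LG.tr_rr_le Γ' P m ω` : it remains to prove the surjectivity. Given `c` on the edges of `P`, define the target
   `t v p` (`v : V`, `p : Σ e : E0, Fin ..`) : if there is an edge `(x, (k, z), x')` of `P` with `m x = v` and `k, z` corresponding to
   `p` (`p.1 = (j, true)` for `k = inl j`, `(j, false)` for `k = inr j`), it is `c` of this edge (it is unique: `x` is determined by
   `v` and `k` since `Γ` is folded, `x'` by `P.det`), otherwise 0. `hS` gives `f` on `Γ`. The sums in `Γ'` and `Γ` along a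
   walk of `Γ'` are the same (lemma: `Γ'.F ⊆ Γ.F`, `Γ'.Walk u L v` → `Γ'.trSum f u L = Γ.trSum f u L`; induction).
-/

set_option autoImplicit false

open scoped Classical

namespace Pool.Agent.LIA

universe u

private theorem we_trSum_sub {V S : Type*} {Γ Γ' : LG V S} (hF : Γ'.F ⊆ Γ.F)
    (f : V × S × V → ℚ) {u v : V} {L : List (S × Bool)} (h : Γ'.Walk u L v) :
    Γ'.trSum f u L = Γ.trSum f u L := by
  induction L generalizing u with
  | nil => rw [LG.trSum_nil, LG.trSum_nil]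
  | cons l L ih =>
    obtain ⟨a, ha, ha'⟩ := h
    have ha2 : Γ.Step u l a := LG.walk_singleton.1 ((LG.walk_singleton.2 ha).mono hF)
    rw [LG.trSum_cons _ _ _ ha, LG.trSum_cons _ _ _ ha2, ih ha']

private theorem we_walk_sub {V S : Type*} {Γ Γ' : LG V S} (p : S → Prop)
    (hF : ∀ u s v, (u, s, v) ∈ Γ.F → p s → (u, s, v) ∈ Γ'.F) {u v : V} {L : List (S × Bool)}
    (hL : ∀ l ∈ L, p l.1) (h : Γ.Walk u L v) : Γ'.Walk u L v := by
  induction L generalizing u with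
  | nil => exact h
  | cons l L ih =>
    obtain ⟨a, ha, ha'⟩ := h
    refine ⟨a, ?_, ih (fun l' hl' => hL l' (List.mem_cons_of_mem _ hl')) ha'⟩
    have hp : p l.1 := hL l List.mem_cons_self
    obtain ⟨s, b⟩ := l
    cases b
    · rw [LG.step_false] at ha ⊢
      exact hF _ _ _ ha hp
    · rw [LG.step_true] at ha ⊢
      exact hF _ _ _ ha hp

theorem GFG.ends_le (A : GFG.{u}) {V : Type u} [Fintype V] (Γ : LG V ((Σ i, A.X i) ⊕ A.J))
    (E0 : Set (A.J × Bool))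
    (hS : Γ.Sur Set.univ fun p : Σ e : E0, Fin (A.r e.1.1) => A.ewd ⟨p.1.1, p.2⟩) (i : A.I)
    (J1 J2 : Finset A.J) (h1 : ∀ j ∈ J1, A.s j = i ∧ (j, true) ∈ E0)
    (h2 : ∀ j ∈ J2, A.t j = i ∧ (j, false) ∈ E0) :
    ∑ j ∈ J1, (A.PP Γ j).rr + ∑ j ∈ J2, (A.PP Γ j).rr ≤ (A.GG Γ i).rr := by
  -- the graph of the vertex group
  obtain ⟨Γ', hF, -, hr⟩ := LG.exists_sum (ι := Unit) (Ω := V) (R := (Σ i, A.X i) ⊕ A.J)
    (V' := fun _ => V) (S' := fun _ => A.X i) (fun _ => A.GG Γ i) (fun _ v => v)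
    (fun _ x => Sum.inl ⟨i, x⟩) (fun _ v v' h => h) (fun _ _ _ _ _ => rfl) (fun _ => A.inl_inj i)
  have hr' : Γ'.rr = (A.GG Γ i).rr := by
    rw [hr]
    simp
  have hsub : Γ'.F ⊆ Γ.F := by
    rintro ⟨u, s, v⟩ h
    rw [hF] at h
    obtain ⟨_, u', s', v', rfl, rfl, rfl, h⟩ := h
    exact (LG.mem_pull (hg := A.inl_inj i)).1 h
  have hsup : ∀ u s v, (u, s, v) ∈ Γ.F → (∃ y : Σ i, A.X i, y.1 = i ∧ s = Sum.inl y) →
      (u, s, v) ∈ Γ'.F := by
    rintro u s v h ⟨⟨i', x⟩, hi, rfl⟩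
    simp only at hi
    subst hi
    rw [hF]
    exact ⟨(), u, x, v, rfl, rfl, rfl, (LG.mem_pull (hg := A.inl_inj i')).2 h⟩
  -- the graph of the edge groups
  let jj : {j // j ∈ J1} ⊕ {j // j ∈ J2} → A.J := Sum.elim Subtype.val Subtype.val
  obtain ⟨P, hPF, -, hPr⟩ := LG.exists_sum (ι := {j // j ∈ J1} ⊕ {j // j ∈ J2})
    (Ω := Σ k, A.TT Γ (jj k)) (R := Σ k, Fin (A.r (jj k)))
    (V' := fun k => A.TT Γ (jj k)) (S' := fun k => Fin (A.r (jj k)))
    (fun k => A.PP Γ (jj k)) (fun k t => ⟨k, t⟩) (fun k z => ⟨k, z⟩)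
    (fun k t t' h => eq_of_heq (Sigma.mk.inj h).2)
    (fun k l u v h => (Sigma.mk.inj h).1)
    (fun k z z' h => eq_of_heq (Sigma.mk.inj h).2)
  have hPr' : P.rr = ∑ j ∈ J1, (A.PP Γ j).rr + ∑ j ∈ J2, (A.PP Γ j).rr := by
    rw [hPr, Fintype.sum_sum_type]
    simp only [jj, Sum.elim_inl, Sum.elim_inr]
    exact congrArg₂ (· + ·) (Finset.sum_coe_sort J1 fun j => (A.PP Γ j).rr)
      (Finset.sum_coe_sort J2 fun j => (A.PP Γ j).rr)
  rw [← hr', ← hPr']
  -- the maps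
  let m : (Σ k, A.TT Γ (jj k)) → V := fun t =>
    match t with
    | ⟨Sum.inl _, t⟩ => t.1.1
    | ⟨Sum.inr _, t⟩ => t.1.2
  let ω : (Σ k, Fin (A.r (jj k))) → List (((Σ i, A.X i) ⊕ A.J) × Bool) := fun z =>
    match z with
    | ⟨Sum.inl j, z⟩ => A.wA ⟨j.1, z⟩
    | ⟨Sum.inr j, z⟩ => A.wB ⟨j.1, z⟩
  let key : (Σ k, Fin (A.r (jj k))) → Σ e : E0, Fin (A.r e.1.1) := fun z =>
    match z with
    | ⟨Sum.inl j, z⟩ => ⟨⟨(j.1, true), (h1 j.1 j.2).2⟩, z⟩
    | ⟨Sum.inr j, z⟩ => ⟨⟨(j.1, false), (h2 j.1 j.2).2⟩, z⟩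
  have hkey : Function.Injective key := by
    rintro ⟨j | j, z⟩ ⟨j' | j', z'⟩ h
    · obtain ⟨j, hj⟩ := j
      obtain ⟨j', hj'⟩ := j'
      simp only [key, Sigma.mk.injEq, Subtype.mk.injEq, Prod.mk.injEq, and_true] at h
      obtain ⟨rfl, h3⟩ := h
      rw [eq_of_heq h3]
    · simp [key] at h
    · simp [key] at h
    · obtain ⟨j, hj⟩ := j
      obtain ⟨j', hj'⟩ := j'
      simp only [key, Sigma.mk.injEq, Subtype.mk.injEq, Prod.mk.injEq, and_true] at h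
      obtain ⟨rfl, h3⟩ := h
      rw [eq_of_heq h3]
  have hω : ∀ z, A.ewd ⟨(key z).1.1, (key z).2⟩ = ω z := by
    rintro ⟨j | j, z⟩
    · simp [key, ω, GFG.ewd]
    · simp [key, ω, GFG.ewd]
  have hm : ∀ t z t', (t, z, t') ∈ P.F → Γ'.Walk (m t) (ω z) (m t') := by
    intro t z t' h
    rw [hPF] at h
    obtain ⟨j | j, u, z', v, rfl, rfl, rfl, h⟩ := h
    · have h3 : Γ.Walk u.1.1 (A.wA ⟨j.1, z'⟩) v.1.1 := (A.mem_PP.1 h).1
      refine we_walk_sub _ hsup ?_ h3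
      intro l hl
      have hl' := hl
      unfold GFG.wA at hl'
      obtain ⟨x, _, rfl⟩ := List.mem_map.1 hl'
      exact ⟨_, (h1 j.1 j.2).1, rfl⟩
    · have h3 : Γ.Walk u.1.2 (A.wB ⟨j.1, z'⟩) v.1.2 := (A.mem_PP.1 h).2
      refine we_walk_sub _ hsup ?_ h3
      intro l hl
      have hl' := hl
      unfold GFG.wB at hl'
      obtain ⟨x, _, rfl⟩ := List.mem_map.1 hl'
      exact ⟨_, (h2 j.1 j.2).1, rfl⟩
  refine LG.tr_rr_le Γ' P m ω hm ?_
  intro c
  let tt : V → (Σ e : E0, Fin (A.r e.1.1)) → ℚ := fun v p =>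
    if h : ∃ q : (Σ k, A.TT Γ (jj k)) × (Σ k, Fin (A.r (jj k))) × (Σ k, A.TT Γ (jj k)),
      q ∈ P.F ∧ m q.1 = v ∧ key q.2.1 = p then c h.choose else 0
  have htt : ∀ t z t', (t, z, t') ∈ P.F → tt (m t) (key z) = c (t, z, t') := by
    intro t z t' h
    have h3 : ∃ q : (Σ k, A.TT Γ (jj k)) × (Σ k, Fin (A.r (jj k))) × (Σ k, A.TT Γ (jj k)),
      q ∈ P.F ∧ m q.1 = m t ∧ key q.2.1 = key z := ⟨(t, z, t'), h, rfl, rfl⟩
    simp only [tt, dif_pos h3]
    congr 1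
    obtain ⟨h4, h5, h6⟩ := h3.choose_spec
    generalize h3.choose = q at h4 h5 h6
    obtain ⟨x, w, x'⟩ := q
    obtain rfl : w = z := hkey h6
    have h7 : x = t := by
      have h8 := (hPF _ _ _).1 h4
      have h9 := (hPF _ _ _).1 h
      obtain ⟨k, y, w1, y1, rfl, rfl, -, -⟩ := h8
      obtain ⟨k', y', w2, y2, rfl, h10, -, -⟩ := h9
      obtain rfl := (Sigma.mk.inj h10).1
      obtain j | j := k'
      · obtain ⟨⟨a, b⟩, hy⟩ := y
        obtain ⟨⟨a', b'⟩, hy'⟩ := y'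
        have h11 : a = a' := h5
        subst h11
        obtain rfl := Γ.det hy hy'
        rfl
      · obtain ⟨⟨a, b⟩, hy⟩ := y
        obtain ⟨⟨a', b'⟩, hy'⟩ := y'
        have h11 : b = b' := h5
        subst h11
        obtain rfl := Γ.cod hy hy'
        rfl
    subst h7
    rw [P.det h4 h]
  obtain ⟨f, -, hf⟩ := hS tt
  refine ⟨f, fun t z t' h => ?_⟩
  have h3 := hm t z t' h
  rw [we_trSum_sub hsub f h3, ← htt t z t' h, ← hω z]
  refine hf (m t) (key z) ⟨m t', ?_⟩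
  change Γ.Walk (m t) (A.ewd ⟨(key z).1.1, (key z).2⟩) (m t')
  rw [hω z]
  exact h3.mono hsub

end Pool.Agent.LIA
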