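import Pool.Agent.Lib.TwLI.WDefs

/-!
# WExp : independent ends, dual form

`hI` gives a linear functional on `(Σ i, A.X i) →₀ ℚ` with value `t p` on `abel (A.img p.1 p.2)`; it is given by a function
`g0 : (Σ i, A.X i) → ℚ`; `g = Sum.elim g0 (fun _ => 0)`. The word `A.ewd p` is the word of `A.img p` with `Sum.inl` applied
to the letters (`A.wA`, `A.wB` are `toWord.map`), and `lsum g` of a word `L` is the value on `FreeGroup.mk L` of the homomorphism
`FreeGroup _ →* Multiplicative ℚ` given by `g` (induction on `L`; `mk_wA`, `mk_wB` in `Main.lean`).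
-/

set_option autoImplicit false

open scoped Classical

namespace Pool.Agent.LIA

universe u

private theorem dual_ext {V ι : Type*} [AddCommGroup V] [Module ℚ V] (v : ι → V)
    (h : LinearIndependent ℚ v) (t : ι → ℚ) : ∃ F : V →ₗ[ℚ] ℚ, ∀ i, F (v i) = t i := by
  obtain ⟨F, hF⟩ := LinearMap.exists_extend ((Module.Basis.span h).constr ℚ t)
  refine ⟨F, fun i => ?_⟩
  have h1 : F (v i) = (F.comp (Submodule.span ℚ (Set.range v)).subtype)
      ((Module.Basis.span h) i) := by
    rw [LinearMap.comp_apply]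
    congr 1
    rw [Module.Basis.span_apply h i]
    rfl
  rw [h1, hF, Module.Basis.constr_basis]

private noncomputable def vl {S : Type*} (g : S → ℚ) : FreeGroup S →* Multiplicative ℚ :=
  FreeGroup.lift fun s => Multiplicative.ofAdd (g s)

private theorem lsum_eq {S : Type*} (g : S → ℚ) (L : List (S × Bool)) :
    lsum g L = (vl g (FreeGroup.mk L)).toAdd := by
  induction L with
  | nil => rfl
  | cons l L ih =>
    have h1 : FreeGroup.mk (l :: L) = FreeGroup.mk [l] * FreeGroup.mk L := rfl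
    rw [h1, map_mul, toAdd_mul, ← ih]
    show (if l.2 then g l.1 else - g l.1) + lsum g L = _
    congr 1
    obtain ⟨s, b⟩ := l
    unfold vl
    rw [FreeGroup.lift_mk]
    cases b
    · simp
    · simp

private theorem abel_eq {Y : Type*} (F : (Y →₀ ℚ) →ₗ[ℚ] ℚ) (x : FreeGroup Y) :
    F (abel x) = (vl (fun y => F (Finsupp.single y 1)) x).toAdd := by
  have h : (AddMonoidHom.toMultiplicative F.toAddMonoidHom).comp
      (FreeGroup.lift fun y => Multiplicative.ofAdd (Finsupp.single y (1 : ℚ))) =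
      vl (fun y => F (Finsupp.single y 1)) := by
    apply FreeGroup.ext_hom
    intro y
    rw [MonoidHom.comp_apply, FreeGroup.lift_apply_of]
    unfold vl
    rw [FreeGroup.lift_apply_of]
    rfl
  rw [← h]
  rfl

private theorem vl_inl {Y Z : Type*} (g : Y → ℚ) (h : Z → ℚ) (x : FreeGroup Y) :
    vl (Sum.elim g h) (FreeGroup.map Sum.inl x) = vl g x := by
  have h1 : (vl (Sum.elim g h)).comp (FreeGroup.map Sum.inl) = vl g := by
    apply FreeGroup.ext_hom
    intro y
    rw [MonoidHom.comp_apply, FreeGroup.map.of]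
    unfold vl
    rw [FreeGroup.lift_apply_of, FreeGroup.lift_apply_of]
    rfl
  rw [← h1]
  rfl

private theorem mk_ewd (A : GFG.{u}) (p : Σ e : A.J × Bool, Fin (A.r e.1)) :
    FreeGroup.mk (A.ewd p) = FreeGroup.map Sum.inl (A.img p.1 p.2) := by
  obtain ⟨⟨j, b⟩, z⟩ := p
  cases b
  · show FreeGroup.mk (A.wB ⟨j, z⟩) =
      FreeGroup.map Sum.inl (FreeGroup.map (fun x => ⟨A.t j, x⟩) (A.β j (FreeGroup.of z)))
    rw [A.mk_wB, FreeGroup.map.comp]
    rfl
  · show FreeGroup.mk (A.wA ⟨j, z⟩) =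
      FreeGroup.map Sum.inl (FreeGroup.map (fun x => ⟨A.s j, x⟩) (A.α j (FreeGroup.of z)))
    rw [A.mk_wA, FreeGroup.map.comp]
    rfl

theorem GFG.exists_lsum (A : GFG.{u}) (E0 : Set (A.J × Bool)) (hI : A.Independent E0)
    (t : (Σ e : E0, Fin (A.r e.1.1)) → ℚ) :
    ∃ g : ((Σ i, A.X i) ⊕ A.J) → ℚ, (∀ s, s ∉ (Set.univ : Set ((Σ i, A.X i) ⊕ A.J)) → g s = 0) ∧
      ∀ p : Σ e : E0, Fin (A.r e.1.1), lsum g (A.ewd ⟨p.1.1, p.2⟩) = t p := by
  obtain ⟨F, hF⟩ := dual_ext _ hI t
  refine ⟨Sum.elim (fun y => F (Finsupp.single y 1)) (fun _ => 0),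
    fun s hs => absurd (Set.mem_univ s) hs, fun p => ?_⟩
  rw [lsum_eq, mk_ewd, vl_inl, ← abel_eq]
  exact hF p

end Pool.Agent.LIA
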