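import Pool.Agent.Lib.TwLI.Defs

/-!
# WKey : the main argument of the theorem on graphs of free groups, for one finite graph

Copy the proof of `GFG.key` in `Lib/MP_cf50d6_gt/Main.lean`; the only change is the inequality of the reduced ranks
(`A.sum_rr_le Γ hκ hκ' hL I0 J0 hs ht`), which is now the hypothesis `hrr I0 J0 hs ht`.
-/

set_option autoImplicit false

open scoped Classical

namespace Pool.Agent.LIA

universe u

namespace GFG

variable (A : GFG.{u})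

theorem key_rr {V : Type u} [Fintype V] (Γ : LG V ((Σ i, A.X i) ⊕ A.J)) (o : V)
    (hc : ∀ x, Γ.Conn o x)
    (hrr : ∀ (I0 : Finset A.I) (J0 : Finset A.J), (∀ j ∈ J0, A.s j ∈ I0) →
      (∀ j ∈ J0, A.t j ∈ I0) → ∑ j ∈ J0, (A.PP Γ j).rr ≤ ∑ i ∈ I0, (A.GG Γ i).rr)
    (P0 : Finset (V × Σ j, Fin (A.r j))) (hP : ∀ p ∈ P0, Γ.Walk p.1 (A.relw p.2) p.1)
    (hcard : Γ.F.card + 1 ≤ Fintype.card V + P0.card) :
    ∃ φ : V → A.Grp, ∀ u s v, (u, s, v) ∈ Γ.F → φ v = φ u * PresentedGroup.of s := by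
  -- the finite sets of the used vertices and edges
  let J0 : Finset A.J := Γ.F.biUnion fun e => Sum.elim (fun _ => ∅) (fun j => {j}) e.2.1
  let I0 : Finset A.I := (Γ.F.biUnion fun e => Sum.elim (fun x => {x.1}) (fun _ => ∅) e.2.1) ∪
    J0.image A.s ∪ J0.image A.t
  have hJ : ∀ u j v, (u, Sum.inr j, v) ∈ Γ.F → j ∈ J0 := by
    intro u j v h
    exact Finset.mem_biUnion.2 ⟨_, h, by simp⟩
  have hI : ∀ u i x v, (u, Sum.inl ⟨i, x⟩, v) ∈ Γ.F → i ∈ I0 := by
    intro u i x v h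
    refine Finset.mem_union_left _ (Finset.mem_union_left _ ?_)
    exact Finset.mem_biUnion.2 ⟨_, h, by simp⟩
  have hs : ∀ j ∈ J0, A.s j ∈ I0 := fun j hj =>
    Finset.mem_union_left _ (Finset.mem_union_right _ (Finset.mem_image_of_mem _ hj))
  have ht : ∀ j ∈ J0, A.t j ∈ I0 := fun j hj =>
    Finset.mem_union_right _ (Finset.mem_image_of_mem _ hj)
  -- the graph of the vertex groups
  obtain ⟨Γ', hF, hFc, hFr⟩ := LG.exists_sum (ι := I0) (Ω := V × Option I0)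
    (R := Σ i, A.X i) (V' := fun _ => V) (S' := fun i => A.X i) (fun i => A.GG Γ i)
    (fun i v => (v, some i)) (fun i x => ⟨i.1, x⟩)
    (fun i v v' h => (Prod.mk.inj h).1) (fun i j u v h => Option.some_injective _ (Prod.mk.inj h).2)
    (fun i x y h => eq_of_heq (Sigma.mk.inj h).2)
  -- the graph of the edge groups
  obtain ⟨P, hPF, hPc, hPr⟩ := LG.exists_sum (ι := J0) (Ω := (Σ j : J0, A.TT Γ j) ⊕ (V × I0))
    (R := Σ j, Fin (A.r j)) (V' := fun j => A.TT Γ j) (S' := fun j => Fin (A.r j))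
    (fun j => A.PP Γ j) (fun j t => Sum.inl ⟨j, t⟩) (fun j z => ⟨j.1, z⟩)
    (fun j t t' h => eq_of_heq (Sigma.mk.inj (Sum.inl_injective h)).2)
    (fun i j u v h => (Sigma.mk.inj (Sum.inl_injective h)).1)
    (fun j z z' h => eq_of_heq (Sigma.mk.inj h).2)
  let a : (Σ j : J0, A.TT Γ j) ⊕ (V × I0) → V × Option I0 :=
    Sum.elim (fun t => (t.2.1.1, some ⟨A.s t.1, hs _ t.1.2⟩)) fun p => (p.1, none)
  let b : (Σ j : J0, A.TT Γ j) ⊕ (V × I0) → V × Option I0 :=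
    Sum.elim (fun t => (t.2.1.2, some ⟨A.t t.1, ht _ t.1.2⟩)) fun p => (p.1, some p.2)
  let α' : FreeGroup (Σ j, Fin (A.r j)) →* FreeGroup (Σ i, A.X i) :=
    FreeGroup.lift fun p => FreeGroup.map (fun x => ⟨A.s p.1, x⟩) (A.α p.1 (FreeGroup.of p.2))
  let β' : FreeGroup (Σ j, Fin (A.r j)) →* FreeGroup (Σ i, A.X i) :=
    FreeGroup.lift fun p => FreeGroup.map (fun x => ⟨A.t p.1, x⟩) (A.β p.1 (FreeGroup.of p.2))
  let i : FreeGroup (Σ i, A.X i) →* A.Grp := (PresentedGroup.mk A.rels).comp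
    (FreeGroup.map Sum.inl)
  let τ : (Σ j : J0, A.TT Γ j) ⊕ (V × I0) → A.Grp :=
    Sum.elim (fun t => PresentedGroup.of (Sum.inr t.1)) fun _ => 1
  -- walks in `P`
  have hα' : ∀ (j : A.J) (g : FreeGroup (Fin (A.r j))),
      α' (FreeGroup.map (fun z => ⟨j, z⟩) g) = FreeGroup.map (fun x => ⟨A.s j, x⟩) (A.α j g) := by
    intro j g
    have : α'.comp (FreeGroup.map fun z => ⟨j, z⟩) =
        (FreeGroup.map fun x => ⟨A.s j, x⟩).comp (A.α j) := by
      ext z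
      simp [α']
    exact DFunLike.congr_fun this g
  have hβ' : ∀ (j : A.J) (g : FreeGroup (Fin (A.r j))),
      β' (FreeGroup.map (fun z => ⟨j, z⟩) g) = FreeGroup.map (fun x => ⟨A.t j, x⟩) (A.β j g) := by
    intro j g
    have : β'.comp (FreeGroup.map fun z => ⟨j, z⟩) =
        (FreeGroup.map fun x => ⟨A.t j, x⟩).comp (A.β j) := by
      ext z
      simp [β']
    exact DFunLike.congr_fun this g
  have hloop : ∀ t L, P.Walk t L t → FreeGroup.mk L = 1 ∨
      ∃ (j : A.J) (g : FreeGroup (Fin (A.r j))),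
        FreeGroup.mk L = FreeGroup.map (fun z => ⟨j, z⟩) g := by
    intro t L h
    obtain ⟨j, t⟩ | p := t
    · obtain ⟨L', v, h1, h2, h3⟩ := LG.sig_walk
        (f := fun (j : J0) (t : A.TT Γ j) => (Sum.inl ⟨j, t⟩ : (Σ j : J0, A.TT Γ j) ⊕ (V × I0)))
        (g := fun (j : J0) (z : Fin (A.r j)) => (⟨j.1, z⟩ : Σ j, Fin (A.r j)))
        (fun j t t' h => eq_of_heq (Sigma.mk.inj (Sum.inl_injective h)).2)
        (fun i j u v h => (Sigma.mk.inj (Sum.inl_injective h)).1) hPF h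
      exact Or.inr ⟨j, FreeGroup.mk L', by rw [h2, FreeGroup.map.mk]⟩
    · left
      obtain _ | ⟨⟨s, c⟩, L⟩ := L
      · rfl
      · exfalso
        obtain ⟨v, hv, _⟩ := h
        cases c
        · rw [LG.step_false, hPF] at hv
          obtain ⟨_, _, _, _, _, _, h3, _⟩ := hv
          exact Sum.inl_ne_inr h3
        · rw [LG.step_true, hPF] at hv
          obtain ⟨_, _, _, _, h1, _⟩ := hv
          exact Sum.inl_ne_inr h1
  -- the hypotheses of `exists_potential`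
  have h1 : ∀ t L, P.Walk t L t → α' (FreeGroup.mk L) = 1 → FreeGroup.mk L = 1 := by
    intro t L h h'
    obtain h1 | ⟨j, g, h1⟩ := hloop t L h
    · exact h1
    · rw [h1, hα'] at h'
      rw [h1, A.hα j (FreeGroup.map_injective
        (f := fun x : A.X (A.s j) => (⟨A.s j, x⟩ : Σ i, A.X i))
        (fun x y h => eq_of_heq (Sigma.mk.inj h).2) (h'.trans (map_one _).symm) |>.trans
        (map_one _).symm), map_one]
  have h2 : ∀ t L, P.Walk t L t → β' (FreeGroup.mk L) = 1 → FreeGroup.mk L = 1 := by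
    intro t L h h'
    obtain h1 | ⟨j, g, h1⟩ := hloop t L h
    · exact h1
    · rw [h1, hβ'] at h'
      rw [h1, A.hβ j (FreeGroup.map_injective
        (f := fun x : A.X (A.t j) => (⟨A.t j, x⟩ : Σ i, A.X i))
        (fun x y h => eq_of_heq (Sigma.mk.inj h).2) (h'.trans (map_one _).symm) |>.trans
        (map_one _).symm), map_one]
  have h3 : ∀ t z t', (t, z, t') ∈ P.F →
      Γ'.Walk (a t) (@FreeGroup.toWord _ (fun a b => Classical.propDecidable (a = b))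
        (α' (FreeGroup.of z))) (a t') := by
    intro t z t' h
    rw [hPF] at h
    obtain ⟨j, u, z', v, rfl, rfl, rfl, h4⟩ := h
    rw [mem_PP] at h4
    have h5 := LG.sig_walk_mk (f := fun (i : I0) (v : V) => (v, some i))
      (g := fun (i : I0) (x : A.X i) => (⟨i.1, x⟩ : Σ i, A.X i)) hF
      (i := ⟨A.s j, hs _ j.2⟩) ((LG.walk_pull (hg := A.inl_inj (A.s j))).2 h4.1)
    have h6 := LG.walk_toWord h5
    have h7 : FreeGroup.mk (((A.α j (FreeGroup.of z')).toWord).map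
        fun x => ((⟨A.s j, x.1⟩ : Σ i, A.X i), x.2)) = α' (FreeGroup.of ⟨j.1, z'⟩) := by
      rw [← FreeGroup.map.of (f := fun z : Fin (A.r j) => (⟨j.1, z⟩ : Σ j, Fin (A.r j))), hα',
        ← FreeGroup.map.mk (f := fun x : A.X (A.s j) => (⟨A.s j, x⟩ : Σ i, A.X i)),
        FreeGroup.mk_toWord]
    rw [← h7]
    exact h6
  have h4 : ∀ t z t', (t, z, t') ∈ P.F →
      Γ'.Walk (b t) (@FreeGroup.toWord _ (fun a b => Classical.propDecidable (a = b))
        (β' (FreeGroup.of z))) (b t') := by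
    intro t z t' h
    rw [hPF] at h
    obtain ⟨j, u, z', v, rfl, rfl, rfl, h4⟩ := h
    rw [mem_PP] at h4
    have h5 := LG.sig_walk_mk (f := fun (i : I0) (v : V) => (v, some i))
      (g := fun (i : I0) (x : A.X i) => (⟨i.1, x⟩ : Σ i, A.X i)) hF
      (i := ⟨A.t j, ht _ j.2⟩) ((LG.walk_pull (hg := A.inl_inj (A.t j))).2 h4.2)
    have h6 := LG.walk_toWord h5
    have h7 : FreeGroup.mk (((A.β j (FreeGroup.of z')).toWord).map
        fun x => ((⟨A.t j, x.1⟩ : Σ i, A.X i), x.2)) = β' (FreeGroup.of ⟨j.1, z'⟩) := by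
      rw [← FreeGroup.map.of (f := fun z : Fin (A.r j) => (⟨j.1, z⟩ : Σ j, Fin (A.r j))), hβ',
        ← FreeGroup.map.mk (f := fun x : A.X (A.t j) => (⟨A.t j, x⟩ : Σ i, A.X i)),
        FreeGroup.mk_toWord]
    rw [← h7]
    exact h6
  have h5 : ∀ x y, Relation.EqvGen (fun x y => Γ'.Conn x y ∨ ∃ t, a t = x ∧ b t = y) x y := by
    have e1 : ∀ v (k : Option I0), Relation.EqvGen
        (fun x y => Γ'.Conn x y ∨ ∃ t, a t = x ∧ b t = y) (v, none) (v, k) := by
      rintro v (_ | k)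
      · exact Relation.EqvGen.refl _
      · exact Relation.EqvGen.rel _ _ (Or.inr ⟨Sum.inr (v, k), rfl, rfl⟩)
    have e3 : ∀ u s v, (u, s, v) ∈ Γ.F → Relation.EqvGen
        (fun x y => Γ'.Conn x y ∨ ∃ t, a t = x ∧ b t = y) (u, none) (v, none) := by
      rintro u (⟨i, x⟩ | j) v h
      · refine (e1 u (some ⟨i, hI _ _ _ _ h⟩)).trans _ _ _ (Relation.EqvGen.trans _ _ _ ?_
          (e1 v (some ⟨i, hI _ _ _ _ h⟩)).symm)
        refine Relation.EqvGen.rel _ _ (Or.inl ?_)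
        refine LG.conn_of_mem (s := ⟨i, x⟩) ((hF _ _ _).2 ⟨⟨i, hI _ _ _ _ h⟩, u, x, v,
          rfl, rfl, rfl, ?_⟩)
        exact (LG.mem_pull (hg := A.inl_inj i)).2 h
      · refine (e1 u (some ⟨A.s j, hs _ (hJ _ _ _ h)⟩)).trans _ _ _
          (Relation.EqvGen.trans _ _ _ ?_ (e1 v (some ⟨A.t j, ht _ (hJ _ _ _ h)⟩)).symm)
        exact Relation.EqvGen.rel _ _ (Or.inr ⟨Sum.inl ⟨⟨j, hJ _ _ _ h⟩, ⟨(u, v), h⟩⟩, rfl, rfl⟩)
    have e2 : ∀ v, Relation.EqvGen
        (fun x y => Γ'.Conn x y ∨ ∃ t, a t = x ∧ b t = y) (o, none) (v, none) := by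
      intro v
      refine LG.Conn.induction (Γ := Γ) (p := fun v => Relation.EqvGen
        (fun x y => Γ'.Conn x y ∨ ∃ t, a t = x ∧ b t = y) (o, none) (v, none))
        (Relation.EqvGen.refl _) ?_ (hc v)
      rintro u ⟨s, c⟩ v hu h
      refine hu.trans _ _ _ ?_
      cases c
      · rw [LG.step_false] at h
        exact (e3 _ _ _ h).symm
      · rw [LG.step_true] at h
        exact e3 _ _ _ h
    rintro ⟨u, k⟩ ⟨v, l⟩
    exact ((e2 u).trans _ _ _ (e1 u k)).symm.trans _ _ _ ((e2 v).trans _ _ _ (e1 v l))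
  have h6 : P.rr ≤ Γ'.rr := by
    rw [hPr, hFr]
    have := hrr I0 J0 hs ht
    rw [← Finset.sum_coe_sort J0, ← Finset.sum_coe_sort I0] at this
    exact this
  have h7 : Γ'.F.card + Fintype.card ((Σ j : J0, A.TT Γ j) ⊕ (V × I0)) + 1 ≤
      Fintype.card (V × Option I0) + P.F.card := by
    have e1 := A.card_F Γ I0 J0
    have e2 := A.card_P Γ J0 hJ P0 hP
    rw [hFc, hPc, Fintype.card_sum, Fintype.card_sigma, Fintype.card_prod, Fintype.card_prod,
      Fintype.card_option, mul_add, mul_one]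
    omega
  have h8 : ∀ t z t', (t, z, t') ∈ P.F →
      τ t * i (β' (FreeGroup.of z)) = i (α' (FreeGroup.of z)) * τ t' := by
    intro t z t' h
    rw [hPF] at h
    obtain ⟨j, u, z', v, rfl, rfl, rfl, _⟩ := h
    have e1 : FreeGroup.of (⟨j.1, z'⟩ : Σ j, Fin (A.r j)) =
        FreeGroup.map (fun z : Fin (A.r j) => (⟨j.1, z⟩ : Σ j, Fin (A.r j))) (FreeGroup.of z') :=
      (FreeGroup.map.of).symm
    rw [e1, hα', hβ']
    have e2 := A.rel_eq j z'
    change PresentedGroup.of (Sum.inr j.1) * PresentedGroup.mk A.rels (FreeGroup.map Sum.inl _) =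
      PresentedGroup.mk A.rels (FreeGroup.map Sum.inl _) * PresentedGroup.of (Sum.inr j.1)
    rw [FreeGroup.map.comp, FreeGroup.map.comp]
    exact e2
  obtain ⟨φ, hφ1, hφ2⟩ := exists_potential Γ' P a b α' β' h1 h2 h3 h4 h5 h6 h7 i τ h8
  refine ⟨fun v => φ (v, none), ?_⟩
  have e1 : ∀ v (k : I0), φ (v, some k) = φ (v, none) := by
    intro v k
    have := hφ2 (Sum.inr (v, k))
    simpa [a, b, τ] using this
  rintro u (⟨k, x⟩ | j) v h
  · have hk := hI _ _ _ _ h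
    have e2 := hφ1 (u, some ⟨k, hk⟩) ⟨k, x⟩ (v, some ⟨k, hk⟩)
      ((hF _ _ _).2 ⟨⟨k, hk⟩, u, x, v, rfl, rfl, rfl, (LG.mem_pull (hg := A.inl_inj k)).2 h⟩)
    rw [e1, e1] at e2
    change φ (v, none) = φ (u, none) * PresentedGroup.of (Sum.inl ⟨k, x⟩)
    rw [e2]
    simp [i, PresentedGroup.of]
  · have e2 := hφ2 (Sum.inl ⟨⟨j, hJ _ _ _ h⟩, ⟨(u, v), h⟩⟩)
    change φ (v, some ⟨A.t j, _⟩) = φ (u, some ⟨A.s j, _⟩) * PresentedGroup.of (Sum.inr j) at e2
    rw [e1, e1] at e2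
    exact e2

end GFG

end Pool.Agent.LIA
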