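import Pool.Agent.Lib.TwLI.WEnds

/-!
# WSum : the inequality of the reduced ranks

Let `J0`, `I0` be as in `GFG.sum_rr_le` (Main.lean). With the weights `w`, `lam` of `hW`:
`∑ j ∈ J0, rr (PP j) = ∑ j ∈ J0, w j * rr (PP j) + ∑ j ∈ J0, (1 - w j) * rr (PP j)`. Sort the first sum by `i = A.s j`, the second by
`i = A.t j` (`Finset.sum_fiberwise_of_maps_to`), and in each sum the ends in `E0` and not in `E0`. At the vertex `i` :
ends in `E0` : `w j ≤ lam i`, `1 - w j ≤ lam i`, so they contribute at most `lam i * (∑ ..)`, at most `lam i * rr (GG i)` by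
`GFG.ends_le`; the other ends contribute at most `w j * κ j * rr (GG i)` resp. `(1 - w j) * κ' j * rr (GG i)` by
`GFG.PP_le_a`, `GFG.PP_le_b` (the Hanna Neumann constants). The sum at `i` is at most `1 * rr (GG i)` by the last condition of
`WeightFor` for `B = J0`.
-/

set_option autoImplicit false

open scoped Classical

namespace Pool.Agent.LIA

universe u

theorem GFG.sum_rr_le_weight (A : GFG.{u}) {V : Type u} [Fintype V]
    (Γ : LG V ((Σ i, A.X i) ⊕ A.J)) (E0 : Set (A.J × Bool))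
    (hS : Γ.Sur Set.univ fun p : Σ e : E0, Fin (A.r e.1.1) => A.ewd ⟨p.1.1, p.2⟩)
    {κ κ' : A.J → ℚ} (hκ : ∀ j, (j, true) ∉ E0 → HNBound.{u} (A.α j) (κ j))
    (hκ' : ∀ j, (j, false) ∉ E0 → HNBound.{u} (A.β j) (κ' j)) (hW : A.WeightFor κ κ' E0)
    (I0 : Finset A.I) (J0 : Finset A.J) (hs : ∀ j ∈ J0, A.s j ∈ I0) (ht : ∀ j ∈ J0, A.t j ∈ I0) :
    ∑ j ∈ J0, (A.PP Γ j).rr ≤ ∑ i ∈ I0, (A.GG Γ i).rr := by
  obtain ⟨w, lam, hw, hl1, hl2, hl0, hB⟩ := hW
  have h2 : ∑ j ∈ J0, w j * ((A.PP Γ j).rr : ℚ) =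
      ∑ i ∈ I0, ∑ j ∈ J0 with A.s j = i, w j * ((A.PP Γ j).rr : ℚ) :=
    (Finset.sum_fiberwise_of_maps_to hs _).symm
  have h3 : ∑ j ∈ J0, (1 - w j) * ((A.PP Γ j).rr : ℚ) =
      ∑ i ∈ I0, ∑ j ∈ J0 with A.t j = i, (1 - w j) * ((A.PP Γ j).rr : ℚ) :=
    (Finset.sum_fiberwise_of_maps_to ht _).symm
  have h4 : ∑ j ∈ J0, ((A.PP Γ j).rr : ℚ) =
      ∑ j ∈ J0, w j * ((A.PP Γ j).rr : ℚ) + ∑ j ∈ J0, (1 - w j) * ((A.PP Γ j).rr : ℚ) := by
    rw [← Finset.sum_add_distrib]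
    refine Finset.sum_congr rfl fun j _ => ?_
    ring
  have h5 : ∀ i, ∑ j ∈ J0 with A.s j = i, w j * ((A.PP Γ j).rr : ℚ) ≤
      lam i * ∑ j ∈ J0 with A.s j = i ∧ (j, true) ∈ E0, ((A.PP Γ j).rr : ℚ) +
      (∑ j ∈ J0 with A.s j = i ∧ (j, true) ∉ E0, w j * κ j) * ((A.GG Γ i).rr : ℚ) := by
    intro i
    rw [← Finset.sum_filter_add_sum_filter_not (J0.filter fun j => A.s j = i)
      (fun j => (j, true) ∈ E0), Finset.filter_filter, Finset.filter_filter]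
    refine add_le_add ?_ ?_
    · rw [Finset.mul_sum]
      refine Finset.sum_le_sum fun j hj => ?_
      obtain ⟨_, hj1, hj2⟩ := Finset.mem_filter.1 hj
      refine mul_le_mul_of_nonneg_right ?_ (Nat.cast_nonneg _)
      rw [← hj1]
      exact hl1 j hj2
    · rw [Finset.sum_mul]
      refine Finset.sum_le_sum fun j hj => ?_
      obtain ⟨_, hj1, hj2⟩ := Finset.mem_filter.1 hj
      have h := mul_le_mul_of_nonneg_left (A.PP_le_a Γ j (hκ j hj2)) (hw j).1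
      rw [hj1, ← mul_assoc] at h
      exact h
  have h6 : ∀ i, ∑ j ∈ J0 with A.t j = i, (1 - w j) * ((A.PP Γ j).rr : ℚ) ≤
      lam i * ∑ j ∈ J0 with A.t j = i ∧ (j, false) ∈ E0, ((A.PP Γ j).rr : ℚ) +
      (∑ j ∈ J0 with A.t j = i ∧ (j, false) ∉ E0, (1 - w j) * κ' j) * ((A.GG Γ i).rr : ℚ) := by
    intro i
    rw [← Finset.sum_filter_add_sum_filter_not (J0.filter fun j => A.t j = i)
      (fun j => (j, false) ∈ E0), Finset.filter_filter, Finset.filter_filter]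
    refine add_le_add ?_ ?_
    · rw [Finset.mul_sum]
      refine Finset.sum_le_sum fun j hj => ?_
      obtain ⟨_, hj1, hj2⟩ := Finset.mem_filter.1 hj
      refine mul_le_mul_of_nonneg_right ?_ (Nat.cast_nonneg _)
      rw [← hj1]
      exact hl2 j hj2
    · rw [Finset.sum_mul]
      refine Finset.sum_le_sum fun j hj => ?_
      obtain ⟨_, hj1, hj2⟩ := Finset.mem_filter.1 hj
      have h := mul_le_mul_of_nonneg_left (A.PP_le_b Γ j (hκ' j hj2)) (sub_nonneg.2 (hw j).2)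
      rw [hj1, ← mul_assoc] at h
      exact h
  have h7 : ∀ i, ∑ j ∈ J0 with A.s j = i ∧ (j, true) ∈ E0, ((A.PP Γ j).rr : ℚ) +
      ∑ j ∈ J0 with A.t j = i ∧ (j, false) ∈ E0, ((A.PP Γ j).rr : ℚ) ≤ ((A.GG Γ i).rr : ℚ) := by
    intro i
    have h := A.ends_le Γ E0 hS i (J0.filter fun j => A.s j = i ∧ (j, true) ∈ E0)
      (J0.filter fun j => A.t j = i ∧ (j, false) ∈ E0)
      (fun j hj => (Finset.mem_filter.1 hj).2) (fun j hj => (Finset.mem_filter.1 hj).2)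
    exact_mod_cast h
  have h8 : (∑ j ∈ J0, ((A.PP Γ j).rr : ℚ)) ≤ ∑ i ∈ I0, ((A.GG Γ i).rr : ℚ) := by
    rw [h4, h2, h3, ← Finset.sum_add_distrib]
    refine Finset.sum_le_sum fun i _ => ?_
    have e1 := h5 i
    have e2 := h6 i
    have e3 := mul_le_mul_of_nonneg_left (h7 i) (hl0 i)
    have e4 := mul_le_mul_of_nonneg_right (hB i J0)
      (Nat.cast_nonneg (α := ℚ) (A.GG Γ i).rr)
    rw [mul_add] at e3
    rw [add_mul, add_mul, one_mul] at e4
    linarith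
  exact_mod_cast h8

end Pool.Agent.LIA
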